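import Pool.Agent.helper85.L1.Erase
import Pool.Agent.helper55.FP.Meas

/-!
# Lace expansion, part L1, module CutLoc: measurability and locality
-/

set_option autoImplicit false

open MeasureTheory Set
open scoped ENNReal

namespace Pool.Agent.helper55.FP.L1

variable {d : ℕ}

/-- reduce to `Ev p {K | K ∈ cw W a b ∧ Disjoint ↑K S}` with `conn_iff_wit` -/
theorem measurableSet_conn_diff (p : ℝ) (S : Set (E d)) (W : Set (V d)) (a b : V d) :
    MeasurableSet {U : Cfg d | Conn (op p U \ S) W a b} := by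
  have h : {U : Cfg d | Conn (op p U \ S) W a b} =
      Ev p {K : Finset (E d) | K ∈ cw W a b ∧ ∀ e ∈ K, e ∉ S} := by
    ext U
    rw [mem_ofPred_eq, conn_iff_wit]
    constructor
    · rintro ⟨K, hK, hKO⟩
      exact ⟨K, ⟨hK, fun e he => (hKO he).2⟩, fun e he => (hKO he).1⟩
    · rintro ⟨K, ⟨hK, hKS⟩, hKO⟩
      exact ⟨K, hK, fun e he => ⟨hKO e he, hKS e he⟩⟩
  rw [h]
  exact measurableSet_Ev p _

theorem measurableSet_thr_diff (p : ℝ) (S : Set (E d)) (A : Set (V d)) (v x : V d) :
    MeasurableSet {U : Cfg d | Thr (op p U \ S) A v x} :=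
  (measurableSet_conn_diff p S univ v x).inter (measurableSet_conn_diff p S Aᶜ v x).compl

theorem measurableSet_piv_diff (p : ℝ) (S : Set (E d)) (e : E d) (a b v x : V d) :
    MeasurableSet {U : Cfg d | Piv (op p U \ S) e a b v x} := by
  by_cases hS : e ∈ S
  · have h : {U : Cfg d | Piv (op p U \ S) e a b v x} = ∅ := by
      ext U
      simp only [mem_ofPred_eq, mem_empty_iff_false, iff_false]
      intro h
      exact h.mem.2 hS
    rw [h]
    exact MeasurableSet.empty
  by_cases hj : Joins e a b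
  · have h : {U : Cfg d | Piv (op p U \ S) e a b v x} =
        {U : Cfg d | U e ≤ p} ∩ ({U : Cfg d | Conn (op p U \ (S ∪ {e})) univ v a} ∩
          ({U : Cfg d | Conn (op p U \ (S ∪ {e})) univ b x} ∩
            {U : Cfg d | Conn (op p U \ (S ∪ {e})) univ v x}ᶜ)) := by
      ext U
      constructor
      · intro h
        refine ⟨h.mem.1, ?_, ?_, ?_⟩
        · have h1 := h.left
          rw [sdiff_sdiff] at h1
          exact h1
        · have h1 := h.right
          rw [sdiff_sdiff] at h1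
          exact h1
        · have h1 := h.cut
          rw [sdiff_sdiff] at h1
          exact h1
      · rintro ⟨h1, h2, h3, h4⟩
        refine ⟨⟨h1, hS⟩, hj, ?_, ?_, ?_⟩
        · rw [sdiff_sdiff]
          exact h2
        · rw [sdiff_sdiff]
          exact h3
        · rw [sdiff_sdiff]
          exact h4
    rw [h]
    exact (measurableSet_le (measurable_pi_apply e) measurable_const).inter
      ((measurableSet_conn_diff p _ univ v a).inter
        ((measurableSet_conn_diff p _ univ b x).inter (measurableSet_conn_diff p _ univ v x).compl))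
  · have h : {U : Cfg d | Piv (op p U \ S) e a b v x} = ∅ := by
      ext U
      simp only [mem_ofPred_eq, mem_empty_iff_false, iff_false]
      intro h
      exact hj h.joins
    rw [h]
    exact MeasurableSet.empty

theorem measurableSet_cut_diff (p : ℝ) (S : Set (E d)) (A : Set (V d)) (v x : V d) :
    MeasurableSet {U : Cfg d | Cut (op p U \ S) A v x} := by
  have h : {U : Cfg d | Cut (op p U \ S) A v x} =
      {U : Cfg d | Thr (op p U \ S) A v x} ∩ ⋂ e : E d, ⋂ a : V d, ⋂ b : V d,
        ({U : Cfg d | Piv (op p U \ S) e a b v x}ᶜ ∪ {U : Cfg d | Thr (op p U \ S) A v a}ᶜ) := by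
    ext U
    simp only [mem_inter_iff, mem_ofPred_eq, mem_iInter, mem_union, mem_compl_iff]
    unfold Cut
    refine and_congr_right fun _ => ?_
    refine forall_congr' fun e => forall_congr' fun a => forall_congr' fun b => ?_
    exact imp_iff_not_or
  rw [h]
  refine (measurableSet_thr_diff p S A v x).inter ?_
  exact MeasurableSet.iInter fun e => MeasurableSet.iInter fun a => MeasurableSet.iInter fun b =>
    (measurableSet_piv_diff p S e a b v x).compl.union (measurableSet_thr_diff p S A v a).compl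

theorem measurableSet_cl_diff_eq (p : ℝ) (S : Set (E d)) (v : V d) (D : Set (V d)) :
    MeasurableSet {U : Cfg d | Cl (op p U \ S) univ v = D} := by
  classical
  have h : {U : Cfg d | Cl (op p U \ S) univ v = D} =
      ⋂ b : V d, {U : Cfg d | Conn (op p U \ S) univ v b ↔ b ∈ D} := by
    ext U
    simp only [mem_ofPred_eq, mem_iInter]
    exact Set.ext_iff
  rw [h]
  refine MeasurableSet.iInter fun b => ?_
  by_cases hb : b ∈ D
  · have : {U : Cfg d | Conn (op p U \ S) univ v b ↔ b ∈ D} =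
        {U : Cfg d | Conn (op p U \ S) univ v b} := by
      ext U; simp [hb]
    rw [this]
    exact measurableSet_conn_diff p S univ v b
  · have : {U : Cfg d | Conn (op p U \ S) univ v b ↔ b ∈ D} =
        {U : Cfg d | Conn (op p U \ S) univ v b}ᶜ := by
      ext U; simp [hb]
    rw [this]
    exact (measurableSet_conn_diff p S univ v b).compl

/-- `D` is closed under the steps of `O` -/
def CutLocClosed (O : Set (E d)) (D : Set (V d)) : Prop :=
  ∀ x y, x ∈ D → Step O univ x y → y ∈ D

theorem CutLoc_touch {f : E d} {x y : V d} {D : Set (V d)} (hj : Joins f x y) (hx : x ∈ D) :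
    f ∈ touch D := by
  rcases hj with ⟨h1, h2⟩ | ⟨h1, h2⟩
  · exact Or.inl (h1 ▸ hx)
  · exact Or.inr (h2 ▸ hx)

theorem CutLoc_closed_cl (O : Set (E d)) (v : V d) : CutLocClosed O (Cl O univ v) :=
  fun _ _ hx hs => Conn.snoc hx hs

theorem CutLoc_closed_congr {O O' : Set (E d)} {D : Set (V d)}
    (hOO : ∀ f ∈ touch D, f ∈ O ↔ f ∈ O') (hD : CutLocClosed O D) : CutLocClosed O' D := by
  rintro x y hx ⟨h1, h2, f, hf, hj⟩
  exact hD x y hx ⟨h1, h2, f, (hOO f (CutLoc_touch hj hx)).2 hf, hj⟩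

theorem CutLoc_conn_mem {O : Set (E d)} {D : Set (V d)} (hD : CutLocClosed O D) {S : Set (E d)}
    {W : Set (V d)} {z y : V d} (hz : z ∈ D) (h : Conn (O \ S) W z y) : y ∈ D := by
  obtain ⟨-, hr⟩ := h
  induction hr with
  | refl => exact hz
  | tail _ hs ih =>
    obtain ⟨h1, h2, f, hf, hj⟩ := hs
    exact hD _ _ ih ⟨mem_univ _, mem_univ _, f, hf.1, hj⟩

/-- connections starting in `D` only use edges touching `D` -/
theorem CutLoc_conn {O O' : Set (E d)} {D : Set (V d)} (hOO : ∀ f ∈ touch D, f ∈ O ↔ f ∈ O')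
    (hD : CutLocClosed O D) {S : Set (E d)} {W : Set (V d)} {z y : V d} (hz : z ∈ D)
    (h : Conn (O \ S) W z y) : Conn (O' \ S) W z y := by
  obtain ⟨hzW, hr⟩ := h
  have key : y ∈ D ∧ Conn (O' \ S) W z y := by
    induction hr with
    | refl => exact ⟨hz, Conn.refl hzW⟩
    | tail _ hs ih =>
      obtain ⟨ih1, ih2⟩ := ih
      obtain ⟨h1, h2, f, hf, hj⟩ := hs
      refine ⟨hD _ _ ih1 ⟨mem_univ _, mem_univ _, f, hf.1, hj⟩, ih2.snoc ⟨h1, h2, f, ?_, hj⟩⟩
      exact ⟨(hOO f (CutLoc_touch hj ih1)).1 hf.1, hf.2⟩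
  exact key.2

theorem CutLoc_conn' {O O' : Set (E d)} {D : Set (V d)} (hOO : ∀ f ∈ touch D, f ∈ O ↔ f ∈ O')
    (hD : CutLocClosed O D) {W : Set (V d)} {z y : V d} (hz : z ∈ D)
    (h : Conn O W z y) : Conn O' W z y := by
  rw [← sdiff_empty (s := O)] at h
  rw [← sdiff_empty (s := O')]
  exact CutLoc_conn hOO hD hz h

theorem CutLoc_piv {O O' : Set (E d)} {D : Set (V d)} (hOO : ∀ f ∈ touch D, f ∈ O ↔ f ∈ O')
    (hD : CutLocClosed O D) {f : E d} {a b v x : V d} (hv : v ∈ D)
    (h : Piv O f a b v x) : Piv O' f a b v x := by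
  have ha : a ∈ D := CutLoc_conn_mem hD hv h.left
  have hb : b ∈ D := hD a b ha ⟨mem_univ _, mem_univ _, f, h.mem, h.joins⟩
  have hD' := CutLoc_closed_congr hOO hD
  refine ⟨(hOO f (CutLoc_touch h.joins ha)).1 h.mem, h.joins, CutLoc_conn hOO hD hv h.left,
    CutLoc_conn hOO hD hb h.right, ?_⟩
  intro h1
  exact h.cut (CutLoc_conn (fun f hf => (hOO f hf).symm) hD' hv h1)

theorem CutLoc_thr {O O' : Set (E d)} {D : Set (V d)} (hOO : ∀ f ∈ touch D, f ∈ O ↔ f ∈ O')
    (hD : CutLocClosed O D) {A : Set (V d)} {v x : V d} (hv : v ∈ D)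
    (h : Thr O A v x) : Thr O' A v x := by
  have hD' := CutLoc_closed_congr hOO hD
  refine ⟨CutLoc_conn' hOO hD hv h.1, ?_⟩
  intro h1
  exact h.2 (CutLoc_conn' (fun f hf => (hOO f hf).symm) hD' hv h1)

theorem CutLoc_cut {O O' : Set (E d)} {D : Set (V d)} (hOO : ∀ f ∈ touch D, f ∈ O ↔ f ∈ O')
    (hD : CutLocClosed O D) {A : Set (V d)} {v x : V d} (hv : v ∈ D)
    (h : Cut O A v x) : Cut O' A v x := by
  have hD' := CutLoc_closed_congr hOO hD
  have hOO' : ∀ f ∈ touch D, f ∈ O' ↔ f ∈ O := fun f hf => (hOO f hf).symm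
  refine ⟨CutLoc_thr hOO hD hv h.1, ?_⟩
  intro e a b hp ht
  exact h.2 e a b (CutLoc_piv hOO' hD' hv hp) (CutLoc_thr hOO' hD' hv ht)

/-- if the cluster of `v` (without `e`) is `D`, everything about it is determined by the edges
touching `D`, except `e`.  (If `Cl O univ v = D` then `Conn O W v y ↔ Conn (O ∩ touch D) W v y`, the
same for `Conn O W b y` with `b ∈ D`, and `Piv O e' a' b' v a ↔ Piv (O ∩ touch D) e' a' b' v a`.) -/
theorem dependsOn_cut (p : ℝ) (e : E d) (A D : Set (V d)) (v a : V d) :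
    DependsOn (fun U : Cfg d => Cut (op p U \ {e}) A v a ∧ Cl (op p U \ {e}) univ v = D)
      (touch D \ {e}) := by
  have key : ∀ U U' : Cfg d, (∀ f ∈ touch D \ {e}, U f = U' f) →
      (Cut (op p U \ {e}) A v a ∧ Cl (op p U \ {e}) univ v = D) →
      (Cut (op p U' \ {e}) A v a ∧ Cl (op p U' \ {e}) univ v = D) := by
    rintro U U' h ⟨h1, h2⟩
    have hOO : ∀ f ∈ touch D, f ∈ op p U \ {e} ↔ f ∈ op p U' \ {e} := by
      intro f hf
      by_cases hfe : f = e
      · simp [hfe]
      · have h3 : U f = U' f := h f ⟨hf, hfe⟩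
        constructor
        · rintro ⟨h4, h5⟩
          exact ⟨show U' f ≤ p from h3 ▸ h4, h5⟩
        · rintro ⟨h4, h5⟩
          exact ⟨show U f ≤ p from h3 ▸ h4, h5⟩
    have hD : CutLocClosed (op p U \ {e}) D := by
      rw [← h2]
      exact CutLoc_closed_cl _ _
    have hD' := CutLoc_closed_congr hOO hD
    have hv : v ∈ D := by
      rw [← h2]
      exact Conn.refl (mem_univ _)
    refine ⟨CutLoc_cut hOO hD hv h1, ?_⟩
    apply Subset.antisymm
    · intro y hy
      have hy' : Conn ((op p U' \ {e}) \ ∅) univ v y := by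
        rw [sdiff_empty]
        exact hy
      exact CutLoc_conn_mem hD' hv hy'
    · intro y hy
      rw [← h2] at hy
      exact CutLoc_conn' hOO hD hv hy
  intro U U' h
  exact propext ⟨key U U' h, key U' U (fun f hf => (h f hf).symm)⟩

end Pool.Agent.helper55.FP.L1
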