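import Pool.Agent.helper85.L1.Dangle
import Pool.Agent.helper85.L1.CutLoc
import Pool.Agent.helper55.FP.Indep
import Pool.Agent.helper28.FPS.A

/-!
# Lace expansion, part L1, module CutProb: independence
-/

set_option autoImplicit false

open MeasureTheory Set
open scoped ENNReal

namespace Pool.Agent.helper55.FP.L1

variable {d : ℕ}

theorem P_open {p : ℝ} (hp : 0 ≤ p) (hp1 : p ≤ 1) (e : E d) :
    P d {U : Cfg d | e ∈ op p U} = ENNReal.ofReal p := by
  have h : (P d).real {U : Cfg d | e ∈ op p U} = p := Pool.Agent.helper28.FPS.prob_le e hp hp1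
  rw [← ofReal_measureReal (measure_ne_top _ _), h]

theorem CutProb_inter {A B : Set (Cfg d)} {S T : Set (E d)} (hA : MeasurableSet A)
    (hB : MeasurableSet B) (hAS : DependsOn (fun U => U ∈ A) S)
    (hBT : DependsOn (fun U => U ∈ B) T) (hST : Disjoint S T) :
    P d (A ∩ B) = P d A * P d B := by
  rw [← ofReal_measureReal (measure_ne_top _ _), prob_inter hA hB hAS hBT hST,
    ENNReal.ofReal_mul measureReal_nonneg, ofReal_measureReal (measure_ne_top _ _),
    ofReal_measureReal (measure_ne_top _ _)]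

/-- `prob_inter` in `[0,∞]`, for three events -/
theorem prob_inter3 {A B C : Set (Cfg d)} {R S T : Set (E d)} (hA : MeasurableSet A)
    (hB : MeasurableSet B) (hC : MeasurableSet C) (hAR : DependsOn (fun U => U ∈ A) R)
    (hBS : DependsOn (fun U => U ∈ B) S) (hCT : DependsOn (fun U => U ∈ C) T)
    (hRS : Disjoint R S) (hRT : Disjoint R T) (hST : Disjoint S T) :
    P d (A ∩ B ∩ C) = P d A * P d B * P d C := by
  have hdep : DependsOn (fun U : Cfg d => U ∈ A ∩ B) (R ∪ S) := by
    intro U U' h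
    have h1 : (U ∈ A) = (U' ∈ A) := hAR fun i hi => h i (Or.inl hi)
    have h2 : (U ∈ B) = (U' ∈ B) := hBS fun i hi => h i (Or.inr hi)
    show (U ∈ A ∧ U ∈ B) = (U' ∈ A ∧ U' ∈ B)
    rw [h1, h2]
  rw [CutProb_inter (hA.inter hB) hC hdep hCT (Set.disjoint_union_left.2 ⟨hRT, hST⟩),
    CutProb_inter hA hB hAR hBS hRS]

/-- independence: the edges touching `D` except `c.1`, the edge `c.1`, the edges inside `Dᶜ`.
If `tgt c ∈ D` both sides vanish, if `tgt c ∉ D` use `cut_erase`; if `src c ∉ D` both sides vanish. -/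
theorem prob_cut_piv {p : ℝ} (hp : 0 ≤ p) (hp1 : p ≤ 1) (A : Set (V d)) (v x : V d) (c : DE d)
    (D : Set (V d)) :
    P d {U | (Cut (op p U) A v (src c) ∧ Piv (op p U) c.1 (src c) (tgt c) v x) ∧
      Cl (op p U \ {c.1}) univ v = D} =
      wt p A v c D * (ENNReal.ofReal p * P d {U | Conn (op p U) Dᶜ (tgt c) x}) := by
  by_cases ht : tgt c ∈ D
  · have h1 : {U : Cfg d | (Cut (op p U) A v (src c) ∧ Piv (op p U) c.1 (src c) (tgt c) v x) ∧
        Cl (op p U \ {c.1}) univ v = D} = ∅ := by
      ext U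
      simp only [mem_ofPred_eq, mem_empty_iff_false, iff_false]
      rintro ⟨⟨_, h2⟩, h3⟩
      rw [← h3] at ht
      exact h2.cut (Conn.trans ht h2.right)
    have h2 : {U : Cfg d | Conn (op p U) Dᶜ (tgt c) x} = ∅ := by
      ext U
      simp only [mem_ofPred_eq, mem_empty_iff_false, iff_false]
      intro h
      exact h.left ht
    rw [h1, h2]
    simp
  by_cases hs : src c ∈ D
  · have hLHS : {U : Cfg d | (Cut (op p U) A v (src c) ∧ Piv (op p U) c.1 (src c) (tgt c) v x) ∧
        Cl (op p U \ {c.1}) univ v = D} =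
        ({U : Cfg d | Cut (op p U \ {c.1}) A v (src c) ∧ Cl (op p U \ {c.1}) univ v = D} ∩
          {U : Cfg d | c.1 ∈ op p U}) ∩ {U : Cfg d | Conn (op p U) Dᶜ (tgt c) x} := by
      ext U
      simp only [mem_ofPred_eq, mem_inter_iff]
      rw [cut_piv_iff]
      constructor
      · rintro ⟨⟨h1, h2, h3⟩, h4⟩
        rw [h4] at h3
        exact ⟨⟨⟨h2, h4⟩, h1⟩, h3⟩
      · rintro ⟨⟨⟨h2, h4⟩, h1⟩, h3⟩
        rw [h4]
        exact ⟨⟨h1, h2, h3⟩, rfl⟩
    have hwt : wt p A v c D =
        P d {U : Cfg d | Cut (op p U \ {c.1}) A v (src c) ∧ Cl (op p U \ {c.1}) univ v = D} := by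
      unfold wt
      congr 1
      ext U
      simp only [mem_ofPred_eq]
      constructor
      · rintro ⟨h1, h2⟩
        refine ⟨(cut_erase ?_).1 h1, h2⟩
        rw [h2]
        exact ht
      · rintro ⟨h1, h2⟩
        refine ⟨(cut_erase ?_).2 h1, h2⟩
        rw [h2]
        exact ht
    have hdis : Disjoint (touch D) (inner Dᶜ) := by
      rw [Set.disjoint_left]
      rintro e (h | h) ⟨h2, h3⟩
      · exact h2 h
      · exact h3 h
    have hopen : DependsOn (fun U : Cfg d => U ∈ {U : Cfg d | c.1 ∈ op p U}) {c.1} := by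
      intro U U' h
      have h1 : U c.1 = U' c.1 := h c.1 rfl
      show (U c.1 ≤ p) = (U' c.1 ≤ p)
      rw [h1]
    have hmA : MeasurableSet {U : Cfg d | Cut (op p U \ {c.1}) A v (src c) ∧
        Cl (op p U \ {c.1}) univ v = D} :=
      (measurableSet_cut_diff p {c.1} A v (src c)).inter (measurableSet_cl_diff_eq p {c.1} v D)
    have hmB : MeasurableSet {U : Cfg d | c.1 ∈ op p U} :=
      measurableSet_le (measurable_pi_apply c.1) measurable_const
    have hd3 : Disjoint ({c.1} : Set (E d)) (inner Dᶜ) := by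
      rw [Set.disjoint_singleton_left]
      intro h
      exact Set.disjoint_left.1 hdis (CutLoc_touch (joins_src_tgt c) hs) h
    rw [hLHS, hwt, prob_inter3 hmA hmB (measurableSet_conn p Dᶜ (tgt c) x)
      (dependsOn_cut p c.1 A D v (src c)) hopen (dependsOn_conn p Dᶜ (tgt c) x)
      Set.disjoint_sdiff_left (hdis.mono_left sdiff_subset) hd3, P_open hp hp1, mul_assoc]
  · have h1 : {U : Cfg d | (Cut (op p U) A v (src c) ∧ Piv (op p U) c.1 (src c) (tgt c) v x) ∧
        Cl (op p U \ {c.1}) univ v = D} = ∅ := by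
      ext U
      simp only [mem_ofPred_eq, mem_empty_iff_false, iff_false]
      rintro ⟨⟨_, h2⟩, h3⟩
      apply hs
      rw [← h3]
      exact h2.left
    have h2 : wt p A v c D = 0 := by
      unfold wt
      have h3 : {U : Cfg d | Cut (op p U) A v (src c) ∧ Cl (op p U \ {c.1}) univ v = D} = ∅ := by
        ext U
        simp only [mem_ofPred_eq, mem_empty_iff_false, iff_false]
        rintro ⟨h4, h5⟩
        have h6 : tgt c ∉ Cl (op p U \ {c.1}) univ v := by
          rw [h5]
          exact ht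
        apply hs
        rw [← h5]
        exact ((cut_erase h6).1 h4).1.1
      rw [h3, measure_empty]
    rw [h1, h2]
    simp

end Pool.Agent.helper55.FP.L1
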