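import Pool.Agent.helper85.L1.Pivot
import Pool.Agent.helper85.L1.CutProb
import Pool.Agent.helper55.FP.Symm

/-!
# Lace expansion, part L1, module Identity: the basic identity of the expansion
-/

set_option autoImplicit false

open MeasureTheory Set
open scoped ENNReal

namespace Pool.Agent.helper55.FP.L1

variable {d : ℕ}

theorem Identity.P_conn (p : ℝ) (a b : V d) :
    P d {U : Cfg d | Conn (op p U) univ a b} = Ge p (b - a) := by
  have h := tauW_univ p a b
  unfold tau tauW at h
  unfold Ge
  exact (measureReal_eq_measureReal_iff (measure_ne_top _ _) (measure_ne_top _ _)).1 h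

theorem Identity.tsum_translate (f : V d → ℝ≥0∞) (v : V d) : ∑' x, f (x - v) = ∑' x, f x :=
  (Equiv.subRight v).tsum_eq f

theorem Identity.meas_thr (p : ℝ) (A : Set (V d)) (v x : V d) :
    MeasurableSet {U : Cfg d | Thr (op p U) A v x} := by
  have h := measurableSet_thr_diff p ∅ A v x
  simpa only [diff_empty] using h

theorem Identity.meas_cut (p : ℝ) (A : Set (V d)) (v x : V d) :
    MeasurableSet {U : Cfg d | Cut (op p U) A v x} := by
  have h := measurableSet_cut_diff p ∅ A v x
  simpa only [diff_empty] using h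

theorem Identity.meas_piv (p : ℝ) (e : E d) (a b v x : V d) :
    MeasurableSet {U : Cfg d | Piv (op p U) e a b v x} := by
  have h := measurableSet_piv_diff p ∅ e a b v x
  simpa only [diff_empty] using h

/-- finite susceptibility: all clusters are finite (first moment of the size of the cluster) -/
theorem finCl_of_sum {p : ℝ} (h : ∑' x : V d, Ge p x ≠ ⊤) : FinCl d p := by
  unfold FinCl
  rw [ae_all_iff]
  intro v
  have h1 : ∑' x : V d, P d {U : Cfg d | Conn (op p U) univ v x} ≠ ⊤ := by
    simp only [Identity.P_conn]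
    rw [Identity.tsum_translate]
    exact h
  filter_upwards [ae_finite_setOf_mem h1] with U hU
  exact hU

/-- summation over the values of an almost surely finite cluster -/
theorem Identity.sum_cl {p : ℝ} (hfin : FinCl d p) (v : V d) (e : E d) {S : Set (Cfg d)}
    (hS : MeasurableSet S) :
    ∑' D : Finset (V d), P d {U | U ∈ S ∧ Cl (op p U \ {e}) univ v = ↑D} = P d S := by
  have hm : ∀ D : Finset (V d), MeasurableSet {U | U ∈ S ∧ Cl (op p U \ {e}) univ v = ↑D} :=
    fun D => hS.inter (measurableSet_cl_diff_eq p {e} v ↑D)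
  have hd : Pairwise (Function.onFun Disjoint
      (fun D : Finset (V d) => {U : Cfg d | U ∈ S ∧ Cl (op p U \ {e}) univ v = ↑D})) := by
    intro D D' hne
    refine Set.disjoint_left.2 fun U hU hU' => hne ?_
    exact Finset.coe_injective (hU.2.symm.trans hU'.2)
  rw [← measure_iUnion hd hm]
  refine measure_congr ?_
  filter_upwards [hfin] with U hU
  have hf : (Cl (op p U \ {e}) univ v).Finite :=
    (hU v).subset fun y hy => Conn.mono diff_subset subset_rfl hy
  refine propext ⟨fun h => ?_, fun h => ?_⟩
  · obtain ⟨D, hD⟩ := mem_iUnion.1 h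
    exact hD.1
  · refine mem_iUnion.2 ⟨hf.toFinset, h, ?_⟩
    rw [Set.Finite.coe_toFinset]

/-- partition according to the (almost surely finite) cluster `C̃(v)` -/
theorem sum_wt {p : ℝ} (hfin : FinCl d p) (A : Set (V d)) (v : V d) (c : DE d) :
    ∑' D : Finset (V d), wt p A v c ↑D = ce p A v (src c) :=
  Identity.sum_cl hfin v c.1 (Identity.meas_cut p A v (src c))

theorem conn_split (p : ℝ) (D : Set (V d)) (b x : V d) :
    P d {U | Conn (op p U) Dᶜ b x} + Le p D b x = Ge p (x - b) := by
  rw [← Identity.P_conn]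
  unfold Le
  rw [← measure_union _ (Identity.meas_thr p D b x)]
  · congr 1
    ext U
    simp only [mem_union, mem_setOf_eq, Thr]
    constructor
    · rintro (h | h)
      · exact h.mono subset_rfl (subset_univ _)
      · exact h.1
    · intro h
      by_cases h1 : Conn (op p U) Dᶜ b x
      · exact Or.inl h1
      · exact Or.inr ⟨h, h1⟩
  · exact Set.disjoint_left.2 fun U hU hU' => hU'.2 hU

theorem Identity.le_eq {p : ℝ} (hfin : FinCl d p) (A : Set (V d)) (v x : V d) :
    Le p A v x = ce p A v x + ∑' c : DE d,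
      P d {U | Cut (op p U) A v (src c) ∧ Piv (op p U) c.1 (src c) (tgt c) v x} := by
  have hm : ∀ c : DE d, MeasurableSet
      {U : Cfg d | Cut (op p U) A v (src c) ∧ Piv (op p U) c.1 (src c) (tgt c) v x} :=
    fun c => (Identity.meas_cut p A v (src c)).inter
      (Identity.meas_piv p c.1 (src c) (tgt c) v x)
  have hd : Pairwise (Function.onFun Disjoint (fun c : DE d =>
      {U : Cfg d | Cut (op p U) A v (src c) ∧ Piv (op p U) c.1 (src c) (tgt c) v x})) := by
    intro c c' hne
    refine Set.disjoint_left.2 fun U hU hU' => hne ?_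
    exact cut_piv_unique hU.1 hU.2 hU'.1 hU'.2
  rw [← measure_iUnion hd hm]
  unfold ce Le
  rw [← measure_union _ (MeasurableSet.iUnion hm)]
  · refine measure_congr ?_
    filter_upwards [hfin] with U hU
    refine propext ⟨fun h => ?_, fun h => ?_⟩
    · by_cases hc : Cut (op p U) A v x
      · exact Or.inl hc
      · obtain ⟨c, h1, h2⟩ := cut_decomp (hU v) h hc
        exact Or.inr (mem_iUnion.2 ⟨c, h1, h2⟩)
    · rcases h with h | h
      · exact h.1
      · obtain ⟨c, h1, h2⟩ := mem_iUnion.1 h
        exact (cut_piv_thr h1 h2).1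
  · refine Set.disjoint_left.2 fun U hU hU' => ?_
    obtain ⟨c, h1, h2⟩ := mem_iUnion.1 hU'
    exact (cut_piv_thr h1 h2).2 hU

/-- `P(v ↔^A x) = P(E'(v,x;A)) + ∑_c P(E'(v, src c;A), c pivotal for v → x)` (almost surely finite
clusters, `cut_decomp`, `cut_piv_thr`, `cut_piv_unique`), each term is a sum over the possible
`C̃(v) = D`, `prob_cut_piv`; then `conn_split` and `sum_wt`, `tsum_DE_conv` -/
theorem thr_identity {p : ℝ} (hp : 0 ≤ p) (hp1 : p ≤ 1) (hfin : FinCl d p) (A : Set (V d))
    (v x : V d) :
    Le p A v x + Top p (Le p) A v x = ce p A v x + cE (ce p A v) (Ke p) x := by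
  have h1 : ∀ c : DE d,
      P d {U | Cut (op p U) A v (src c) ∧ Piv (op p U) c.1 (src c) (tgt c) v x} =
        ENNReal.ofReal p * ∑' D : Finset (V d), wt p A v c ↑D *
          P d {U | Conn (op p U) (↑D : Set (V d))ᶜ (tgt c) x} := by
    intro c
    have h2 := Identity.sum_cl hfin v c.1 ((Identity.meas_cut p A v (src c)).inter
      (Identity.meas_piv p c.1 (src c) (tgt c) v x))
    refine h2.symm.trans ?_
    rw [← ENNReal.tsum_mul_left]
    refine tsum_congr fun D => ?_
    refine (prob_cut_piv hp hp1 A v x c ↑D).trans ?_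
    ring
  rw [Identity.le_eq hfin, add_assoc, ← tsum_DE_conv]
  congr 1
  unfold Top
  rw [← ENNReal.tsum_add]
  refine tsum_congr fun c => ?_
  rw [h1 c, ← mul_add, ← ENNReal.tsum_add]
  congr 1
  rw [← sum_wt hfin A v c, ← ENNReal.tsum_mul_right]
  refine tsum_congr fun D => ?_
  rw [← mul_add, conn_split]

end Pool.Agent.helper55.FP.L1
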