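import Pool.Agent.helper85.L1.Erase

/-!
# Lace expansion, part L1, module Iter: iteration of the identity
-/

set_option autoImplicit false

open MeasureTheory Set
open scoped ENNReal

namespace Pool.Agent.helper55.FP.L1

variable {d : ℕ}

theorem Top_add (p : ℝ) (F G : Set (V d) → V d → V d → ℝ≥0∞) (A : Set (V d)) (v x : V d) :
    Top p (fun A v x => F A v x + G A v x) A v x = Top p F A v x + Top p G A v x := by
  unfold Top
  rw [← ENNReal.tsum_add]
  refine tsum_congr (fun c => ?_)
  rw [← mul_add, ← ENNReal.tsum_add]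
  congr 1
  refine tsum_congr (fun D => ?_)
  rw [mul_add]

theorem Top_conv (p : ℝ) (F : Set (V d) → V d → V d → ℝ≥0∞) (k : V d → ℝ≥0∞) (A : Set (V d))
    (v x : V d) : Top p (fun A v x => cE (F A v) k x) A v x = cE (Top p F A v) k x := by
  unfold Top cE
  have h1 : ∀ c : DE d, ENNReal.ofReal p * ∑' D : Finset (V d), wt p A v c ↑D *
      ∑' y, F ↑D (tgt c) y * k (x - y) =
      ∑' y, ENNReal.ofReal p * (∑' D : Finset (V d), wt p A v c ↑D * F ↑D (tgt c) y) *
        k (x - y) := by
    intro c
    calc ENNReal.ofReal p * ∑' D : Finset (V d), wt p A v c ↑D *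
          ∑' y, F ↑D (tgt c) y * k (x - y)
        = ENNReal.ofReal p * ∑' D : Finset (V d), ∑' y,
            wt p A v c ↑D * F ↑D (tgt c) y * k (x - y) := by
          congr 1
          refine tsum_congr (fun D => ?_)
          rw [← ENNReal.tsum_mul_left]
          exact tsum_congr (fun y => by rw [mul_assoc])
      _ = ENNReal.ofReal p * ∑' y, ∑' D : Finset (V d),
            wt p A v c ↑D * F ↑D (tgt c) y * k (x - y) := by
          rw [ENNReal.tsum_comm]
      _ = ∑' y, ENNReal.ofReal p * (∑' D : Finset (V d), wt p A v c ↑D * F ↑D (tgt c) y) *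
            k (x - y) := by
          rw [← ENNReal.tsum_mul_left]
          refine tsum_congr (fun y => ?_)
          rw [ENNReal.tsum_mul_right, mul_assoc]
  rw [tsum_congr h1, ENNReal.tsum_comm]
  refine tsum_congr (fun y => ?_)
  rw [ENNReal.tsum_mul_right]

theorem LN_zero (p : ℝ) (x : V d) : LN p 0 x = Ge p x := by
  unfold LN Ge
  simp only [Function.iterate_zero, id_eq, Le]
  congr 1
  ext U
  simp only [mem_ofPred_eq, Thr]
  refine ⟨fun h => h.1, fun h => ⟨h, fun h' => ?_⟩⟩
  exact h'.left rfl

theorem Iter_iter_add (p : ℝ) (n : ℕ) (F G : Set (V d) → V d → V d → ℝ≥0∞) (A : Set (V d))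
    (v x : V d) : (Top p)^[n] (fun A v x => F A v x + G A v x) A v x =
      (Top p)^[n] F A v x + (Top p)^[n] G A v x := by
  induction n generalizing F G with
  | zero => rfl
  | succ n ih =>
    rw [Function.iterate_succ_apply, Function.iterate_succ_apply, Function.iterate_succ_apply,
      ← ih]
    have h : Top p (fun A v x => F A v x + G A v x) = fun A v x => Top p F A v x + Top p G A v x := by
      funext A v x
      exact Top_add p F G A v x
    rw [h]

theorem Iter_iter_conv (p : ℝ) (n : ℕ) (F : Set (V d) → V d → V d → ℝ≥0∞) (k : V d → ℝ≥0∞)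
    (A : Set (V d)) (v x : V d) : (Top p)^[n] (fun A v x => cE (F A v) k x) A v x =
      cE ((Top p)^[n] F A v) k x := by
  induction n generalizing F with
  | zero => rfl
  | succ n ih =>
    rw [Function.iterate_succ_apply, Function.iterate_succ_apply, ← ih]
    have h : Top p (fun A v x => cE (F A v) k x) = fun A v x => cE (Top p F A v) k x := by
      funext A v x
      exact Top_conv p F k A v x
    rw [h]

/-- the telescoping identity -/
theorem tele {p : ℝ} (h : ∀ (A : Set (V d)) (v x : V d),
      Le p A v x + Top p (Le p) A v x = ce p A v x + cE (ce p A v) (Ke p) x) (n : ℕ) (x : V d) :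
    LN p n x + LN p (n + 1) x = PN p n x + cE (PN p n) (Ke p) x := by
  have h1 : (fun (A : Set (V d)) (v x : V d) => Le p A v x + Top p (Le p) A v x) =
      fun A v x => ce p A v x + cE (ce p A v) (Ke p) x := by
    funext A v x
    exact h A v x
  calc LN p n x + LN p (n + 1) x
      = (Top p)^[n] (fun A v x => Le p A v x + Top p (Le p) A v x) {0} 0 x := by
        rw [Iter_iter_add]
        rfl
    _ = (Top p)^[n] (fun A v x => ce p A v x + cE (ce p A v) (Ke p) x) {0} 0 x := by rw [h1]
    _ = PN p n x + cE (PN p n) (Ke p) x := by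
        rw [Iter_iter_add, Iter_iter_conv]
        rfl

/-- `E'(0,0;{0})` always occurs -/
theorem PN_zero_zero (p : ℝ) : PN p 0 (0 : V d) = 1 := by
  unfold PN
  simp only [Function.iterate_zero, id_eq, ce]
  have h1 : {U : Cfg d | Cut (op p U) {0} 0 0} = univ := by
    ext U
    simp only [mem_ofPred_eq, mem_univ, iff_true, Cut, Thr]
    refine ⟨⟨Conn.refl (mem_univ _), fun h' => h'.left rfl⟩, ?_⟩
    intro e a b hp
    exact absurd (Conn.refl (mem_univ _)) hp.cut
  rw [h1]
  exact measure_univ

end Pool.Agent.helper55.FP.L1
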