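import Pool.Agent.helper85.L1.Defs1

/-!
# Lace expansion, part L1, module ConvE: convolutions with values in `[0,∞]`
-/

set_option autoImplicit false

open MeasureTheory Set
open scoped ENNReal

namespace Pool.Agent.helper55.FP.L1

variable {d : ℕ}

theorem tsum_sub_right (f : V d → ℝ≥0∞) (a : V d) : ∑' x, f (x - a) = ∑' x, f x :=
  (Equiv.subRight a).tsum_eq f

theorem tsum_sub_left (f : V d → ℝ≥0∞) (a : V d) : ∑' x, f (a - x) = ∑' x, f x :=
  (Equiv.subLeft a).tsum_eq f

theorem cE_comm (f g : V d → ℝ≥0∞) : cE f g = cE g f := by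
  funext x
  unfold cE
  rw [← tsum_sub_left (fun y => g y * f (x - y)) x]
  refine tsum_congr fun y => ?_
  simp only [sub_sub_cancel]
  exact mul_comm _ _

theorem cE_assoc (f g h : V d → ℝ≥0∞) : cE (cE f g) h = cE f (cE g h) := by
  funext x
  unfold cE
  calc ∑' y, (∑' z, f z * g (y - z)) * h (x - y)
      = ∑' y, ∑' z, f z * (g (y - z) * h (x - y)) := by
        refine tsum_congr fun y => ?_
        rw [← ENNReal.tsum_mul_right]
        refine tsum_congr fun z => ?_
        rw [mul_assoc]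
    _ = ∑' z, ∑' y, f z * (g (y - z) * h (x - y)) := ENNReal.tsum_comm
    _ = ∑' z, f z * ∑' y, g y * h (x - z - y) := by
        refine tsum_congr fun z => ?_
        rw [ENNReal.tsum_mul_left]
        congr 1
        rw [← tsum_sub_right (fun y => g y * h (x - z - y)) z]
        refine tsum_congr fun y => ?_
        congr 2
        abel

theorem cE_mono {f f' g g' : V d → ℝ≥0∞} (h : ∀ x, f x ≤ f' x) (h' : ∀ x, g x ≤ g' x) (x : V d) :
    cE f g x ≤ cE f' g' x :=
  ENNReal.tsum_le_tsum fun y => mul_le_mul' (h y) (h' _)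

theorem cE_add_left (f g h : V d → ℝ≥0∞) (x : V d) :
    cE (fun y => f y + g y) h x = cE f h x + cE g h x := by
  unfold cE
  rw [← ENNReal.tsum_add]
  exact tsum_congr fun y => add_mul _ _ _

theorem cE_const_left (k : ℝ≥0∞) (f h : V d → ℝ≥0∞) (x : V d) :
    cE (fun y => k * f y) h x = k * cE f h x := by
  unfold cE
  rw [← ENNReal.tsum_mul_left]
  exact tsum_congr fun y => mul_assoc _ _ _

theorem cE_const_right (k : ℝ≥0∞) (f h : V d → ℝ≥0∞) (x : V d) :
    cE f (fun y => k * h y) x = k * cE f h x := by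
  unfold cE
  rw [← ENNReal.tsum_mul_left]
  exact tsum_congr fun y => mul_left_comm _ _ _

theorem diracE_cE (f : V d → ℝ≥0∞) : cE diracE f = f := by
  funext x
  unfold cE diracE
  rw [tsum_eq_single 0]
  · simp
  · intro y hy
    simp [hy]

theorem cE_diracE (f : V d → ℝ≥0∞) : cE f diracE = f := by
  rw [cE_comm, diracE_cE]

theorem tsum_cE (f g : V d → ℝ≥0∞) : ∑' x, cE f g x = (∑' x, f x) * ∑' x, g x := by
  unfold cE
  rw [ENNReal.tsum_comm, ← ENNReal.tsum_mul_right]
  refine tsum_congr fun y => ?_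
  rw [ENNReal.tsum_mul_left, tsum_sub_right]

theorem cE_le_mul {f : V d → ℝ≥0∞} {m : ℝ≥0∞} (hf : ∀ x, f x ≤ m) (g : V d → ℝ≥0∞) (x : V d) :
    cE f g x ≤ m * ∑' y, g y := by
  unfold cE
  rw [← tsum_sub_left g x, ← ENNReal.tsum_mul_left]
  exact ENNReal.tsum_le_tsum fun y => mul_le_mul' (hf y) le_rfl

theorem EvenE.cE {f g : V d → ℝ≥0∞} (hf : EvenE f) (hg : EvenE g) : EvenE (cE f g) := by
  intro x
  unfold L1.cE
  rw [← tsum_sub_left (fun y => f y * g (x - y)) 0]
  refine tsum_congr fun y => ?_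
  rw [zero_sub, hf y, ← hg (-x - y)]
  congr 2
  abel

theorem EvenE.cpowE {f : V d → ℝ≥0∞} (hf : EvenE f) (m : ℕ) : EvenE (cpowE f m) := by
  induction m with
  | zero =>
    intro x
    simp [L1.cpowE, diracE]
  | succ m ih => exact EvenE.cE hf ih

theorem cpowE_one (f : V d → ℝ≥0∞) : cpowE f 1 = f := cE_diracE f

theorem cpowE_add (f : V d → ℝ≥0∞) (m n : ℕ) :
    cE (cpowE f m) (cpowE f n) = cpowE f (m + n) := by
  induction m with
  | zero =>
    rw [Nat.zero_add]
    exact diracE_cE _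
  | succ m ih =>
    rw [Nat.succ_add]
    change cE (cE f (cpowE f m)) (cpowE f n) = cE f (cpowE f (m + n))
    rw [cE_assoc, ih]

/-- value at the origin of the convolution with an even function -/
theorem tsum_mul_even {f g : V d → ℝ≥0∞} (hg : EvenE g) : ∑' x, f x * g x = cE f g 0 := by
  unfold cE
  refine tsum_congr fun y => ?_
  rw [zero_sub, hg y]

end Pool.Agent.helper55.FP.L1
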