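import Pool.Agent.helper85.L1.BKn
import Pool.Agent.helper85.L1.ConvE

/-!
# Lace expansion, part L1, module RealConv: from real convolutions to `[0,∞]`
-/

set_option autoImplicit false

open MeasureTheory Set
open scoped ENNReal

namespace Pool.Agent.helper55.FP.L1

variable {d : ℕ}

theorem ofReal_conv {f g : V d → ℝ} (hf : ∀ x, 0 ≤ f x) (hg : ∀ x, 0 ≤ g x) {x : V d}
    (hs : Summable fun y => f y * g (x - y)) :
    ENNReal.ofReal (conv f g x) = cE (fun y => ENNReal.ofReal (f y)) (fun y => ENNReal.ofReal (g y)) x := by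
  unfold conv cE
  rw [ENNReal.ofReal_tsum_of_nonneg (fun y => mul_nonneg (hf y) (hg _)) hs]
  exact tsum_congr fun y => ENNReal.ofReal_mul (hf y)

/-- sums of products over `ℤ^d` -/
theorem RealConv_tsum_prod (f : ℤ → ℝ≥0∞) (d : ℕ) :
    ∑' x : V d, ∏ i, f (x i) = (∑' n, f n) ^ d := by
  induction d with
  | zero => simp
  | succ d ih =>
    rw [← (Fin.consEquiv (fun _ : Fin (d + 1) => ℤ)).tsum_eq, ENNReal.tsum_prod', pow_succ']
    rw [← ih, ← ENNReal.tsum_mul_right]
    refine tsum_congr fun n => ?_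
    rw [← ENNReal.tsum_mul_left]
    refine tsum_congr fun y => ?_
    rw [Fin.prod_univ_succ]
    simp [Fin.consEquiv]

/-- a nonnegative function with finite `[0,∞]`-valued sum is summable -/
theorem RealConv_summable {α : Type*} {f : α → ℝ} (hf : ∀ x, 0 ≤ f x)
    (h : ∑' x, ENNReal.ofReal (f x) ≠ ⊤) : Summable f := by
  have := ENNReal.summable_toReal h
  refine this.congr fun x => ?_
  rw [ENNReal.toReal_ofReal (hf x)]

/-- `∑_n exp(-c |n|) < ∞` on `ℤ` -/
theorem RealConv_summable_int {c : ℝ} (hc : 0 < c) :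
    Summable fun n : ℤ => Real.exp (-c * |(n : ℝ)|) := by
  have h1 : Summable fun n : ℕ => Real.exp (-c * (n : ℝ)) := by
    have := summable_geometric_of_lt_one (Real.exp_pos (-c)).le
      (Real.exp_lt_one_iff.2 (by linarith : -c < 0))
    refine this.congr fun n => ?_
    rw [← Real.exp_nat_mul]
    congr 1
    ring
  refine Summable.of_nat_of_neg ?_ ?_
  · refine h1.congr fun n => ?_
    simp
  · refine h1.congr fun n => ?_
    simp

/-- `∑_x exp(-c ‖x‖) < ∞` on `ℤ^d` (sup norm) -/
theorem summable_exp {c : ℝ} (hc : 0 < c) : Summable fun x : V d => Real.exp (-c * ‖x‖) := by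
  rcases Nat.eq_zero_or_pos d with rfl | hd
  · exact Summable.of_finite
  have hd' : (0 : ℝ) < d := by exact_mod_cast hd
  have hc' : 0 < c / d := by positivity
  have h1 : Summable fun x : V d => ∏ i, Real.exp (-(c / d) * |((x i : ℤ) : ℝ)|) := by
    refine RealConv_summable (fun x => Finset.prod_nonneg fun i _ => (Real.exp_pos _).le) ?_
    have : ∀ x : V d, ENNReal.ofReal (∏ i, Real.exp (-(c / d) * |((x i : ℤ) : ℝ)|)) =
        ∏ i, ENNReal.ofReal (Real.exp (-(c / d) * |((x i : ℤ) : ℝ)|)) := fun x =>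
      ENNReal.ofReal_prod_of_nonneg fun i _ => (Real.exp_pos _).le
    simp_rw [this]
    rw [RealConv_tsum_prod (fun n : ℤ => ENNReal.ofReal (Real.exp (-(c / d) * |(n : ℝ)|)))]
    exact ENNReal.pow_ne_top (RealConv_summable_int hc').tsum_ofReal_ne_top
  refine Summable.of_nonneg_of_le (fun x => (Real.exp_pos _).le) (fun x => ?_) h1
  rw [← Real.exp_sum]
  apply Real.exp_le_exp.2
  rw [← Finset.mul_sum]
  have h2 : ∑ i : Fin d, |((x i : ℤ) : ℝ)| ≤ ∑ _i : Fin d, ‖x‖ := by
    refine Finset.sum_le_sum fun i _ => ?_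
    have := norm_le_pi_norm x i
    rwa [Int.norm_eq_abs] at this
  rw [Finset.sum_const, Finset.card_univ, Fintype.card_fin, nsmul_eq_mul] at h2
  have h3 : (c / d) * ∑ i : Fin d, |((x i : ℤ) : ℝ)| ≤ c * ‖x‖ := by
    calc (c / d) * ∑ i : Fin d, |((x i : ℤ) : ℝ)| ≤ (c / d) * (d * ‖x‖) :=
          mul_le_mul_of_nonneg_left h2 hc'.le
      _ = c * ‖x‖ := by field_simp
  linarith

theorem RealConv_tau_nonneg (p : ℝ) (x : V d) : 0 ≤ tau p x := by
  unfold tau
  exact measureReal_nonneg

theorem tsum_Ge_ne_top {p : ℝ} (h : ExpDec d p) : ∑' x : V d, Ge p x ≠ ⊤ := by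
  obtain ⟨C, c, hc, hb⟩ := h
  have h1 : Summable fun x : V d => tau p x :=
    Summable.of_nonneg_of_le (RealConv_tau_nonneg p) hb ((summable_exp hc).mul_left C)
  simp_rw [Ge_eq]
  exact h1.tsum_ofReal_ne_top

theorem RealConv_cpow_nonneg (p : ℝ) (m : ℕ) (x : V d) : 0 ≤ cpow (tau p) m x := by
  induction m generalizing x with
  | zero =>
    simp only [cpow, dirac0]
    split_ifs <;> norm_num
  | succ m ih =>
    exact tsum_nonneg fun y => mul_nonneg (RealConv_tau_nonneg p y) (ih _)

theorem RealConv_tsum_cpowE {p : ℝ} (h : ExpDec d p) (m : ℕ) :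
    ∑' x : V d, cpowE (Ge p) m x ≠ ⊤ := by
  induction m with
  | zero =>
    have : ∑' x : V d, (diracE : V d → ℝ≥0∞) x = 1 := by
      rw [tsum_eq_single (0 : V d) (by intro b hb; simp [diracE, hb])]
      simp [diracE]
    change ∑' x : V d, (diracE : V d → ℝ≥0∞) x ≠ ⊤
    rw [this]
    exact ENNReal.one_ne_top
  | succ m ih =>
    change ∑' x : V d, cE (Ge p) (cpowE (Ge p) m) x ≠ ⊤
    rw [tsum_cE]
    exact ENNReal.mul_ne_top (tsum_Ge_ne_top h) ih

/-- all powers: `tau` is summable, so all convolutions converge -/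
theorem cpowE_Ge {p : ℝ} (h : ExpDec d p) (m : ℕ) (x : V d) :
    cpowE (Ge p) m x = ENNReal.ofReal (cpow (tau p) m x) := by
  induction m generalizing x with
  | zero =>
    simp only [cpowE, cpow, diracE, dirac0]
    split_ifs <;> simp
  | succ m ih =>
    have hE : (fun y : V d => ENNReal.ofReal (cpow (tau p) m y)) = cpowE (Ge p) m := by
      funext y
      rw [ih y]
    have hG : (fun y : V d => ENNReal.ofReal (tau p y)) = Ge p := by
      funext y
      rw [Ge_eq]
    have hs : Summable fun y => tau p y * cpow (tau p) m (x - y) := by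
      refine RealConv_summable
        (fun y => mul_nonneg (RealConv_tau_nonneg p y) (RealConv_cpow_nonneg p m _)) ?_
      have h1 : ∑' y, ENNReal.ofReal (tau p y * cpow (tau p) m (x - y)) =
          cpowE (Ge p) (m + 1) x := by
        change _ = cE (Ge p) (cpowE (Ge p) m) x
        unfold cE
        refine tsum_congr fun y => ?_
        rw [ENNReal.ofReal_mul (RealConv_tau_nonneg p y), ih, Ge_eq]
      rw [h1]
      exact ne_top_of_le_ne_top (RealConv_tsum_cpowE h (m + 1)) (ENNReal.le_tsum x)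
    change cE (Ge p) (cpowE (Ge p) m) x = ENNReal.ofReal (conv (tau p) (cpow (tau p) m) x)
    rw [ofReal_conv (RealConv_tau_nonneg p) (RealConv_cpow_nonneg p m) hs, hE, hG]

end Pool.Agent.helper55.FP.L1
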