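import Pool.Agent.helper85.L1.Defs1

/-!
# Lace expansion, part L1, module Erase: removing one edge; directed edges
-/

set_option autoImplicit false

open MeasureTheory Set
open scoped ENNReal

namespace Pool.Agent.helper55.FP.L1

variable {d : ℕ}

theorem Erase_joins_eq {e : E d} {a b c f : V d} (h : Joins e a b) (h' : Joins e c f) :
    (c = a ∧ f = b) ∨ (c = b ∧ f = a) := by
  rcases h with ⟨h1, h2⟩ | ⟨h1, h2⟩ <;> rcases h' with ⟨h3, h4⟩ | ⟨h3, h4⟩
  · exact Or.inl ⟨h3.trans h1.symm, h4.trans h2.symm⟩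
  · exact Or.inr ⟨h4.trans h2.symm, h3.trans h1.symm⟩
  · exact Or.inr ⟨h3.trans h1.symm, h4.trans h2.symm⟩
  · exact Or.inl ⟨h4.trans h2.symm, h3.trans h1.symm⟩

/-- removing one edge from a connection: induction on `Relation.ReflTransGen` (last step) -/
theorem conn_erase {O : Set (E d)} {W : Set (V d)} {e : E d} {a b v y : V d} (he : Joins e a b)
    (h : Conn O W v y) : Conn (O \ {e}) W v y ∨
      (Conn (O \ {e}) W v a ∧ Conn (O \ {e}) W b y) ∨
      (Conn (O \ {e}) W v b ∧ Conn (O \ {e}) W a y) := by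
  obtain ⟨hv, hr⟩ := h
  induction hr with
  | refl => exact Or.inl (Conn.refl hv)
  | @tail y' y _ hs ih =>
    obtain ⟨hy', hy, f, hf, hj⟩ := hs
    by_cases hfe : f = e
    · subst hfe
      rcases Erase_joins_eq he hj with ⟨h1, h2⟩ | ⟨h1, h2⟩
      · subst h1; subst h2
        rcases ih with h | ⟨h, _⟩ | ⟨h, _⟩
        · exact Or.inr (Or.inl ⟨h, Conn.refl hy⟩)
        · exact Or.inr (Or.inl ⟨h, Conn.refl hy⟩)
        · exact Or.inl h
      · subst h1; subst h2
        rcases ih with h | ⟨h, _⟩ | ⟨h, _⟩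
        · exact Or.inr (Or.inr ⟨h, Conn.refl hy⟩)
        · exact Or.inl h
        · exact Or.inr (Or.inr ⟨h, Conn.refl hy⟩)
    · have hstep : Step (O \ {e}) W y' y := ⟨hy', hy, f, ⟨hf, hfe⟩, hj⟩
      rcases ih with h | ⟨h, h'⟩ | ⟨h, h'⟩
      · exact Or.inl (h.snoc hstep)
      · exact Or.inr (Or.inl ⟨h, h'.snoc hstep⟩)
      · exact Or.inr (Or.inr ⟨h, h'.snoc hstep⟩)

theorem joins_src_tgt (c : DE d) : Joins c.1 (src c) (tgt c) := by
  obtain ⟨e, s⟩ := c
  cases s
  · exact Or.inr ⟨rfl, rfl⟩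
  · exact Or.inl ⟨rfl, rfl⟩

theorem exists_de {e : E d} {a b : V d} (h : Joins e a b) :
    ∃ c : DE d, c.1 = e ∧ src c = a ∧ tgt c = b := by
  rcases h with ⟨h1, h2⟩ | ⟨h1, h2⟩
  · exact ⟨(e, true), rfl, h1.symm, h2.symm⟩
  · exact ⟨(e, false), rfl, h2.symm, h1.symm⟩

theorem de_ext {c c' : DE d} (h1 : c.1 = c'.1) (h2 : src c = src c') : c = c' := by
  obtain ⟨e, s⟩ := c
  obtain ⟨e', s'⟩ := c'
  dsimp only at h1
  subst h1
  have hne : e.1 ≠ tip e := (show Joins e e.1 (tip e) from Or.inl ⟨rfl, rfl⟩).ne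
  cases s <;> cases s'
  · rfl
  · exact absurd h2.symm hne
  · exact absurd h2 hne
  · rfl

theorem Erase_adj_add {a b : V d} (c : V d) (h : Adj a b) : Adj (a + c) (b + c) := by
  obtain ⟨e, he⟩ := h
  refine ⟨(e.1 + c, e.2), ?_⟩
  have ht : tip ((e.1 + c, e.2) : E d) = tip e + c := by
    unfold tip; exact add_right_comm _ _ _
  rcases he with ⟨h1, h2⟩ | ⟨h1, h2⟩
  · exact Or.inl ⟨by rw [h1], by rw [h2, ht]⟩
  · exact Or.inr ⟨by rw [h1], by rw [h2, ht]⟩

theorem Erase_adj_sub {a b : V d} : Adj 0 (b - a) ↔ Adj a b := by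
  constructor
  · intro h
    have := Erase_adj_add a h
    rwa [zero_add, sub_add_cancel] at this
  · intro h
    have := Erase_adj_add (-a) h
    rwa [add_neg_cancel, ← sub_eq_add_neg] at this

/-- sums over directed edges (every ordered pair of neighbours is `(src c, tgt c)` for exactly one
`c`: `exists_de`, `Joins.unique`, `de_ext`; `Adj a b ↔ Adj 0 (b - a)`) -/
theorem tsum_DE (p : ℝ) (f : V d → V d → ℝ≥0∞) :
    ∑' c : DE d, ENNReal.ofReal p * f (src c) (tgt c) = ∑' a, ∑' b, Je p (b - a) * f a b := by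
  classical
  set g : DE d → V d × V d := fun c => (src c, tgt c) with hg
  have hinj : Function.Injective g := by
    intro c c' h
    rw [hg] at h
    simp only [Prod.mk.injEq] at h
    have h1 := joins_src_tgt c
    have h2 := joins_src_tgt c'
    rw [← h.1, ← h.2] at h2
    exact de_ext (h1.unique h2) h.1
  set F : V d × V d → ℝ≥0∞ := fun z => Je p (z.2 - z.1) * f z.1 z.2 with hF
  have hsupp : Function.support F ⊆ Set.range g := by
    intro z hz
    rw [Function.mem_support] at hz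
    have hadj : Adj z.1 z.2 := by
      by_contra hn
      apply hz
      rw [hF]
      dsimp only
      unfold Je
      rw [if_neg (fun h => hn (Erase_adj_sub.1 h)), zero_mul]
    obtain ⟨e, he⟩ := hadj
    obtain ⟨c, _, hc1, hc2⟩ := exists_de he
    exact ⟨c, by rw [hg]; exact Prod.ext hc1 hc2⟩
  have h1 := hinj.tsum_eq hsupp
  have h2 : ∀ c : DE d, F (g c) = ENNReal.ofReal p * f (src c) (tgt c) := by
    intro c
    rw [hF, hg]
    dsimp only
    unfold Je
    rw [if_pos (Erase_adj_sub.2 ⟨c.1, joins_src_tgt c⟩)]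
  simp only [h2] at h1
  rw [h1]
  exact ENNReal.tsum_prod (f := fun a b => Je p (b - a) * f a b)

theorem tsum_DE_conv (p : ℝ) (h : V d → ℝ≥0∞) (x : V d) :
    ∑' c : DE d, ENNReal.ofReal p * (h (src c) * Ge p (x - tgt c)) = cE h (Ke p) x := by
  rw [tsum_DE p (fun a b => h a * Ge p (x - b))]
  unfold Ke cE
  refine tsum_congr fun a => ?_
  rw [← ENNReal.tsum_mul_left,
    ← (Equiv.subRight a).tsum_eq (fun b => h a * (Je p b * Ge p (x - a - b)))]
  refine tsum_congr fun b => ?_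
  rw [Equiv.subRight_apply, show x - a - (b - a) = x - b by abel]
  ring

theorem Je_even (p : ℝ) : EvenE (Je (d := d) p) := by
  intro x
  unfold Je
  have h : Adj 0 (-x) ↔ Adj 0 x := by
    have h1 : Adj (0 : V d) (-x) ↔ Adj x 0 := by
      have := Erase_adj_sub (a := x) (b := 0)
      rwa [zero_sub] at this
    rw [h1]
    exact ⟨fun h => h.symm, fun h => h.symm⟩
  by_cases hx : Adj 0 x
  · rw [if_pos hx, if_pos (h.2 hx)]
  · rw [if_neg hx, if_neg (fun h' => hx (h.1 h'))]

end Pool.Agent.helper55.FP.L1
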