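import Pool.Agent.helper85.L1.ConvE

/-!
# Lace expansion, part L1, module Lines: the four cases of one step
-/

set_option autoImplicit false

open MeasureTheory Set
open scoped ENNReal

namespace Pool.Agent.helper55.FP.L1

variable {d : ℕ}

private theorem ln_sumc (f g : V d → ℝ≥0∞) (a b : V d) :
    ∑' t, f (t - a) * g (b - t) = cE f g (b - a) := by
  unfold cE
  rw [← tsum_sub_right (fun y => f y * g (b - a - y)) a]
  refine tsum_congr fun t => ?_
  rw [show b - a - (t - a) = b - t by abel]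

private theorem ln_sumd {g : V d → ℝ≥0∞} (hg : EvenE g) (f : V d → ℝ≥0∞) (a b : V d) :
    ∑' t, f (t - a) * g (t - b) = cE f g (b - a) := by
  rw [← ln_sumc]
  refine tsum_congr fun t => ?_
  rw [← hg (t - b), neg_sub]

private theorem ln_even (f : V d → ℝ≥0∞) (hf : EvenE f) (a b : V d) : f (a - b) = f (b - a) := by
  rw [← hf (b - a), neg_sub]

theorem lineA {g1 g2 g3 g4 M : V d → ℝ≥0∞} (h1 : EvenE g1) (h2 : EvenE g2) (h3 : EvenE g3)
    (h4 : EvenE g4) {m : ℝ≥0∞} (hM : ∀ y, M y ≤ m) : ∃ H : V d → ℝ≥0∞,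
      ∑' y, H y ≤ m * cE g1 (cE g2 (cE g3 g4)) 0 ∧ ∀ (g0 : V d → ℝ≥0∞) (v z : V d),
        ∑' u, ∑' t, ∑' s, g0 (t - v) * (g1 (s - t) * g2 (z - s)) * g3 (u - z) * g4 (u - t) *
          M (s - u) ≤ cE g0 H (z - v) := by
  refine ⟨fun y => m * (cE g1 g2 y * cE g3 g4 y), ?_, fun g0 v z => ?_⟩
  · rw [ENNReal.tsum_mul_left, tsum_mul_even (EvenE.cE h3 h4), cE_assoc]
  · rw [← ln_sumc, ENNReal.tsum_comm]
    refine ENNReal.tsum_le_tsum fun t => ?_
    have e1 : cE g1 g2 (z - t) = ∑' s, g1 (s - t) * g2 (z - s) := (ln_sumc g1 g2 t z).symm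
    have e2 : cE g3 g4 (z - t) = ∑' u, g3 (u - z) * g4 (u - t) := by
      rw [ln_sumd h4, ln_even _ (EvenE.cE h3 h4)]
    calc ∑' u, ∑' s, g0 (t - v) * (g1 (s - t) * g2 (z - s)) * g3 (u - z) * g4 (u - t) * M (s - u)
        ≤ ∑' u, ∑' s, (g0 (t - v) * m * (g3 (u - z) * g4 (u - t))) * (g1 (s - t) * g2 (z - s)) := by
          refine ENNReal.tsum_le_tsum fun u => ENNReal.tsum_le_tsum fun s => ?_
          calc _ ≤ g0 (t - v) * (g1 (s - t) * g2 (z - s)) * g3 (u - z) * g4 (u - t) * m :=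
                mul_le_mul_right (hM _) _
            _ = _ := by ring
      _ = g0 (t - v) * (m * (cE g1 g2 (z - t) * cE g3 g4 (z - t))) := by
          simp_rw [ENNReal.tsum_mul_left]
          rw [← e1]
          simp_rw [mul_assoc (g0 (t - v)), mul_assoc m, ENNReal.tsum_mul_left,
            ENNReal.tsum_mul_right]
          rw [← e2]
          ring

theorem lineB {g1 g2 g3 g4 M : V d → ℝ≥0∞} (h1 : EvenE g1) (h2 : EvenE g2) (h3 : EvenE g3)
    (h4 : EvenE g4) {m : ℝ≥0∞} (hM : ∀ y, M y ≤ m) : ∃ H : V d → ℝ≥0∞,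
      ∑' y, H y ≤ m * cE g1 (cE g2 (cE g3 g4)) 0 ∧ ∀ (g0 : V d → ℝ≥0∞) (v z : V d),
        ∑' u, ∑' t, ∑' s, g0 (t - v) * g1 (z - t) * (g2 (s - z) * g3 (u - s)) * g4 (u - t) *
          M (s - u) ≤ cE g0 H (z - v) := by
  have he := EvenE.cE (EvenE.cE h2 h3) h4
  refine ⟨fun y => m * (g1 y * cE (cE g2 g3) g4 y), ?_, fun g0 v z => ?_⟩
  · rw [ENNReal.tsum_mul_left, tsum_mul_even he, cE_assoc g2]
  · rw [← ln_sumc, ENNReal.tsum_comm]
    refine ENNReal.tsum_le_tsum fun t => ?_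
    have e1 : ∀ u, cE g2 g3 (u - z) = ∑' s, g2 (s - z) * g3 (u - s) :=
      fun u => (ln_sumc g2 g3 z u).symm
    have e2 : cE (cE g2 g3) g4 (z - t) = ∑' u, cE g2 g3 (u - z) * g4 (u - t) := by
      rw [ln_sumd h4, ln_even _ he]
    calc ∑' u, ∑' s, g0 (t - v) * g1 (z - t) * (g2 (s - z) * g3 (u - s)) * g4 (u - t) * M (s - u)
        ≤ ∑' u, ∑' s, (g0 (t - v) * (m * g1 (z - t)) * g4 (u - t)) * (g2 (s - z) * g3 (u - s)) := by
          refine ENNReal.tsum_le_tsum fun u => ENNReal.tsum_le_tsum fun s => ?_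
          calc _ ≤ g0 (t - v) * g1 (z - t) * (g2 (s - z) * g3 (u - s)) * g4 (u - t) * m :=
                mul_le_mul_right (hM _) _
            _ = _ := by ring
      _ = ∑' u, (g0 (t - v) * (m * g1 (z - t))) * (cE g2 g3 (u - z) * g4 (u - t)) := by
          refine tsum_congr fun u => ?_
          rw [ENNReal.tsum_mul_left, ← e1]
          ring
      _ = g0 (t - v) * (m * (g1 (z - t) * cE (cE g2 g3) g4 (z - t))) := by
          rw [ENNReal.tsum_mul_left, ← e2]
          ring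

theorem lineC {g1 g2 g3 g4 M : V d → ℝ≥0∞} (h1 : EvenE g1) (h2 : EvenE g2) (h3 : EvenE g3)
    (h4 : EvenE g4) {m : ℝ≥0∞} (hM : ∀ y, M y ≤ m) : ∃ H : V d → ℝ≥0∞,
      ∑' y, H y ≤ m * cE g1 (cE g2 (cE g3 g4)) 0 ∧ ∀ (g0 : V d → ℝ≥0∞) (v z : V d),
        ∑' u, ∑' t, ∑' s, g0 (t - v) * g1 (z - t) * g2 (u - z) * (g3 (s - t) * g4 (u - s)) *
          M (s - u) ≤ cE g0 H (z - v) := by
  have he := EvenE.cE h2 (EvenE.cE h3 h4)
  refine ⟨fun y => m * (g1 y * cE g2 (cE g3 g4) y), ?_, fun g0 v z => ?_⟩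
  · rw [ENNReal.tsum_mul_left, tsum_mul_even he]
  · rw [← ln_sumc, ENNReal.tsum_comm]
    refine ENNReal.tsum_le_tsum fun t => ?_
    have e1 : ∀ u, cE g3 g4 (u - t) = ∑' s, g3 (s - t) * g4 (u - s) :=
      fun u => (ln_sumc g3 g4 t u).symm
    have e2 : cE g2 (cE g3 g4) (z - t) = ∑' u, g2 (u - z) * cE g3 g4 (u - t) := by
      rw [ln_sumd (EvenE.cE h3 h4), ln_even _ he]
    calc ∑' u, ∑' s, g0 (t - v) * g1 (z - t) * g2 (u - z) * (g3 (s - t) * g4 (u - s)) * M (s - u)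
        ≤ ∑' u, ∑' s, (g0 (t - v) * (m * g1 (z - t)) * g2 (u - z)) * (g3 (s - t) * g4 (u - s)) := by
          refine ENNReal.tsum_le_tsum fun u => ENNReal.tsum_le_tsum fun s => ?_
          calc _ ≤ g0 (t - v) * g1 (z - t) * g2 (u - z) * (g3 (s - t) * g4 (u - s)) * m :=
                mul_le_mul_right (hM _) _
            _ = _ := by ring
      _ = ∑' u, (g0 (t - v) * (m * g1 (z - t))) * (g2 (u - z) * cE g3 g4 (u - t)) := by
          refine tsum_congr fun u => ?_
          rw [ENNReal.tsum_mul_left, ← e1]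
          ring
      _ = g0 (t - v) * (m * (g1 (z - t) * cE g2 (cE g3 g4) (z - t))) := by
          rw [ENNReal.tsum_mul_left, ← e2]
          ring

/-- `H y = ∑_{t,u} g1 t * g2 (y-t) * g3 (u-y) * g4 (u-t) * M (-u)`; its sum is
`∑_q g4 q * (g2*g3) q * (g1*M) (-q)` with `u = t + q` -/
theorem lineD {g1 g2 g3 g4 M : V d → ℝ≥0∞} (h2 : EvenE g2) (h3 : EvenE g3)
    (h4 : EvenE g4) {m : ℝ≥0∞} (hM : ∀ y, cE g1 M y ≤ m) : ∃ H : V d → ℝ≥0∞,
      ∑' y, H y ≤ m * cE g2 (cE g3 g4) 0 ∧ ∀ (g0 : V d → ℝ≥0∞) (v z : V d),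
        ∑' u, ∑' t, ∑' s, (g0 (s - v) * g1 (t - s)) * g2 (z - t) * g3 (u - z) * g4 (u - t) *
          M (s - u) ≤ cE g0 H (z - v) := by
  refine ⟨fun y => ∑' u, ∑' t, g1 t * g2 (y - t) * g3 (u - y) * g4 (u - t) * M (-u), ?_,
    fun g0 v z => ?_⟩
  · have e1 : ∀ u t : V d, ∑' y, g2 (y - t) * g3 (u - y) = cE g2 g3 (u - t) :=
      fun u t => ln_sumc g2 g3 t u
    calc ∑' y, ∑' u, ∑' t, g1 t * g2 (y - t) * g3 (u - y) * g4 (u - t) * M (-u)
        = ∑' u, ∑' t, ∑' y, (g1 t * g4 (u - t) * M (-u)) * (g2 (y - t) * g3 (u - y)) := by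
          rw [ENNReal.tsum_comm]
          refine tsum_congr fun u => ?_
          rw [ENNReal.tsum_comm]
          refine tsum_congr fun t => tsum_congr fun y => ?_
          ring
      _ = ∑' u, ∑' t, g1 t * M (-u) * (cE g2 g3 (u - t) * g4 (u - t)) := by
          refine tsum_congr fun u => tsum_congr fun t => ?_
          rw [ENNReal.tsum_mul_left, e1]
          ring
      _ = ∑' t, ∑' q, (cE g2 g3 q * g4 q) * (g1 t * M (-q - t)) := by
          rw [ENNReal.tsum_comm]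
          refine tsum_congr fun t => ?_
          rw [← tsum_sub_right (fun q => (cE g2 g3 q * g4 q) * (g1 t * M (-q - t))) t]
          refine tsum_congr fun u => ?_
          rw [show -(u - t) - t = -u by abel]
          ring
      _ = ∑' q, (cE g2 g3 q * g4 q) * cE g1 M (-q) := by
          rw [ENNReal.tsum_comm]
          refine tsum_congr fun q => ?_
          rw [ENNReal.tsum_mul_left]
          rfl
      _ ≤ ∑' q, (cE g2 g3 q * g4 q) * m :=
          ENNReal.tsum_le_tsum fun q => mul_le_mul_right (hM _) _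
      _ = m * cE g2 (cE g3 g4) 0 := by
          rw [ENNReal.tsum_mul_right, tsum_mul_even h4, cE_assoc, mul_comm]
  · refine le_of_eq ?_
    rw [← ln_sumc]
    calc ∑' u, ∑' t, ∑' s, (g0 (s - v) * g1 (t - s)) * g2 (z - t) * g3 (u - z) * g4 (u - t) *
          M (s - u)
        = ∑' s, ∑' u, ∑' t, (g0 (s - v) * g1 (t - s)) * g2 (z - t) * g3 (u - z) * g4 (u - t) *
          M (s - u) := by
          rw [ENNReal.tsum_comm]
          rw [show (∑' t, ∑' u, ∑' s, (g0 (s - v) * g1 (t - s)) * g2 (z - t) * g3 (u - z) *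
            g4 (u - t) * M (s - u)) = ∑' t, ∑' s, ∑' u, (g0 (s - v) * g1 (t - s)) * g2 (z - t) *
              g3 (u - z) * g4 (u - t) * M (s - u) from
              tsum_congr fun t => ENNReal.tsum_comm]
          rw [ENNReal.tsum_comm]
          refine tsum_congr fun s => ENNReal.tsum_comm
      _ = ∑' s, g0 (s - v) * ∑' u, ∑' t, g1 t * g2 (z - s - t) * g3 (u - (z - s)) * g4 (u - t) *
          M (-u) := by
          refine tsum_congr fun s => ?_
          rw [← ENNReal.tsum_mul_left, ← tsum_sub_right (fun u => g0 (s - v) *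
            ∑' t, g1 t * g2 (z - s - t) * g3 (u - (z - s)) * g4 (u - t) * M (-u)) s]
          refine tsum_congr fun u => ?_
          rw [← ENNReal.tsum_mul_left, ← tsum_sub_right (fun t => g0 (s - v) *
            (g1 t * g2 (z - s - t) * g3 (u - s - (z - s)) * g4 (u - s - t) * M (-(u - s)))) s]
          refine tsum_congr fun t => ?_
          rw [show z - s - (t - s) = z - t by abel, show u - s - (z - s) = u - z by abel,
            show u - s - (t - s) = u - t by abel, show -(u - s) = s - u by abel]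
          ring

end Pool.Agent.helper55.FP.L1
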