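import Pool.Agent.helper85.L1.BKn
import Pool.Agent.helper85.L1.ConvE
import Pool.Agent.helper55.FP.Paths

/-!
# Lace expansion, part L1, module Pts: ordered points on a path
-/

set_option autoImplicit false

open MeasureTheory Set
open scoped ENNReal

namespace Pool.Agent.helper55.FP.L1

variable {d : ℕ}

theorem Pts_l1n_zero : l1n (0 : V d) = 0 := by
  unfold l1n
  simp

/-- the `ℓ¹` distance to `x` changes by at most one along an edge -/
theorem Pts_l1n_joins {e : E d} {a b x : V d} (h : Joins e a b) :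
    l1n (x - a) ≤ l1n (x - b) + 1 := by
  have key : ∀ u w : V d, ∀ i : Fin d, (∀ j, j ≠ i → u j = w j) →
      (u i).natAbs ≤ (w i).natAbs + 1 → l1n u ≤ l1n w + 1 := by
    intro u w i h1 h2
    unfold l1n
    rw [← Finset.add_sum_erase _ _ (Finset.mem_univ i),
      ← Finset.add_sum_erase _ (fun j => (w j).natAbs) (Finset.mem_univ i)]
    have h3 : ∑ j ∈ Finset.univ.erase i, (u j).natAbs = ∑ j ∈ Finset.univ.erase i, (w j).natAbs := by
      refine Finset.sum_congr rfl fun j hj => ?_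
      rw [h1 j (Finset.ne_of_mem_erase hj)]
    rw [h3]
    omega
  have hoff : ∀ j, j ≠ e.2 → (tip e) j = e.1 j := by
    intro j hj
    unfold tip
    rw [Pi.add_apply, Pi.single_eq_of_ne hj, add_zero]
  have hon : (tip e) e.2 = e.1 e.2 + 1 := by
    unfold tip
    rw [Pi.add_apply, Pi.single_eq_same]
  rcases h with ⟨rfl, rfl⟩ | ⟨rfl, rfl⟩
  · refine key _ _ e.2 (fun j hj => ?_) ?_
    · rw [Pi.sub_apply, Pi.sub_apply, hoff j hj]
    · rw [Pi.sub_apply, Pi.sub_apply, hon]
      omega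
  · refine key _ _ e.2 (fun j hj => ?_) ?_
    · rw [Pi.sub_apply, Pi.sub_apply, hoff j hj]
    · rw [Pi.sub_apply, Pi.sub_apply, hon]
      omega

/-- a connection from `0` to `x` passes, disjointly, through a vertex at distance `k` from `x` -/
theorem Pts_split {x : V d} {k : ℕ} (hk : k ≤ l1n x) {K : Finset (E d)} (hK : K ∈ cw univ 0 x) :
    ∃ y : V d, l1n (x - y) = k ∧ ∃ K1 ∈ cw univ 0 y, ∃ K2 ∈ cw univ y x, Disjoint K1 K2 ∧
      K1 ⊆ K ∧ K2 ⊆ K := by
  classical
  rcases hk.eq_or_lt with rfl | hlt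
  · refine ⟨0, by rw [sub_zero], ∅, ?_, K, hK, Finset.disjoint_empty_left _,
      Finset.empty_subset _, Finset.Subset.refl _⟩
    exact Conn.refl (mem_univ _)
  · obtain ⟨u, hu, v, hv, e, hj, K1, hK1, M, ⟨N, hN, K2, hK2, hNK, hNM, hKM⟩, hdis, hK1K, hMK⟩ :=
      exit_dj (W := univ) (S := {v : V d | k < l1n (x - v)}) hK (by
        show k < l1n (x - 0)
        rwa [sub_zero]) (by
        show ¬ k < l1n (x - x)
        rw [sub_self, Pts_l1n_zero]
        omega)
    have hu' : k < l1n (x - u) := hu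
    have hv' : ¬ k < l1n (x - v) := hv.2
    have h1 := Pts_l1n_joins (x := x) hj
    have heN : e ∈ N := hN
    refine ⟨v, by omega, insert e K1, ?_, K2, hK2, ?_, ?_, ?_⟩
    · have h2 : Conn (↑(insert e K1) : Set (E d)) univ 0 u :=
        Conn.mono (by
          intro f hf
          simp only [Finset.coe_insert]
          exact Or.inr hf) (subset_univ _) hK1
      exact h2.snoc ⟨mem_univ _, mem_univ _, e, by simp, hj⟩
    · rw [Finset.disjoint_insert_left]
      refine ⟨?_, ?_⟩
      · intro he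
        exact (Finset.disjoint_left.1 hNK heN he)
      · exact hdis.mono_right hKM
    · intro f hf
      rcases Finset.mem_insert.1 hf with rfl | hf
      · exact hMK (hNM heN)
      · exact hK1K hf
    · exact hKM.trans hMK

open Classical in
/-- one point at distance `k` from `x` -/
theorem Pts_one (p : ℝ) (x : V d) {k : ℕ} (hk : k ≤ l1n x) :
    Ge p x ≤ ∑' y, if l1n (x - y) = k then Ge p y * Ge p (x - y) else 0 := by
  have h1 : {U : Cfg d | Conn (op p U) univ 0 x} ⊆ ⋃ y : V d, ⋃ _ : l1n (x - y) = k,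
      {U : Cfg d | ∃ K1 ∈ cw univ 0 y, ∃ K2 ∈ cw univ y x, Disjoint K1 K2 ∧
        (∀ e ∈ K1, U e ≤ p) ∧ (∀ e ∈ K2, U e ≤ p)} := by
    intro U hU
    obtain ⟨K, hK, hKU⟩ := conn_iff_wit.1 hU
    obtain ⟨y, hy, K1, hK1, K2, hK2, hd, h1, h2⟩ := Pts_split hk hK
    rw [mem_iUnion]
    refine ⟨y, ?_⟩
    rw [mem_iUnion]
    exact ⟨hy, K1, hK1, K2, hK2, hd, fun e he => hKU (h1 he), fun e he => hKU (h2 he)⟩
  calc Ge p x ≤ P d (⋃ y : V d, ⋃ _ : l1n (x - y) = k,
      {U : Cfg d | ∃ K1 ∈ cw univ 0 y, ∃ K2 ∈ cw univ y x, Disjoint K1 K2 ∧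
        (∀ e ∈ K1, U e ≤ p) ∧ (∀ e ∈ K2, U e ≤ p)}) := measure_mono h1
    _ ≤ ∑' y : V d, P d (⋃ _ : l1n (x - y) = k,
      {U : Cfg d | ∃ K1 ∈ cw univ 0 y, ∃ K2 ∈ cw univ y x, Disjoint K1 K2 ∧
        (∀ e ∈ K1, U e ≤ p) ∧ (∀ e ∈ K2, U e ≤ p)}) := measure_iUnion_le _
    _ ≤ _ := by
        refine ENNReal.tsum_le_tsum fun y => ?_
        by_cases hy : l1n (x - y) = k
        · rw [if_pos hy]
          refine (measure_mono (iUnion_subset fun _ => subset_rfl)).trans ?_
          refine (BK.bk_ennreal p p (cw univ 0 y) (cw univ y x)).trans ?_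
          rw [P_cw, P_cw, sub_zero]
        · rw [if_neg hy]
          simp [hy]

theorem Pts_hockey (n m : ℕ) :
    ∑ k ∈ Finset.range (n + 1), (k + m).choose m = (n + (m + 1)).choose (m + 1) := by
  induction n with
  | zero => simp
  | succ n ih =>
    rw [Finset.sum_range_succ, ih]
    have h1 : n + 1 + (m + 1) = (n + 1 + m) + 1 := by ring
    have h2 : n + (m + 1) = n + 1 + m := by ring
    rw [h1, Nat.choose_succ_succ, h2, add_comm]

/-- `C(|x|₁ + m, m) τ(x) ≤ τ^{*(m+1)}(x)`: by induction on `m`; for every `k ≤ |x|₁` the path passes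
through a vertex `y` at distance `k` from `x` (with disjoint connections), and
`∑_{k ≤ |x|₁} C(k + m, m) = C(|x|₁ + m + 1, m + 1)`. -/
theorem choose_mul_Ge (p : ℝ) (m : ℕ) (x : V d) :
    ((l1n x + m).choose m : ℝ≥0∞) * Ge p x ≤ cpowE (Ge p) (m + 1) x := by
  classical
  induction m generalizing x with
  | zero =>
    rw [cpowE_one, Nat.choose_zero_right, Nat.cast_one, one_mul]
  | succ m ih =>
    have h1 : ((l1n x + (m + 1)).choose (m + 1) : ℝ≥0∞) * Ge p x
        = ∑ k ∈ Finset.range (l1n x + 1), ((k + m).choose m : ℝ≥0∞) * Ge p x := by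
      rw [← Finset.sum_mul, ← Pts_hockey]
      push_cast
      rfl
    rw [h1]
    calc ∑ k ∈ Finset.range (l1n x + 1), ((k + m).choose m : ℝ≥0∞) * Ge p x
        ≤ ∑ k ∈ Finset.range (l1n x + 1), ((k + m).choose m : ℝ≥0∞) *
            ∑' y, if l1n (x - y) = k then Ge p y * Ge p (x - y) else 0 := by
          refine Finset.sum_le_sum fun k hk => ?_
          refine mul_le_mul_right ?_ _
          exact Pts_one p x (Nat.lt_succ_iff.1 (Finset.mem_range.1 hk))
      _ = ∑' y, ∑ k ∈ Finset.range (l1n x + 1), ((k + m).choose m : ℝ≥0∞) *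
            (if l1n (x - y) = k then Ge p y * Ge p (x - y) else 0) := by
          simp_rw [← ENNReal.tsum_mul_left]
          rw [← Summable.tsum_finsetSum (fun i _ => ENNReal.summable)]
      _ ≤ ∑' y, Ge p y * cpowE (Ge p) (m + 1) (x - y) := by
          refine ENNReal.tsum_le_tsum fun y => ?_
          by_cases hy : l1n (x - y) ∈ Finset.range (l1n x + 1)
          · rw [Finset.sum_eq_single_of_mem _ hy]
            · rw [if_pos rfl]
              calc ((l1n (x - y) + m).choose m : ℝ≥0∞) * (Ge p y * Ge p (x - y))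
                  = Ge p y * (((l1n (x - y) + m).choose m : ℝ≥0∞) * Ge p (x - y)) := by
                    rw [← mul_assoc, ← mul_assoc, mul_comm (Ge p y)]
                _ ≤ _ := mul_le_mul_right (ih (x - y)) _
            · intro k _ hk
              rw [if_neg (Ne.symm hk), mul_zero]
          · rw [Finset.sum_eq_zero]
            · exact zero_le
            · intro k hk
              rw [if_neg, mul_zero]
              rintro rfl
              exact hy hk
      _ = cpowE (Ge p) (m + 1 + 1) x := rfl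

theorem l1_sq_Ge (p : ℝ) (x : V d) :
    (l1n x : ℝ≥0∞) ^ 2 * Ge p x ≤ 2 * cpowE (Ge p) 3 x := by
  have h1 := choose_mul_Ge p 2 x
  have h2 : (l1n x) ^ 2 ≤ 2 * (l1n x + 2).choose 2 := by
    have h3 : 2 * (l1n x + 2).choose 2 = (l1n x + 2) * (l1n x + 1) := by
      have := Nat.choose_two_right (l1n x + 2)
      rw [this]
      have h4 : l1n x + 2 - 1 = l1n x + 1 := rfl
      rw [h4]
      have h5 : 2 ∣ (l1n x + 2) * (l1n x + 1) := by
        rw [mul_comm]
        exact (Nat.even_mul_succ_self (l1n x + 1)).two_dvd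
      exact Nat.mul_div_cancel' h5
    rw [h3]
    nlinarith
  calc (l1n x : ℝ≥0∞) ^ 2 * Ge p x ≤ (2 * ((l1n x + 2).choose 2 : ℝ≥0∞)) * Ge p x := by
        refine mul_le_mul_left ?_ _
        exact_mod_cast h2
    _ = 2 * (((l1n x + 2).choose 2 : ℝ≥0∞) * Ge p x) := by rw [mul_assoc]
    _ ≤ 2 * cpowE (Ge p) 3 x := mul_le_mul_right h1 _

end Pool.Agent.helper55.FP.L1
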