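import Pool.Agent.helper85.L1.FirstEdge
import Pool.Agent.helper85.L1.ConvE
import Pool.Agent.helper85.L1.Pts

/-!
# Lace expansion, part L1, module Sizes: sizes of convolution powers
-/

set_option autoImplicit false

open MeasureTheory Set
open scoped ENNReal

namespace Pool.Agent.helper55.FP.L1

variable {d : ℕ}

theorem cpowE_le_succ (p : ℝ) (m : ℕ) (x : V d) :
    cpowE (Ge p) m x ≤ cpowE (Ge p) (m + 1) x := by
  have h1 : Ge p (0 : V d) * cpowE (Ge p) m (x - 0) ≤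
      ∑' y, Ge p y * cpowE (Ge p) m (x - y) :=
    ENNReal.le_tsum (f := fun y => Ge p y * cpowE (Ge p) m (x - y)) 0
  rw [Ge_zero, one_mul, sub_zero] at h1
  exact h1

theorem cpowE_mono_exp (p : ℝ) {m n : ℕ} (h : m ≤ n) (x : V d) :
    cpowE (Ge p) m x ≤ cpowE (Ge p) n x := by
  induction n, h using Nat.le_induction with
  | base => exact le_rfl
  | succ n _ ih => exact ih.trans (cpowE_le_succ p n x)

theorem Je_cpowE_le {p : ℝ} {s : ℝ≥0∞} (hs : ∀ x : V d, cE (Je p) (cpowE (Ge p) 8) x ≤ s) {m : ℕ}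
    (hm : m ≤ 8) (x : V d) : cE (Je p) (cpowE (Ge p) m) x ≤ s :=
  (cE_mono (fun _ => le_rfl) (fun y => cpowE_mono_exp p hm y) x).trans (hs x)

theorem cpowE_le_add {p : ℝ} (hp : 0 ≤ p) (hp1 : p ≤ 1) {s : ℝ≥0∞}
    (hs : ∀ x : V d, cE (Je p) (cpowE (Ge p) 8) x ≤ s) {m : ℕ} (hm : m ≤ 8)
    (x : V d) : cpowE (Ge p) m x ≤ 1 + m * s := by
  induction m with
  | zero =>
    have h1 : cpowE (Ge p) 0 x ≤ 1 := by
      change diracE x ≤ 1
      unfold diracE
      split_ifs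
      · exact le_rfl
      · exact zero_le
    exact h1.trans le_self_add
  | succ m ih =>
    have h1 : cpowE (Ge p) (m + 1) x ≤ cE (fun y => diracE y + Ke p y) (cpowE (Ge p) m) x :=
      cE_mono (fun y => Ge_le hp hp1 y) (fun _ => le_rfl) x
    have h2 : cE (Ke p) (cpowE (Ge p) m) x ≤ s := by
      have h3 : cE (Ke (d := d) p) (cpowE (Ge p) m) = cE (Je p) (cpowE (Ge p) (m + 1)) := by
        unfold Ke
        rw [cE_assoc]
        rfl
      rw [h3]
      exact Je_cpowE_le hs hm x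
    rw [cE_add_left, diracE_cE] at h1
    calc cpowE (Ge p) (m + 1) x ≤ cpowE (Ge p) m x + cE (Ke p) (cpowE (Ge p) m) x := h1
      _ ≤ (1 + m * s) + s := add_le_add (ih (by omega)) h2
      _ = 1 + ((m + 1 : ℕ) : ℝ≥0∞) * s := by push_cast; ring

/-- `τ^{*m} ≤ 1 + m s ≤ 2` -/
theorem cpowE_le_two {p : ℝ} (hp : 0 ≤ p) (hp1 : p ≤ 1) {s : ℝ≥0∞}
    (hs : ∀ x : V d, cE (Je p) (cpowE (Ge p) 8) x ≤ s) (hs1 : 8 * s ≤ 1) {m : ℕ} (hm : m ≤ 8)
    (x : V d) : cpowE (Ge p) m x ≤ 2 := by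
  refine (cpowE_le_add hp hp1 hs hm x).trans ?_
  have h1 : (m : ℝ≥0∞) * s ≤ 8 * s := by
    gcongr
    exact_mod_cast hm
  calc 1 + (m : ℝ≥0∞) * s ≤ 1 + 1 := by
        gcongr
        exact h1.trans hs1
    _ = 2 := one_add_one_eq_two

theorem one_le_We (x : V d) : 1 ≤ We x := le_self_add

theorem l1n_add (a b : V d) : l1n (a + b) ≤ l1n a + l1n b := by
  unfold l1n
  rw [← Finset.sum_add_distrib]
  exact Finset.sum_le_sum fun i _ => Int.natAbs_add_le _ _

theorem We_add (a b : V d) : We (a + b) ≤ 2 * (We a * We b) := by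
  have h1 : 1 + l1n (a + b) ^ 2 ≤ 2 * ((1 + l1n a ^ 2) * (1 + l1n b ^ 2)) := by
    have h2 := l1n_add a b
    have h3 : l1n (a + b) ^ 2 ≤ (l1n a + l1n b) ^ 2 := Nat.pow_le_pow_left h2 2
    have h4 : (l1n a + l1n b) ^ 2 ≤ 2 * l1n a ^ 2 + 2 * l1n b ^ 2 := by
      zify
      nlinarith [sq_nonneg ((l1n a : ℤ) - l1n b)]
    nlinarith [Nat.zero_le (l1n a ^ 2 * l1n b ^ 2)]
  unfold We
  exact_mod_cast h1

theorem l1n_single (i : Fin d) : l1n (Pi.single i 1 : V d) = 1 := by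
  unfold l1n
  rw [Finset.sum_eq_single i]
  · simp
  · intro j _ hj
    rw [Pi.single_eq_of_ne hj]
    rfl
  · simp

theorem l1n_neg (x : V d) : l1n (-x) = l1n x := by
  unfold l1n
  simp

theorem We_Adj {a b : V d} (h : Adj a b) : We (b - a) = 2 := by
  have h1 : l1n (b - a) = 1 := by
    obtain ⟨e, ⟨h1, h2⟩ | ⟨h1, h2⟩⟩ := h
    · have h3 : b - a = Pi.single e.2 1 := by
        rw [h1, h2]
        unfold tip
        rw [add_sub_cancel_left]
      rw [h3, l1n_single]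
    · have h3 : b - a = -Pi.single e.2 1 := by
        rw [h1, h2]
        unfold tip
        rw [sub_add_cancel_left]
      rw [h3, l1n_neg, l1n_single]
  unfold We
  rw [h1]
  norm_num

theorem We_mul_Ge (p : ℝ) (x : V d) : We x * Ge p x ≤ ge p x := by
  have h1 : Ge p x ≤ cpowE (Ge p) 3 x := by
    have h2 := cpowE_mono_exp (d := d) p (show 1 ≤ 3 by norm_num) x
    rwa [cpowE_one] at h2
  calc We x * Ge p x = Ge p x + (l1n x : ℝ≥0∞) ^ 2 * Ge p x := by
        unfold We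
        rw [add_mul, one_mul]
    _ ≤ cpowE (Ge p) 3 x + 2 * cpowE (Ge p) 3 x := add_le_add h1 (l1_sq_Ge p x)
    _ = ge p x := by
        unfold ge
        ring

theorem Ge_le_ge (p : ℝ) (x : V d) : Ge p x ≤ ge p x := by
  calc Ge p x = 1 * Ge p x := (one_mul _).symm
    _ ≤ We x * Ge p x := mul_le_mul_left (one_le_We x) _
    _ ≤ ge p x := We_mul_Ge p x

theorem ge_even (p : ℝ) : EvenE (ge (d := d) p) := by
  intro x
  unfold ge
  rw [(Ge_even p).cpowE 3 x]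

end Pool.Agent.helper55.FP.L1
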