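import Pool.Agent.helper85.L1.Bound
import Pool.Agent.helper85.L1.Sizes
import Pool.Agent.helper85.L1.Lines
import Pool.Agent.helper85.L1.CutLoc
import Pool.Agent.helper85.L1.Erase

/-!
# Lace expansion, part L1, module Rec: the recursion of the bounds
-/

set_option autoImplicit false

open MeasureTheory Set
open scoped ENNReal

namespace Pool.Agent.helper55.FP.L1

variable {d : ℕ}

/-! ### sums over a set -/

theorem Rec_sumOn_mono {A : Set (V d)} {f g : V d → ℝ≥0∞} (h : ∀ z, f z ≤ g z) :
    sumOn A f ≤ sumOn A g :=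
  ENNReal.tsum_le_tsum fun z => indicator_le_indicator (h z)

theorem Rec_mul_sumOn (A : Set (V d)) (c : ℝ≥0∞) (f : V d → ℝ≥0∞) :
    c * sumOn A f = sumOn A fun z => c * f z := by
  unfold sumOn
  rw [← ENNReal.tsum_mul_left]
  refine tsum_congr fun z => ?_
  by_cases hz : z ∈ A <;> simp [hz]

theorem Rec_tsum_sumOn {ι : Type*} (A : Set (V d)) (f : ι → V d → ℝ≥0∞) :
    ∑' i, sumOn A (f i) = sumOn A fun z => ∑' i, f i z := by
  unfold sumOn
  rw [ENNReal.tsum_comm]
  refine tsum_congr fun z => ?_
  by_cases hz : z ∈ A <;> simp [hz]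

theorem Rec_sumOn_add (A : Set (V d)) (f g : V d → ℝ≥0∞) :
    sumOn A f + sumOn A g = sumOn A fun z => f z + g z := by
  unfold sumOn
  rw [← ENNReal.tsum_add]
  refine tsum_congr fun z => ?_
  by_cases hz : z ∈ A <;> simp [hz]

theorem Rec_sumOn_singleton (a : V d) (f : V d → ℝ≥0∞) : sumOn {a} f = f a := by
  unfold sumOn
  rw [tsum_eq_single a]
  · simp
  · intro b hb
    simp [hb]

/-! ### algebra of convolutions -/

instance Rec_comm : Std.Commutative (cE (d := d)) := ⟨cE_comm⟩
instance Rec_assoc : Std.Associative (cE (d := d)) := ⟨cE_assoc⟩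

/-- `k G^{*m}` -/
noncomputable def RecK (d : ℕ) (p : ℝ) (k : ℝ≥0∞) (m : ℕ) : V d → ℝ≥0∞ :=
  fun x => k * cpowE (Ge p) m x

theorem Rec_K_mul (p : ℝ) (k l : ℝ≥0∞) (m n : ℕ) :
    cE (RecK d p k m) (RecK d p l n) = RecK d p (k * l) (m + n) := by
  funext x
  unfold RecK
  rw [cE_const_left, cE_const_right, cpowE_add, mul_assoc]

theorem Rec_Ge (p : ℝ) : Ge (d := d) p = RecK d p 1 1 := by
  funext x
  unfold RecK
  rw [cpowE_one, one_mul]

theorem Rec_ge (p : ℝ) : ge (d := d) p = RecK d p 3 3 := rfl

theorem Rec_conv (f g : V d → ℝ≥0∞) (a b : V d) :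
    ∑' y, f (y - a) * g (b - y) = cE f g (b - a) := by
  unfold cE
  rw [← tsum_sub_right (fun y => f y * g (b - a - y)) a]
  refine tsum_congr fun y => ?_
  congr 2
  abel

/-- the weight, three points -/
theorem Rec_We3 (x t v : V d) : We (x - v) ≤ 2 * (We (t - v) * We (x - t)) := by
  have := We_add (t - v) (x - t)
  rwa [show t - v + (x - t) = x - v by abel] at this

theorem Rec_We4 (x s t v : V d) : We (x - v) ≤ 4 * (We (t - v) * (We (s - t) * We (x - s))) := by
  calc We (x - v) ≤ 2 * (We (t - v) * We (x - t)) := Rec_We3 x t v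
    _ ≤ 2 * (We (t - v) * (2 * (We (s - t) * We (x - s)))) := by
        gcongr
        exact Rec_We3 x s t
    _ = _ := by ring

theorem bw_zero {p : ℝ} (hp : 0 ≤ p) (hp1 : p ≤ 1) (hfin : FinCl d p) {s : ℝ≥0∞}
    (hs : ∀ x : V d, cE (Je p) (cpowE (Ge p) 8) x ≤ s) (hs1 : 8 * s ≤ 1) :
    BW p (ce (d := d) p) 12 := by
  have hGe := Ge_even (d := d) p
  have hge := ge_even (d := d) p
  refine ⟨fun y => 2 * (Ge p y * cE (ge p) (Ge p) y), ?_, fun A v => ?_⟩
  · rw [ENNReal.tsum_mul_left, tsum_mul_even (hge.cE hGe)]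
    have h1 : cE (Ge p) (cE (ge p) (Ge p)) = RecK d p 3 5 := by
      rw [Rec_ge, Rec_Ge, Rec_K_mul, Rec_K_mul]; norm_num
    rw [h1]
    unfold RecK
    have h2 := cpowE_le_two hp hp1 hs hs1 (m := 5) (by norm_num) (0 : V d)
    calc 2 * (3 * cpowE (Ge p) 5 (0 : V d)) ≤ 2 * (3 * 2) := by gcongr
      _ = 12 := by norm_num
  · calc ∑' x, We (x - v) * ce p A v x
        ≤ ∑' x, We (x - v) * sumOn A (fun z => ∑' t, Ge p (t - v) * Ge p (z - t) *
            Ge p (x - z) * Ge p (x - t)) := by
          refine ENNReal.tsum_le_tsum fun x => ?_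
          gcongr
          exact ce_le hfin A v x
      _ ≤ ∑' x, sumOn A (fun z => ∑' t, 2 * (ge p (t - v) * Ge p (z - t) *
            (ge p (x - t) * Ge p (z - x)))) := by
          refine ENNReal.tsum_le_tsum fun x => ?_
          rw [Rec_mul_sumOn]
          refine Rec_sumOn_mono fun z => ?_
          rw [← ENNReal.tsum_mul_left]
          refine ENNReal.tsum_le_tsum fun t => ?_
          have e1 : Ge p (x - z) = Ge p (z - x) := by rw [← hGe (x - z)]; congr 1; abel
          rw [e1]
          calc We (x - v) * (Ge p (t - v) * Ge p (z - t) * Ge p (z - x) * Ge p (x - t))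
              ≤ 2 * (We (t - v) * We (x - t)) *
                (Ge p (t - v) * Ge p (z - t) * Ge p (z - x) * Ge p (x - t)) := by
                gcongr
                exact Rec_We3 x t v
            _ = 2 * ((We (t - v) * Ge p (t - v)) * Ge p (z - t) *
                ((We (x - t) * Ge p (x - t)) * Ge p (z - x))) := by ring
            _ ≤ _ := by
                gcongr
                · exact We_mul_Ge p _
                · exact We_mul_Ge p _
      _ = sumOn A (fun z => ∑' t, ∑' x, 2 * (ge p (t - v) * Ge p (z - t) *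
            (ge p (x - t) * Ge p (z - x)))) := by
          rw [Rec_tsum_sumOn]
          congr 1
          funext z
          rw [ENNReal.tsum_comm]
      _ = sumOn A (fun z => cE (ge p) (fun y => 2 * (Ge p y * cE (ge p) (Ge p) y)) (z - v)) := by
          congr 1
          funext z
          rw [← Rec_conv]
          refine tsum_congr fun t => ?_
          rw [ENNReal.tsum_mul_left, ENNReal.tsum_mul_left, Rec_conv]
          ring

/-- probabilities of the clusters, summed over the clusters containing a point -/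
theorem Rec_wt (p : ℝ) (A : Set (V d)) (v : V d) (c : DE d) (f : V d → ℝ≥0∞) :
    ∑' D : Finset (V d), wt p A v c ↑D * sumOn (↑D : Set (V d)) f ≤
      ∑' z, f z * P d {U | Cut (op p U) A v (src c) ∧ Conn (op p U) univ v z} := by
  classical
  have key : ∀ z, ∑' D : Finset (V d), (if z ∈ D then wt p A v c ↑D else 0) ≤
      P d {U | Cut (op p U) A v (src c) ∧ Conn (op p U) univ v z} := by
    intro z
    set S : Finset (V d) → Set (Cfg d) := fun D => if z ∈ D then
      {U | Cut (op p U) A v (src c) ∧ Cl (op p U \ {c.1}) univ v = ↑D} else ∅ with hS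
    have hm : ∀ D, MeasurableSet (S D) := by
      intro D
      simp only [hS]
      split_ifs
      · have h1 := measurableSet_cut_diff p ∅ A v (src c)
        simp only [sdiff_empty] at h1
        exact h1.inter (measurableSet_cl_diff_eq p {c.1} v ↑D)
      · exact MeasurableSet.empty
    have hd : Pairwise (Function.onFun Disjoint S) := by
      intro D D' hne
      rw [Function.onFun, Set.disjoint_left]
      intro U h1 h2
      simp only [hS] at h1 h2
      split_ifs at h1 with h3
      · split_ifs at h2 with h4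
        · exact hne (Finset.coe_injective (h1.2.symm.trans h2.2))
        · exact h2
      · exact h1
    calc ∑' D : Finset (V d), (if z ∈ D then wt p A v c ↑D else 0) = ∑' D, P d (S D) := by
          refine tsum_congr fun D => ?_
          simp only [hS]
          split_ifs
          · rfl
          · simp
      _ ≤ P d (⋃ D, S D) := tsum_meas_le_meas_iUnion_of_disjoint _ hm hd
      _ ≤ _ := by
          refine measure_mono (iUnion_subset fun D U hU => ?_)
          simp only [hS] at hU
          split_ifs at hU with h3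
          · refine ⟨hU.1, ?_⟩
            have h4 : z ∈ Cl (op p U \ {c.1}) univ v := by rw [hU.2]; exact h3
            exact Conn.mono sdiff_subset subset_rfl h4
          · exact hU.elim
  calc ∑' D : Finset (V d), wt p A v c ↑D * sumOn (↑D : Set (V d)) f
      = ∑' D : Finset (V d), ∑' z, f z * (if z ∈ D then wt p A v c ↑D else 0) := by
        refine tsum_congr fun D => ?_
        unfold sumOn
        rw [← ENNReal.tsum_mul_left]
        refine tsum_congr fun z => ?_
        by_cases hz : z ∈ D
        · simp [hz, mul_comm]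
        · simp [hz]
    _ = ∑' z, f z * ∑' D : Finset (V d), (if z ∈ D then wt p A v c ↑D else 0) := by
        rw [ENNReal.tsum_comm]
        refine tsum_congr fun z => ?_
        rw [ENNReal.tsum_mul_left]
    _ ≤ _ := by
        refine ENNReal.tsum_le_tsum fun z => ?_
        gcongr
        exact key z

theorem Rec_adj (c : DE d) : We (tgt c - src c) = 2 :=
  We_Adj ⟨c.1, joins_src_tgt c⟩

/-- first step of the recursion -/
theorem Rec_step1 {p : ℝ} {F : Set (V d) → V d → V d → ℝ≥0∞} {H : V d → ℝ≥0∞}
    (hF : ∀ A v, ∑' x, We (x - v) * F A v x ≤ sumOn A (fun z => cE (ge p) H (z - v)))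
    (A : Set (V d)) (v : V d) :
    ∑' x, We (x - v) * Top p F A v x ≤
      8 * ∑' u, We (u - v) * ∑' z, cE (Je p) (cE (ge p) H) (z - u) *
        P d {U | Cut (op p U) A v u ∧ Conn (op p U) univ v z} := by
  calc ∑' x, We (x - v) * Top p F A v x
      = ∑' c : DE d, ENNReal.ofReal p * ∑' D : Finset (V d), wt p A v c ↑D *
          ∑' x, We (x - v) * F ↑D (tgt c) x := by
        unfold Top
        simp_rw [← ENNReal.tsum_mul_left]
        rw [ENNReal.tsum_comm]
        refine tsum_congr fun c => ?_
        rw [ENNReal.tsum_comm]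
        refine tsum_congr fun D => tsum_congr fun x => ?_
        ring
    _ ≤ ∑' c : DE d, ENNReal.ofReal p * ∑' D : Finset (V d), wt p A v c ↑D *
          (8 * We (src c - v) * sumOn (↑D : Set (V d)) (fun z => cE (ge p) H (z - tgt c))) := by
        refine ENNReal.tsum_le_tsum fun c => ?_
        gcongr with D
        calc ∑' x, We (x - v) * F ↑D (tgt c) x
            ≤ ∑' x, 8 * We (src c - v) * (We (x - tgt c) * F ↑D (tgt c) x) := by
              refine ENNReal.tsum_le_tsum fun x => ?_
              calc We (x - v) * F ↑D (tgt c) x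
                  ≤ 4 * (We (src c - v) * (We (tgt c - src c) * We (x - tgt c))) *
                      F ↑D (tgt c) x := by
                    gcongr
                    exact Rec_We4 x (tgt c) (src c) v
                _ = 8 * We (src c - v) * (We (x - tgt c) * F ↑D (tgt c) x) := by
                    rw [Rec_adj]; ring
          _ = 8 * We (src c - v) * ∑' x, We (x - tgt c) * F ↑D (tgt c) x := ENNReal.tsum_mul_left
          _ ≤ _ := by
              gcongr
              exact hF _ _
    _ = ∑' c : DE d, ENNReal.ofReal p * (8 * We (src c - v) * ∑' D : Finset (V d), wt p A v c ↑D *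
          sumOn (↑D : Set (V d)) (fun z => cE (ge p) H (z - tgt c))) := by
        refine tsum_congr fun c => ?_
        congr 1
        rw [← ENNReal.tsum_mul_left]
        refine tsum_congr fun D => ?_
        ring
    _ ≤ ∑' c : DE d, ENNReal.ofReal p * (8 * We (src c - v) *
          ∑' z, cE (ge p) H (z - tgt c) *
            P d {U | Cut (op p U) A v (src c) ∧ Conn (op p U) univ v z}) := by
        refine ENNReal.tsum_le_tsum fun c => ?_
        gcongr
        exact Rec_wt p A v c _
    _ = ∑' a, ∑' b, Je p (b - a) * (8 * We (a - v) * ∑' z, cE (ge p) H (z - b) *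
            P d {U | Cut (op p U) A v a ∧ Conn (op p U) univ v z}) :=
        tsum_DE p fun a b => 8 * We (a - v) * ∑' z, cE (ge p) H (z - b) *
            P d {U | Cut (op p U) A v a ∧ Conn (op p U) univ v z}
    _ = _ := by
        rw [← ENNReal.tsum_mul_left]
        refine tsum_congr fun u => ?_
        simp_rw [← ENNReal.tsum_mul_left]
        rw [ENNReal.tsum_comm]
        refine tsum_congr fun z => ?_
        rw [← Rec_conv (Je p) (cE (ge p) H) u z]
        rw [← ENNReal.tsum_mul_right, ← ENNReal.tsum_mul_left, ← ENNReal.tsum_mul_left]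
        refine tsum_congr fun b => ?_
        ring

/-- second step: the sum over `z'` -/
theorem Rec_step2 {p : ℝ} (hfin : FinCl d p) (A : Set (V d)) (v : V d) (K : V d → ℝ≥0∞) :
    ∑' u, We (u - v) * ∑' z', K (z' - u) *
        P d {U | Cut (op p U) A v u ∧ Conn (op p U) univ v z'} ≤
      sumOn A fun z => ∑' u, ∑' t, ∑' s, We (u - v) * lines4 p v t z u s *
        cE K (Ge p) (s - u) := by
  calc ∑' u, We (u - v) * ∑' z', K (z' - u) *
        P d {U | Cut (op p U) A v u ∧ Conn (op p U) univ v z'}
      ≤ ∑' u, We (u - v) * ∑' z', K (z' - u) *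
          sumOn A (fun z => ∑' t, ∑' s, lines4 p v t z u s * Ge p (z' - s)) := by
        refine ENNReal.tsum_le_tsum fun u => ?_
        gcongr with z'
        exact ce_conn_le hfin A v u z'
    _ = ∑' u, sumOn A (fun z => ∑' t, ∑' s, We (u - v) * lines4 p v t z u s *
          cE K (Ge p) (s - u)) := by
        refine tsum_congr fun u => ?_
        simp_rw [Rec_mul_sumOn]
        rw [Rec_tsum_sumOn, Rec_mul_sumOn]
        congr 1
        funext z
        simp_rw [← ENNReal.tsum_mul_left]
        rw [ENNReal.tsum_comm]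
        refine tsum_congr fun t => ?_
        rw [ENNReal.tsum_comm]
        refine tsum_congr fun s => ?_
        rw [← Rec_conv K (Ge p) u s, ← ENNReal.tsum_mul_left]
        refine tsum_congr fun z' => ?_
        have e1 : Ge p (z' - s) = Ge p (s - z') := by
          rw [← Ge_even p (z' - s)]; congr 1; abel
        rw [e1]
        ring
    _ = _ := by rw [Rec_tsum_sumOn]

theorem Rec_lines {p : ℝ} (v t z u s : V d) :
    We (u - v) * lines4 p v t z u s ≤
      2 * (ge p (t - v) * (Ge p (s - t) * Ge p (z - s)) * Ge p (u - z) * ge p (u - t)) +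
      2 * (ge p (t - v) * Ge p (z - t) * (Ge p (s - z) * Ge p (u - s)) * ge p (u - t)) +
      4 * (ge p (t - v) * Ge p (z - t) * Ge p (u - z) * (ge p (s - t) * ge p (u - s))) +
      4 * ((ge p (s - v) * ge p (t - s)) * Ge p (z - t) * Ge p (u - z) * ge p (u - t)) := by
  unfold lines4
  rw [mul_add, mul_add, mul_add]
  gcongr ?_ + ?_ + ?_ + ?_
  · calc We (u - v) * (Ge p (t - v) * (Ge p (s - t) * Ge p (z - s)) * Ge p (u - z) * Ge p (u - t))
        ≤ 2 * (We (t - v) * We (u - t)) *
          (Ge p (t - v) * (Ge p (s - t) * Ge p (z - s)) * Ge p (u - z) * Ge p (u - t)) := by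
          gcongr
          exact Rec_We3 u t v
      _ = 2 * ((We (t - v) * Ge p (t - v)) * (Ge p (s - t) * Ge p (z - s)) * Ge p (u - z) *
          (We (u - t) * Ge p (u - t))) := by ring
      _ ≤ _ := by
          gcongr
          · exact We_mul_Ge p _
          · exact We_mul_Ge p _
  · calc We (u - v) * (Ge p (t - v) * Ge p (z - t) * (Ge p (s - z) * Ge p (u - s)) * Ge p (u - t))
        ≤ 2 * (We (t - v) * We (u - t)) *
          (Ge p (t - v) * Ge p (z - t) * (Ge p (s - z) * Ge p (u - s)) * Ge p (u - t)) := by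
          gcongr
          exact Rec_We3 u t v
      _ = 2 * ((We (t - v) * Ge p (t - v)) * Ge p (z - t) * (Ge p (s - z) * Ge p (u - s)) *
          (We (u - t) * Ge p (u - t))) := by ring
      _ ≤ _ := by
          gcongr
          · exact We_mul_Ge p _
          · exact We_mul_Ge p _
  · calc We (u - v) * (Ge p (t - v) * Ge p (z - t) * Ge p (u - z) * (Ge p (s - t) * Ge p (u - s)))
        ≤ 4 * (We (t - v) * (We (s - t) * We (u - s))) *
          (Ge p (t - v) * Ge p (z - t) * Ge p (u - z) * (Ge p (s - t) * Ge p (u - s))) := by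
          gcongr
          exact Rec_We4 u s t v
      _ = 4 * ((We (t - v) * Ge p (t - v)) * Ge p (z - t) * Ge p (u - z) *
          ((We (s - t) * Ge p (s - t)) * (We (u - s) * Ge p (u - s)))) := by ring
      _ ≤ _ := by
          gcongr
          · exact We_mul_Ge p _
          · exact We_mul_Ge p _
          · exact We_mul_Ge p _
  · calc We (u - v) * (Ge p (s - v) * Ge p (t - s) * Ge p (z - t) * Ge p (u - z) * Ge p (u - t))
        ≤ 4 * (We (s - v) * (We (t - s) * We (u - t))) *
          (Ge p (s - v) * Ge p (t - s) * Ge p (z - t) * Ge p (u - z) * Ge p (u - t)) := by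
          gcongr
          exact Rec_We4 u t s v
      _ = 4 * ((We (s - v) * Ge p (s - v)) * (We (t - s) * Ge p (t - s)) * Ge p (z - t) *
          Ge p (u - z) * (We (u - t) * Ge p (u - t))) := by ring
      _ ≤ _ := by
          gcongr
          · exact We_mul_Ge p _
          · exact We_mul_Ge p _
          · exact We_mul_Ge p _

/-- see the plan for the constants: `4032` -/
theorem bw_succ {p : ℝ} (hp : 0 ≤ p) (hp1 : p ≤ 1) (hfin : FinCl d p) {s : ℝ≥0∞}
    (hs : ∀ x : V d, cE (Je p) (cpowE (Ge p) 8) x ≤ s) (hs1 : 8 * s ≤ 1)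
    {F : Set (V d) → V d → V d → ℝ≥0∞} {h : ℝ≥0∞} (hF : BW p F h) :
    BW p (Top p F) (10000 * s * h) := by
  obtain ⟨H0, hH0, hF⟩ := hF
  have hGe := Ge_even (d := d) p
  have hge := ge_even (d := d) p
  set K : V d → ℝ≥0∞ := cE (Je p) (cE (ge p) H0) with hK
  set M : V d → ℝ≥0∞ := cE K (Ge p) with hMdef
  have hM : ∀ y, M y ≤ 3 * s * h := by
    intro y
    have e1 : M = cE (cE (Je p) (cE (ge p) (Ge p))) H0 := by
      rw [hMdef, hK]; ac_rfl
    rw [e1]
    refine (cE_le_mul (m := 3 * s) (fun x => ?_) H0 y).trans (by gcongr)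
    rw [Rec_ge, Rec_Ge, Rec_K_mul]
    unfold RecK
    rw [cE_const_right]
    calc 3 * 1 * cE (Je p) (cpowE (Ge p) (3 + 1)) x = 3 * cE (Je p) (cpowE (Ge p) 4) x := by
          norm_num
      _ ≤ 3 * s := by gcongr; exact Je_cpowE_le hs (by norm_num) x
  have hM' : ∀ y, cE (ge p) M y ≤ 9 * s * h := by
    intro y
    have e1 : cE (ge p) M = cE (cE (Je p) (cE (ge p) (cE (ge p) (Ge p)))) H0 := by
      rw [hMdef, hK]; ac_rfl
    rw [e1]
    refine (cE_le_mul (m := 9 * s) (fun x => ?_) H0 y).trans (by gcongr)
    rw [Rec_ge, Rec_Ge, Rec_K_mul, Rec_K_mul]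
    unfold RecK
    rw [cE_const_right]
    calc 3 * (3 * 1) * cE (Je p) (cpowE (Ge p) (3 + (3 + 1))) x
        = 9 * cE (Je p) (cpowE (Ge p) 7) x := by norm_num
      _ ≤ 9 * s := by gcongr; exact Je_cpowE_le hs (by norm_num) x
  obtain ⟨HA, hA1, hA2⟩ := lineA (M := M) hGe hGe hGe hge hM
  obtain ⟨HB, hB1, hB2⟩ := lineB (M := M) hGe hGe hGe hge hM
  obtain ⟨HC, hC1, hC2⟩ := lineC (M := M) hGe hGe hge hge hM
  obtain ⟨HD, hD1, hD2⟩ := lineD (M := M) (g1 := ge p) hGe hGe hge hM'
  refine ⟨fun y => 16 * HA y + 16 * HB y + 32 * HC y + 32 * HD y, ?_, fun A v => ?_⟩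
  · have a1 : cE (Ge p) (cE (Ge p) (cE (Ge p) (ge p))) (0 : V d) ≤ 6 := by
      rw [Rec_ge, Rec_Ge, Rec_K_mul, Rec_K_mul, Rec_K_mul]
      unfold RecK
      calc 1 * (1 * (1 * 3)) * cpowE (Ge p) (1 + (1 + (1 + 3))) (0 : V d)
          = 3 * cpowE (Ge p) 6 (0 : V d) := by norm_num
        _ ≤ 3 * 2 := by gcongr; exact cpowE_le_two hp hp1 hs hs1 (by norm_num) _
        _ = 6 := by norm_num
    have a2 : cE (Ge p) (cE (Ge p) (cE (ge p) (ge p))) (0 : V d) ≤ 18 := by
      rw [Rec_ge, Rec_Ge, Rec_K_mul, Rec_K_mul, Rec_K_mul]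
      unfold RecK
      calc 1 * (1 * (3 * 3)) * cpowE (Ge p) (1 + (1 + (3 + 3))) (0 : V d)
          = 9 * cpowE (Ge p) 8 (0 : V d) := by norm_num
        _ ≤ 9 * 2 := by gcongr; exact cpowE_le_two hp hp1 hs hs1 (by norm_num) _
        _ = 18 := by norm_num
    have a3 : cE (Ge p) (cE (Ge p) (ge p)) (0 : V d) ≤ 6 := by
      rw [Rec_ge, Rec_Ge, Rec_K_mul, Rec_K_mul]
      unfold RecK
      calc 1 * (1 * 3) * cpowE (Ge p) (1 + (1 + 3)) (0 : V d)
          = 3 * cpowE (Ge p) 5 (0 : V d) := by norm_num
        _ ≤ 3 * 2 := by gcongr; exact cpowE_le_two hp hp1 hs hs1 (by norm_num) _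
        _ = 6 := by norm_num
    rw [ENNReal.tsum_add, ENNReal.tsum_add, ENNReal.tsum_add, ENNReal.tsum_mul_left,
      ENNReal.tsum_mul_left, ENNReal.tsum_mul_left, ENNReal.tsum_mul_left]
    calc 16 * ∑' y, HA y + 16 * ∑' y, HB y + 32 * ∑' y, HC y + 32 * ∑' y, HD y
        ≤ 16 * (3 * s * h * 6) + 16 * (3 * s * h * 6) + 32 * (3 * s * h * 18)
          + 32 * (9 * s * h * 6) := by
          gcongr
          · exact hA1.trans (by gcongr)
          · exact hB1.trans (by gcongr)
          · exact hC1.trans (by gcongr)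
          · exact hD1.trans (by gcongr)
      _ = 4032 * (s * h) := by ring
      _ ≤ 10000 * (s * h) := by gcongr; norm_num
      _ = 10000 * s * h := by ring
  · refine (Rec_step1 hF A v).trans ?_
    calc 8 * ∑' u, We (u - v) * ∑' z, cE (Je p) (cE (ge p) H0) (z - u) *
          P d {U | Cut (op p U) A v u ∧ Conn (op p U) univ v z}
        ≤ 8 * sumOn A fun z => ∑' u, ∑' t, ∑' s, We (u - v) * lines4 p v t z u s *
            M (s - u) := by
          gcongr
          exact Rec_step2 hfin A v K
      _ = sumOn A fun z => 8 * ∑' u, ∑' t, ∑' s, We (u - v) * lines4 p v t z u s * M (s - u) :=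
          Rec_mul_sumOn _ _ _
      _ ≤ _ := by
          refine Rec_sumOn_mono fun z => ?_
          calc 8 * ∑' u, ∑' t, ∑' s, We (u - v) * lines4 p v t z u s * M (s - u)
              ≤ 8 * ∑' u, ∑' t, ∑' s,
                (2 * (ge p (t - v) * (Ge p (s - t) * Ge p (z - s)) * Ge p (u - z) * ge p (u - t) *
                  M (s - u)) +
                2 * (ge p (t - v) * Ge p (z - t) * (Ge p (s - z) * Ge p (u - s)) * ge p (u - t) *
                  M (s - u)) +
                4 * (ge p (t - v) * Ge p (z - t) * Ge p (u - z) * (ge p (s - t) * ge p (u - s)) *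
                  M (s - u)) +
                4 * ((ge p (s - v) * ge p (t - s)) * Ge p (z - t) * Ge p (u - z) * ge p (u - t) *
                  M (s - u))) := by
                gcongr with u t s
                refine (mul_le_mul_left (Rec_lines v t z u s) _).trans (le_of_eq ?_)
                ring
            _ = 8 * (2 * (∑' u, ∑' t, ∑' s, ge p (t - v) * (Ge p (s - t) * Ge p (z - s)) *
                  Ge p (u - z) * ge p (u - t) * M (s - u)) +
                2 * (∑' u, ∑' t, ∑' s, ge p (t - v) * Ge p (z - t) * (Ge p (s - z) * Ge p (u - s)) *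
                  ge p (u - t) * M (s - u)) +
                4 * (∑' u, ∑' t, ∑' s, ge p (t - v) * Ge p (z - t) * Ge p (u - z) *
                  (ge p (s - t) * ge p (u - s)) * M (s - u)) +
                4 * (∑' u, ∑' t, ∑' s, (ge p (s - v) * ge p (t - s)) * Ge p (z - t) * Ge p (u - z) *
                  ge p (u - t) * M (s - u))) := by
                simp_rw [ENNReal.tsum_add, ENNReal.tsum_mul_left]
            _ ≤ 8 * (2 * cE (ge p) HA (z - v) + 2 * cE (ge p) HB (z - v) +
                4 * cE (ge p) HC (z - v) + 4 * cE (ge p) HD (z - v)) := by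
                gcongr
                · exact hA2 (ge p) v z
                · exact hB2 (ge p) v z
                · exact hC2 (ge p) v z
                · exact hD2 (ge p) v z
            _ = cE (ge p) (fun y => 16 * HA y + 16 * HB y + 32 * HC y + 32 * HD y) (z - v) := by
                rw [cE_comm (ge p) (fun y => 16 * HA y + 16 * HB y + 32 * HC y + 32 * HD y),
                  cE_add_left (fun y => 16 * HA y + 16 * HB y + 32 * HC y) (fun y => 32 * HD y),
                  cE_add_left (fun y => 16 * HA y + 16 * HB y) (fun y => 32 * HC y),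
                  cE_add_left (fun y => 16 * HA y) (fun y => 16 * HB y), cE_const_left,
                  cE_const_left, cE_const_left, cE_const_left, cE_comm HA, cE_comm HB, cE_comm HC,
                  cE_comm HD]
                ring

/-- `∑_{x ≠ 0} (1+|x|²) π_0(x) ≤ 9 s` -/
theorem PN_zero_le {p : ℝ} (hp : 0 ≤ p) (hp1 : p ≤ 1) (hfin : FinCl d p) {s : ℝ≥0∞}
    (hs : ∀ x : V d, cE (Je p) (cpowE (Ge p) 8) x ≤ s) (hs1 : 8 * s ≤ 1) :
    sumOn {x : V d | x ≠ 0} (fun x => We x * PN p 0 x) ≤ 9 * s := by
  classical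
  have hGe := Ge_even (d := d) p
  have hge := ge_even (d := d) p
  have hce : ∀ x : V d, PN p 0 x ≤ Ge p x * Ge p x + ∑' t, (if t = 0 then 0 else
      Ge p t * Ge p t * (Ge p x * Ge p (t - x))) := by
    intro x
    have h1 : PN p 0 x ≤ ∑' t, Ge p t * Ge p t * (Ge p x * Ge p (t - x)) := by
      refine (ce_le hfin {0} 0 x).trans ?_
      rw [Rec_sumOn_singleton]
      refine ENNReal.tsum_le_tsum fun t => le_of_eq ?_
      rw [sub_zero, zero_sub, sub_zero, hGe t, ← hGe (x - t), neg_sub]
      ring
    refine h1.trans ?_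
    rw [ENNReal.tsum_eq_add_tsum_ite (0 : V d)]
    refine add_le_add (le_of_eq ?_) (le_of_eq (tsum_congr fun t => ?_))
    · rw [Ge_zero, zero_sub, hGe]
      ring
    · split_ifs <;> rfl
  have hKe : ∀ x : V d, x ≠ 0 → Ge p x ≤ Ke p x := fun x hx => Ge_le' hp hp1 hx
  have e1 : cE (ge p) (Ke p) (0 : V d) ≤ 3 * s := by
    have : cE (ge p) (Ke p) = cE (Je p) (cE (ge p) (Ge (d := d) p)) := by unfold Ke; ac_rfl
    rw [this, Rec_ge, Rec_Ge, Rec_K_mul]
    unfold RecK
    rw [cE_const_right]
    calc 3 * 1 * cE (Je p) (cpowE (Ge p) (3 + 1)) (0 : V d)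
        = 3 * cE (Je p) (cpowE (Ge p) 4) (0 : V d) := by
          norm_num
      _ ≤ 3 * s := by gcongr; exact Je_cpowE_le hs (by norm_num) 0
  have e2 : cE (Ge p) (Ke p) (0 : V d) ≤ s := by
    have : cE (Ge p) (Ke p) = cE (Je p) (cE (Ge p) (Ge (d := d) p)) := by unfold Ke; ac_rfl
    rw [this, Rec_Ge, Rec_K_mul]
    unfold RecK
    rw [cE_const_right]
    calc 1 * 1 * cE (Je p) (cpowE (Ge p) (1 + 1)) (0 : V d)
        = cE (Je p) (cpowE (Ge p) 2) (0 : V d) := by
          norm_num
      _ ≤ s := Je_cpowE_le hs (by norm_num) 0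
  calc sumOn {x : V d | x ≠ 0} (fun x => We x * PN p 0 x)
      ≤ ∑' x, ((if x = 0 then 0 else ge p x * Ge p x) + ∑' t, (if t = 0 then 0 else
          Ge p t * Ge p t * (ge p x * Ge p (t - x)))) := by
        unfold sumOn
        refine ENNReal.tsum_le_tsum fun x => ?_
        by_cases hx : x = 0
        · simp [hx]
        · have hx' : x ∈ {x : V d | x ≠ 0} := hx
          rw [indicator_of_mem hx', if_neg hx]
          refine (mul_le_mul_right (hce x) _).trans ?_
          rw [mul_add]
          refine add_le_add ?_ ?_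
          · rw [← mul_assoc]
            exact mul_le_mul_left (We_mul_Ge p x) _
          · rw [← ENNReal.tsum_mul_left]
            refine ENNReal.tsum_le_tsum fun t => ?_
            split_ifs
            · simp
            · calc We x * (Ge p t * Ge p t * (Ge p x * Ge p (t - x)))
                  = Ge p t * Ge p t * ((We x * Ge p x) * Ge p (t - x)) := by ring
                _ ≤ _ := by gcongr; exact We_mul_Ge p x
    _ = (∑' x : V d, (if x = 0 then 0 else ge p x * Ge p x)) +
          ∑' t : V d, (if t = 0 then 0 else Ge p t * Ge p t * cE (ge p) (Ge p) t) := by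
        rw [ENNReal.tsum_add]
        congr 1
        rw [ENNReal.tsum_comm]
        refine tsum_congr fun t => ?_
        split_ifs
        · simp
        · rw [ENNReal.tsum_mul_left]
          rfl
    _ ≤ (∑' x : V d, Ke p x * ge p x) + ∑' t : V d, (Ke p t * Ge p t) * 6 := by
        gcongr with x t
        · split_ifs with hx
          · exact bot_le
          · rw [mul_comm]
            gcongr
            exact hKe x hx
        · split_ifs with ht
          · exact bot_le
          · gcongr
            · exact hKe t ht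
            · rw [Rec_ge, Rec_Ge, Rec_K_mul]
              unfold RecK
              calc 3 * 1 * cpowE (Ge p) (3 + 1) t = 3 * cpowE (Ge p) 4 t := by norm_num
                _ ≤ 3 * 2 := by gcongr; exact cpowE_le_two hp hp1 hs hs1 (by norm_num) t
                _ = 6 := by norm_num
    _ = cE (Ke p) (ge p) 0 + cE (Ke p) (Ge p) 0 * 6 := by
        rw [tsum_mul_even hge, ENNReal.tsum_mul_right, tsum_mul_even hGe]
    _ ≤ 3 * s + s * 6 := by
        rw [cE_comm (Ke p) (ge p), cE_comm (Ke p) (Ge p)]
        gcongr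
    _ = 9 * s := by ring

end Pool.Agent.helper55.FP.L1
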