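import Pool.Agent.helper90.FP.LADefs
import Pool.Agent.helper85.L1.Rec
import Pool.Agent.helper85.L1.Identity
import Pool.Agent.helper85.L1.Iter
import Pool.Agent.helper85.L1.RealConv

/-!
# Lace expansion, part L1, module Final: `Lace1`
-/

set_option autoImplicit false

open MeasureTheory Set Filter Topology
open scoped ENNReal

namespace Pool.Agent.helper55.FP.L1

variable {d : ℕ}

/-- hypotheses at `p` -/
structure Hyp1 (d : ℕ) (p : ℝ) (s : ℝ≥0∞) : Prop where
  p0 : 0 ≤ p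
  p1 : p ≤ 1
  fin : FinCl d p
  hs : ∀ x : V d, cE (Je p) (cpowE (Ge p) 8) x ≤ s
  hs1 : 20000 * s ≤ 1

theorem Hyp1.hs8 {p : ℝ} {s : ℝ≥0∞} (h : Hyp1 d p s) : 8 * s ≤ 1 :=
  (mul_le_mul_left (by norm_num) s).trans h.hs1

theorem Hyp1.s_top {p : ℝ} {s : ℝ≥0∞} (h : Hyp1 d p s) : s ≠ ⊤ := by
  rintro rfl
  have := h.hs1
  rw [ENNReal.mul_top (by norm_num)] at this
  exact absurd this (by norm_num)

/-- the bound `h_n` -/
theorem Hyp1.bw {p : ℝ} {s : ℝ≥0∞} (h : Hyp1 d p s) (n : ℕ) :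
    BW p ((Top p)^[n] (ce (d := d) p)) (12 * (10000 * s) ^ n) := by
  induction n with
  | zero =>
    simpa using bw_zero h.p0 h.p1 h.fin h.hs h.hs8
  | succ n ih =>
    rw [Function.iterate_succ_apply']
    have := bw_succ h.p0 h.p1 h.fin h.hs h.hs8 ih
    have e : 10000 * s * (12 * (10000 * s) ^ n) = 12 * (10000 * s) ^ (n + 1) := by ring
    rwa [e] at this

theorem Hyp1.ge_le_six {p : ℝ} {s : ℝ≥0∞} (h : Hyp1 d p s) (x : V d) : ge p x ≤ 6 := by
  unfold ge
  calc 3 * cpowE (Ge p) 3 x ≤ 3 * 2 :=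
        mul_le_mul_right (cpowE_le_two h.p0 h.p1 h.hs h.hs8 (by norm_num) x) 3
    _ = 6 := by norm_num

/-- weighted sum of the coefficients -/
theorem Hyp1.sum_PN {p : ℝ} {s : ℝ≥0∞} (h : Hyp1 d p s) (n : ℕ) :
    ∑' x : V d, We x * PN p n x ≤ 72 * (10000 * s) ^ n := by
  obtain ⟨H, hH, hb⟩ := h.bw n
  have h1 := hb {0} 0
  simp only [sub_zero] at h1
  refine h1.trans ?_
  unfold sumOn
  rw [tsum_eq_single (0 : V d) (fun z hz => indicator_of_notMem (by simpa using hz) _),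
    indicator_of_mem (mem_singleton _)]
  refine (cE_le_mul h.ge_le_six H 0).trans ?_
  calc 6 * ∑' y, H y ≤ 6 * (12 * (10000 * s) ^ n) := mul_le_mul_right hH 6
    _ = 72 * (10000 * s) ^ n := by ring

theorem Hyp1.pow_le {p : ℝ} {s : ℝ≥0∞} (h : Hyp1 d p s) (n : ℕ) :
    (10000 * s) ^ n ≤ (2 : ℝ≥0∞)⁻¹ ^ n := by
  refine pow_le_pow_left₀ (zero_le) ?_ n
  have h1 := h.hs1
  have e : 20000 * s = 2 * (10000 * s) := by ring
  rw [e] at h1
  rw [← one_div, ENNReal.le_div_iff_mul_le (by norm_num) (by norm_num), mul_comm]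
  exact h1

theorem Hyp1.tsum_PN {p : ℝ} {s : ℝ≥0∞} (h : Hyp1 d p s) (n : ℕ) :
    ∑' x : V d, PN p n x ≤ 72 * (2 : ℝ≥0∞)⁻¹ ^ n := by
  refine (ENNReal.tsum_le_tsum fun x => ?_).trans
    ((h.sum_PN n).trans (mul_le_mul_right (h.pow_le n) 72))
  exact le_mul_of_one_le_left' (one_le_We x)

theorem Hyp1.PN_le {p : ℝ} {s : ℝ≥0∞} (h : Hyp1 d p s) (n : ℕ) (x : V d) :
    PN p n x ≤ 72 * (2 : ℝ≥0∞)⁻¹ ^ n :=
  (ENNReal.le_tsum x).trans (h.tsum_PN n)

theorem top72 (n : ℕ) : 72 * (2 : ℝ≥0∞)⁻¹ ^ n ≠ ⊤ :=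
  ENNReal.mul_ne_top (by norm_num) (ENNReal.pow_ne_top (by norm_num))

theorem toReal72 (n : ℕ) : (72 * (2 : ℝ≥0∞)⁻¹ ^ n).toReal = 72 * (1 / 2 : ℝ) ^ n := by
  simp

theorem Hyp1.Ke_le {p : ℝ} {s : ℝ≥0∞} (h : Hyp1 d p s) (x : V d) : Ke p x ≤ s := by
  have := Je_cpowE_le h.hs (m := 1) (by norm_num) x
  rwa [cpowE_one] at this

theorem Hyp1.Ke_le_one {p : ℝ} {s : ℝ≥0∞} (h : Hyp1 d p s) (x : V d) : Ke p x ≤ 1 := by
  refine (h.Ke_le x).trans (le_trans ?_ h.hs1)
  exact le_mul_of_one_le_left' (by norm_num)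

/-- the convolution of a coefficient with the kernel -/
theorem Hyp1.cE_PN_le {p : ℝ} {s : ℝ≥0∞} (h : Hyp1 d p s) (n : ℕ) (x : V d) :
    cE (PN p n) (Ke p) x ≤ 72 * (2 : ℝ≥0∞)⁻¹ ^ n := by
  rw [cE_comm]
  refine (cE_le_mul h.Ke_le_one _ x).trans ?_
  rw [one_mul]
  exact h.tsum_PN n

theorem Hyp1.identity {p : ℝ} {s : ℝ≥0∞} (h : Hyp1 d p s) (n : ℕ) (x : V d) :
    LN p n x + LN p (n + 1) x = PN p n x + cE (PN p n) (Ke p) x :=
  tele (fun A v x => thr_identity h.p0 h.p1 h.fin A v x) n x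

theorem Hyp1.LN_le {p : ℝ} {s : ℝ≥0∞} (h : Hyp1 d p s) (n : ℕ) (x : V d) :
    LN p n x ≤ 144 * (2 : ℝ≥0∞)⁻¹ ^ n := by
  have h1 : LN p n x ≤ PN p n x + cE (PN p n) (Ke p) x := by
    rw [← h.identity n x]
    exact le_self_add
  refine h1.trans ((add_le_add (h.PN_le n x) (h.cE_PN_le n x)).trans (le_of_eq ?_))
  ring

theorem Hyp1.LN_top {p : ℝ} {s : ℝ≥0∞} (h : Hyp1 d p s) (n : ℕ) (x : V d) : LN p n x ≠ ⊤ :=
  ne_top_of_le_ne_top (ENNReal.mul_ne_top (by norm_num) (ENNReal.pow_ne_top (by norm_num)))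
    (h.LN_le n x)

/-! ## Real versions -/

/-- the coefficients as real numbers -/
noncomputable def aR (p : ℝ) (n : ℕ) (x : V d) : ℝ := (PN p n x).toReal

/-- the kernel as a real function -/
noncomputable def kR (p : ℝ) (x : V d) : ℝ := (Ke p x).toReal

/-- the total coefficient -/
noncomputable def piR (p : ℝ) (x : V d) : ℝ := ∑' n, (-1) ^ n * aR p n x

theorem aR_nonneg (p : ℝ) (n : ℕ) (x : V d) : 0 ≤ aR p n x := ENNReal.toReal_nonneg

theorem kR_nonneg (p : ℝ) (x : V d) : 0 ≤ kR p x := ENNReal.toReal_nonneg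

theorem Hyp1.PN_top {p : ℝ} {s : ℝ≥0∞} (h : Hyp1 d p s) (n : ℕ) (x : V d) : PN p n x ≠ ⊤ :=
  ne_top_of_le_ne_top (top72 n) (h.PN_le n x)

theorem Hyp1.aR_le {p : ℝ} {s : ℝ≥0∞} (h : Hyp1 d p s) (n : ℕ) (x : V d) :
    aR p n x ≤ 72 * (1 / 2 : ℝ) ^ n := by
  rw [← toReal72]
  exact ENNReal.toReal_mono (top72 n) (h.PN_le n x)

theorem Hyp1.Ke_top {p : ℝ} {s : ℝ≥0∞} (h : Hyp1 d p s) (x : V d) : Ke p x ≠ ⊤ :=
  ne_top_of_le_ne_top ENNReal.one_ne_top (h.Ke_le_one x)

theorem Hyp1.summable_aR {p : ℝ} {s : ℝ≥0∞} (h : Hyp1 d p s) (x : V d) :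
    Summable fun n => (-1 : ℝ) ^ n * aR p n x := by
  refine Summable.of_norm_bounded (g := fun n => 72 * (1 / 2 : ℝ) ^ n)
    ((summable_geometric_of_lt_one (by norm_num) (by norm_num)).mul_left 72) fun n => ?_
  rw [Real.norm_eq_abs, abs_mul, abs_pow, abs_neg, abs_one, one_pow, one_mul,
    abs_of_nonneg (aR_nonneg p n x)]
  exact h.aR_le n x

/-- the family `a_n(y) k(x-y)` is summable -/
theorem Hyp1.summable_prod {p : ℝ} {s : ℝ≥0∞} (h : Hyp1 d p s) (x : V d) :
    Summable fun z : ℕ × V d => (-1 : ℝ) ^ z.1 * (aR p z.1 z.2 * kR p (x - z.2)) := by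
  have h1 : ∑' z : ℕ × V d, PN p z.1 z.2 * Ke p (x - z.2) ≠ ⊤ := by
    rw [ENNReal.tsum_prod (f := fun n y => PN p n y * Ke p (x - y))]
    refine ne_top_of_le_ne_top (b := ∑' n : ℕ, 72 * (2 : ℝ≥0∞)⁻¹ ^ n) ?_
      (ENNReal.tsum_le_tsum fun n => h.cE_PN_le n x)
    rw [ENNReal.tsum_mul_left, ENNReal.tsum_geometric]
    refine ENNReal.mul_ne_top (by norm_num) (ENNReal.inv_ne_top.2 ?_)
    rw [ENNReal.one_sub_inv_two]
    norm_num
  have h2 := ENNReal.summable_toReal h1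
  refine Summable.of_norm ?_
  refine h2.congr fun z => ?_
  rw [Real.norm_eq_abs, abs_mul, abs_pow, abs_neg, abs_one, one_pow, one_mul,
    abs_of_nonneg (mul_nonneg (aR_nonneg _ _ _) (kR_nonneg _ _)), ENNReal.toReal_mul]
  rfl

theorem Hyp1.toReal_cE {p : ℝ} {s : ℝ≥0∞} (h : Hyp1 d p s) (n : ℕ) (x : V d) :
    (cE (PN p n) (Ke p) x).toReal = ∑' y, aR p n y * kR p (x - y) := by
  unfold cE
  rw [ENNReal.tsum_toReal_eq]
  · refine tsum_congr fun y => ?_
    rw [ENNReal.toReal_mul]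
    rfl
  · intro y
    exact ENNReal.mul_ne_top (h.PN_top n y) (h.Ke_top _)

theorem Hyp1.partSum {p : ℝ} {s : ℝ≥0∞} (h : Hyp1 d p s) (N : ℕ) (x : V d) :
    ∑ n ∈ Finset.range N, (-1 : ℝ) ^ n * (aR p n x + ∑' y, aR p n y * kR p (x - y)) =
      tau p x - (-1) ^ N * (LN p N x).toReal := by
  induction N with
  | zero =>
    rw [Finset.sum_range_zero, pow_zero, one_mul, LN_zero, Ge_eq,
      ENNReal.toReal_ofReal (by unfold tau tauW; exact measureReal_nonneg), sub_self]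
  | succ N ih =>
    rw [Finset.sum_range_succ, ih, ← h.toReal_cE]
    have h1 : (LN p N x).toReal + (LN p (N + 1) x).toReal =
        aR p N x + (cE (PN p N) (Ke p) x).toReal := by
      unfold aR
      rw [← ENNReal.toReal_add (h.LN_top _ _) (h.LN_top _ _),
        ← ENNReal.toReal_add (h.PN_top _ _) (ne_top_of_le_ne_top (top72 N) (h.cE_PN_le N x)),
        h.identity]
    rw [← h1, pow_succ]
    ring

theorem Hyp1.LN_tendsto {p : ℝ} {s : ℝ≥0∞} (h : Hyp1 d p s) (x : V d) :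
    Tendsto (fun N : ℕ => (-1 : ℝ) ^ N * (LN p N x).toReal) atTop (𝓝 0) := by
  have h0 : Tendsto (fun N : ℕ => 144 * (1 / 2 : ℝ) ^ N) atTop (𝓝 0) := by
    have := (tendsto_pow_atTop_nhds_zero_of_lt_one (r := (1 / 2 : ℝ)) (by norm_num)
      (by norm_num)).const_mul 144
    simpa using this
  refine squeeze_zero_norm (fun N => ?_) h0
  rw [Real.norm_eq_abs, abs_mul, abs_pow, abs_neg, abs_one, one_pow, one_mul,
    abs_of_nonneg ENNReal.toReal_nonneg]
  have e : (144 * (2 : ℝ≥0∞)⁻¹ ^ N).toReal = 144 * (1 / 2 : ℝ) ^ N := by simp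
  rw [← e]
  exact ENNReal.toReal_mono
    (ENNReal.mul_ne_top (by norm_num) (ENNReal.pow_ne_top (by norm_num))) (h.LN_le N x)

/-- the lace expansion -/
theorem Hyp1.lace {p : ℝ} {s : ℝ≥0∞} (h : Hyp1 d p s) (x : V d) :
    tau p x = piR p x + ∑' y, piR p y * kR p (x - y) := by
  have hs1 := h.summable_aR x
  have hs2 := h.summable_prod x
  have hs3 : Summable fun n => (-1 : ℝ) ^ n * ∑' y, aR p n y * kR p (x - y) := by
    refine hs2.prod.congr fun n => ?_
    rw [← tsum_mul_left]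
  have e1 : ∑' n, (-1 : ℝ) ^ n * ∑' y, aR p n y * kR p (x - y) =
      ∑' y, piR p y * kR p (x - y) := by
    calc ∑' n, (-1 : ℝ) ^ n * ∑' y, aR p n y * kR p (x - y)
        = ∑' n, ∑' y, (-1 : ℝ) ^ n * (aR p n y * kR p (x - y)) := by
          refine tsum_congr fun n => ?_
          rw [← tsum_mul_left]
      _ = ∑' y, ∑' n, (-1 : ℝ) ^ n * (aR p n y * kR p (x - y)) :=
          (Summable.tsum_comm (f := fun n y => (-1 : ℝ) ^ n * (aR p n y * kR p (x - y))) hs2).symm
      _ = ∑' y, piR p y * kR p (x - y) := by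
          refine tsum_congr fun y => ?_
          unfold piR
          rw [← tsum_mul_right]
          refine tsum_congr fun n => ?_
          ring
  have h1 := ((hs1.add hs3).hasSum.tendsto_sum_nat)
  have h2 : Tendsto (fun N => ∑ n ∈ Finset.range N,
      ((-1 : ℝ) ^ n * aR p n x + (-1 : ℝ) ^ n * ∑' y, aR p n y * kR p (x - y))) atTop
      (𝓝 (tau p x)) := by
    have h3 := (tendsto_const_nhds (x := tau p x)).sub (h.LN_tendsto x)
    rw [sub_zero] at h3
    refine h3.congr fun N => ?_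
    rw [← h.partSum N x]
    refine Finset.sum_congr rfl fun n _ => ?_
    ring
  have h3 := tendsto_nhds_unique h2 h1
  rw [h3, hs1.tsum_add hs3, e1]
  rfl

/-! ## The norm -/

theorem We_toReal (x : V d) : (We x).toReal = 1 + l1 x ^ 2 := by
  unfold We l1 l1n
  rw [ENNReal.toReal_add (by norm_num) (ENNReal.pow_ne_top (ENNReal.natCast_ne_top _)),
    ENNReal.toReal_one, ENNReal.toReal_pow, ENNReal.toReal_natCast]
  push_cast
  congr 2
  refine Finset.sum_congr rfl fun i _ => ?_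
  rw [Nat.cast_natAbs, Int.cast_abs]

theorem We_top (x : V d) : We x ≠ ⊤ := by
  unfold We
  exact ENNReal.add_ne_top.2 ⟨by norm_num, ENNReal.pow_ne_top (ENNReal.natCast_ne_top _)⟩

open Classical in
/-- the zeroth coefficient without the origin -/
noncomputable def b0 (p : ℝ) (x : V d) : ℝ≥0∞ := {x : V d | x ≠ 0}.indicator (PN p 0) x

theorem Hyp1.abs_le {p : ℝ} {s : ℝ≥0∞} (h : Hyp1 d p s) (x : V d) :
    ENNReal.ofReal |piR p x - dirac0 x| ≤ b0 p x + ∑' n, PN p (n + 1) x := by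
  have h0 := (h.summable_aR x).tsum_eq_zero_add
  have hs : Summable fun n => aR p (n + 1) x := by
    refine Summable.of_nonneg_of_le (fun n => aR_nonneg _ _ _) (fun n => h.aR_le (n + 1) x) ?_
    exact (summable_nat_add_iff 1).2
      ((summable_geometric_of_lt_one (r := (1 / 2 : ℝ)) (by norm_num) (by norm_num)).mul_left 72)
  have h1 : |∑' n, (-1 : ℝ) ^ (n + 1) * aR p (n + 1) x| ≤ ∑' n, aR p (n + 1) x := by
    have h2 : Summable fun n => ‖(-1 : ℝ) ^ (n + 1) * aR p (n + 1) x‖ := by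
      refine hs.congr fun n => ?_
      rw [Real.norm_eq_abs, abs_mul, abs_pow, abs_neg, abs_one, one_pow, one_mul,
        abs_of_nonneg (aR_nonneg _ _ _)]
    refine (norm_tsum_le_tsum_norm h2).trans (le_of_eq (tsum_congr fun n => ?_))
    rw [Real.norm_eq_abs, abs_mul, abs_pow, abs_neg, abs_one, one_pow, one_mul,
      abs_of_nonneg (aR_nonneg _ _ _)]
  have h2 : |aR p 0 x - dirac0 x| = (b0 p x).toReal := by
    unfold b0 dirac0 aR
    by_cases hx : x = 0
    · subst hx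
      rw [indicator_of_notMem (by simp), if_pos rfl, PN_zero_zero]
      simp
    · rw [indicator_of_mem (by simpa using hx), if_neg hx, sub_zero,
        abs_of_nonneg ENNReal.toReal_nonneg]
  have h3 : |piR p x - dirac0 x| ≤ (b0 p x).toReal + ∑' n, aR p (n + 1) x := by
    unfold piR
    rw [h0, pow_zero, one_mul, ← h2]
    have e : aR p 0 x + ∑' n, (-1 : ℝ) ^ (n + 1) * aR p (n + 1) x - dirac0 x =
        (aR p 0 x - dirac0 x) + ∑' n, (-1 : ℝ) ^ (n + 1) * aR p (n + 1) x := by ring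
    rw [e]
    exact (abs_add_le _ _).trans (add_le_add le_rfl h1)
  have hb : b0 p x ≠ ⊤ := by
    unfold b0
    by_cases hx : x ∈ {x : V d | x ≠ 0}
    · rw [indicator_of_mem hx]
      exact h.PN_top 0 x
    · rw [indicator_of_notMem hx]
      exact ENNReal.zero_ne_top
  refine (ENNReal.ofReal_le_ofReal h3).trans ?_
  rw [ENNReal.ofReal_add ENNReal.toReal_nonneg (tsum_nonneg fun n => aR_nonneg _ _ _),
    ENNReal.ofReal_toReal hb, ENNReal.ofReal_tsum_of_nonneg (fun n => aR_nonneg _ _ _) hs]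
  refine add_le_add le_rfl (ENNReal.tsum_le_tsum fun n => ?_)
  unfold aR
  rw [ENNReal.ofReal_toReal (h.PN_top _ _)]

theorem Hyp1.norm_le {p : ℝ} {s : ℝ≥0∞} (h : Hyp1 d p s) :
    ∑' x : V d, We x * ENNReal.ofReal |piR p x - dirac0 x| ≤ 2000000 * s := by
  have h1 : ∑' x : V d, We x * ENNReal.ofReal |piR p x - dirac0 x| ≤
      ∑' x : V d, (We x * b0 p x + ∑' n, We x * PN p (n + 1) x) := by
    refine ENNReal.tsum_le_tsum fun x => ?_
    rw [ENNReal.tsum_mul_left, ← mul_add]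
    exact mul_le_mul_right (h.abs_le x) _
  refine h1.trans ?_
  rw [ENNReal.tsum_add, ENNReal.tsum_comm]
  have h2 : ∑' x : V d, We x * b0 p x ≤ 9 * s := by
    have := PN_zero_le h.p0 h.p1 h.fin h.hs h.hs8
    refine le_trans (le_of_eq ?_) this
    unfold sumOn b0
    refine tsum_congr fun x => ?_
    by_cases hx : x ∈ {x : V d | x ≠ 0}
    · rw [indicator_of_mem hx, indicator_of_mem hx]
    · rw [indicator_of_notMem hx, indicator_of_notMem hx, mul_zero]
  have h3 : ∑' n : ℕ, ∑' x : V d, We x * PN p (n + 1) x ≤ 1440000 * s := by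
    calc ∑' n : ℕ, ∑' x : V d, We x * PN p (n + 1) x
        ≤ ∑' n : ℕ, 72 * (10000 * s) * (2 : ℝ≥0∞)⁻¹ ^ n := by
          refine ENNReal.tsum_le_tsum fun n => (h.sum_PN (n + 1)).trans ?_
          rw [pow_succ, mul_comm ((10000 * s) ^ n), ← mul_assoc]
          exact mul_le_mul_right (h.pow_le n) _
      _ = 1440000 * s := by
          rw [ENNReal.tsum_mul_left, ENNReal.tsum_geometric, ENNReal.one_sub_inv_two, inv_inv]
          ring
  refine (add_le_add h2 h3).trans ?_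
  rw [← add_mul]
  exact mul_le_mul_left (by norm_num) s

/-! ## Translation of the hypotheses and conclusions -/

theorem Je_eq (p : ℝ) (x : V d) : Je p x = ENNReal.ofReal (pJ p x) := by
  unfold Je pJ
  split_ifs with h
  · rfl
  · rw [ENNReal.ofReal_zero]

theorem tau_nonneg (p : ℝ) (x : V d) : 0 ≤ tau p x := by
  unfold tau tauW
  exact measureReal_nonneg

theorem pJ_nonneg {p : ℝ} (hp : 0 ≤ p) (x : V d) : 0 ≤ pJ p x := by
  unfold pJ
  split_ifs
  · exact hp
  · exact le_rfl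

theorem cpow_nonneg {f : V d → ℝ} (hf : ∀ x, 0 ≤ f x) (m : ℕ) (x : V d) : 0 ≤ cpow f m x := by
  induction m generalizing x with
  | zero =>
    unfold cpow dirac0
    split_ifs
    · exact zero_le_one
    · exact le_rfl
  | succ m ih =>
    unfold cpow conv
    exact tsum_nonneg fun y => mul_nonneg (hf y) (ih _)

theorem summable_pJ_mul (p : ℝ) (f : V d → ℝ) (x : V d) :
    Summable fun y => pJ p y * f (x - y) := by
  refine summable_of_hasFiniteSupport ((adj_finite (0 : V d)).subset fun y hy => ?_)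
  by_contra hn
  apply hy
  have hn : ¬ Adj 0 y := hn
  show pJ p y * f (x - y) = 0
  unfold pJ
  rw [if_neg hn, zero_mul]

theorem ofReal_conv_pJ {p : ℝ} (hp : 0 ≤ p) {f : V d → ℝ} (hf : ∀ x, 0 ≤ f x) (x : V d) :
    ENNReal.ofReal (conv (pJ p) f x) = cE (Je p) (fun y => ENNReal.ofReal (f y)) x := by
  rw [ofReal_conv (pJ_nonneg hp) hf (summable_pJ_mul p f x)]
  unfold cE
  exact tsum_congr fun y => by rw [Je_eq]

theorem kR_eq {p : ℝ} (hp : 0 ≤ p) (x : V d) : kR p x = conv (pJ p) (tau p) x := by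
  have h := ofReal_conv_pJ hp (tau_nonneg (d := d) p) x
  have h2 : cE (Je p) (fun y : V d => ENNReal.ofReal (tau p y)) x = Ke p x := by
    unfold Ke cE
    exact tsum_congr fun y => by rw [Ge_eq]
  have h3 : 0 ≤ conv (pJ p) (tau (d := d) p) x :=
    tsum_nonneg fun y => mul_nonneg (pJ_nonneg hp y) (tau_nonneg p _)
  unfold kR
  rw [← h2, ← h, ENNReal.toReal_ofReal h3]

theorem lace1 : Lace1 := by
  refine ⟨2000000, by norm_num, ?_⟩
  intro d p s _ hp hp1 hdec hs hCs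
  have hdec' : ExpDec d p := by
    obtain ⟨C, -, c, hc, h⟩ := hdec
    exact ⟨C, c, hc, h⟩
  have hs0 : 0 ≤ s :=
    (tsum_nonneg fun y => mul_nonneg (pJ_nonneg hp y)
      (cpow_nonneg (tau_nonneg p) 8 _)).trans (hs 0)
  have hH : Hyp1 d p (ENNReal.ofReal s) := by
    refine ⟨hp, hp1, finCl_of_sum (tsum_Ge_ne_top hdec'), fun x => ?_, ?_⟩
    · have h1 := ofReal_conv_pJ hp (cpow_nonneg (tau_nonneg (d := d) p) 8) x
      have h2 : cE (Je p) (fun y : V d => ENNReal.ofReal (cpow (tau p) 8 y)) x =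
          cE (Je p) (cpowE (Ge p) 8) x := by
        unfold cE
        exact tsum_congr fun y => by rw [cpowE_Ge hdec']
      rw [← h2, ← h1]
      exact ENNReal.ofReal_le_ofReal (hs x)
    · have e : (20000 : ℝ≥0∞) = ENNReal.ofReal 20000 := by simp
      rw [e, ← ENNReal.ofReal_mul (by norm_num)]
      exact ENNReal.ofReal_le_one.2 (by linarith)
  have hn := hH.norm_le
  have hconv : ∀ x : V d, We x * ENNReal.ofReal |piR p x - dirac0 x| =
      ENNReal.ofReal ((1 + l1 x ^ 2) * |piR p x - dirac0 x|) := by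
    intro x
    rw [ENNReal.ofReal_mul (by positivity), ← We_toReal, ENNReal.ofReal_toReal (We_top x)]
  simp only [hconv] at hn
  have e2 : (2000000 : ℝ≥0∞) * ENNReal.ofReal s = ENNReal.ofReal (2000000 * s) := by
    rw [ENNReal.ofReal_mul (by norm_num)]
    simp
  rw [e2] at hn
  have hnn : ∀ x : V d, 0 ≤ (1 + l1 x ^ 2) * |piR p x - dirac0 x| := fun x => by positivity
  have hsum : Summable fun x : V d => (1 + l1 x ^ 2) * |piR p x - dirac0 x| := by
    have h1 := ENNReal.summable_toReal (ne_top_of_le_ne_top ENNReal.ofReal_ne_top hn)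
    exact h1.congr fun x => ENNReal.toReal_ofReal (hnn x)
  refine ⟨fun x => piR p x - dirac0 x, hsum, ?_, ?_⟩
  · rw [← ENNReal.ofReal_tsum_of_nonneg hnn hsum] at hn
    exact (ENNReal.ofReal_le_ofReal_iff (by positivity)).1 hn
  · intro x
    have hk : ∀ y : V d, kR p y = conv (pJ p) (tau p) y := kR_eq hp
    have hk1 : ∀ y : V d, |kR p y| ≤ 1 := by
      intro y
      rw [abs_of_nonneg (kR_nonneg p y)]
      exact ENNReal.toReal_le_of_le_ofReal zero_le_one (by simpa using hH.Ke_le_one y)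
    have habs : Summable fun y : V d => |piR p y - dirac0 y| := by
      refine Summable.of_nonneg_of_le (fun y => abs_nonneg _) (fun y => ?_) hsum
      exact le_mul_of_one_le_left (abs_nonneg _) (by nlinarith [sq_nonneg (l1 y)])
    have hq : Summable fun y : V d => (piR p y - dirac0 y) * kR p (x - y) := by
      refine Summable.of_norm_bounded habs fun y => ?_
      rw [Real.norm_eq_abs, abs_mul]
      exact mul_le_of_le_one_right (abs_nonneg _) (hk1 _)
    have hd : HasSum (fun y : V d => dirac0 y * kR p (x - y)) (kR p x) := by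
      have := hasSum_single (f := fun y : V d => dirac0 y * kR p (x - y)) 0 (fun y hy => by
        simp only [dirac0, if_neg hy, zero_mul])
      simpa [dirac0] using this
    have h1 := hH.lace x
    have h2 : ∑' y, piR p y * kR p (x - y) =
        kR p x + ∑' y, (piR p y - dirac0 y) * kR p (x - y) := by
      rw [← hd.tsum_eq, ← hd.summable.tsum_add hq]
      exact tsum_congr fun y => by ring
    rw [h1, h2, hk x]
    have h3 : conv (fun x => piR p x - dirac0 x) (conv (pJ p) (tau p)) x =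
        ∑' y, (piR p y - dirac0 y) * kR p (x - y) := by
      unfold conv
      refine tsum_congr fun y => ?_
      rw [hk]
      rfl
    rw [h3]
    ring

end Pool.Agent.helper55.FP.L1
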