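import Pool.Agent.helper85.L1.Defs1
import Pool.Agent.helper55.FP.BK
import Pool.Agent.helper55.FP.Symm

/-!
# Lace expansion, part L1, module BKn: BK for several families
-/

set_option autoImplicit false

open MeasureTheory Set
open scoped ENNReal

namespace Pool.Agent.helper55.FP.L1

variable {d : ℕ}

theorem Ge_eq (p : ℝ) (x : V d) : Ge p x = ENNReal.ofReal (tau p x) := by
  unfold Ge tau tauW
  exact (ofReal_measureReal (measure_ne_top _ _)).symm

theorem P_conn (p : ℝ) (a b : V d) : P d {U | Conn (op p U) univ a b} = Ge p (b - a) := by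
  rw [Ge_eq, ← tauW_univ]
  unfold tauW
  exact (ofReal_measureReal (measure_ne_top _ _)).symm

theorem P_cw (p : ℝ) (a b : V d) : P d (Ev p (cw univ a b)) = Ge p (b - a) := by
  rw [← P_conn]
  congr 1
  ext U
  exact conn_op_iff.symm

theorem Ge_even (p : ℝ) : EvenE (Ge (d := d) p) := by
  intro x
  rw [Ge_eq, Ge_eq, tau_neg]

theorem Ge_zero (p : ℝ) : Ge p (0 : V d) = 1 := by
  rw [Ge_eq, tau_zero, ENNReal.ofReal_one]

theorem Ge_le_one (p : ℝ) (x : V d) : Ge p x ≤ 1 := prob_le_one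

/-- BK inequality for `n` families (induction on `n` from `bk_ennreal`) -/
theorem bk_multi (p : ℝ) {n : ℕ} (𝒜 : Fin n → Set (Finset (E d))) :
    P d {U | ∃ K : Fin n → Finset (E d), (∀ j, K j ∈ 𝒜 j) ∧
      (∀ i j, i ≠ j → Disjoint (K i) (K j)) ∧ ∀ j, ∀ e ∈ K j, U e ≤ p} ≤
      ∏ j, P d (Ev p (𝒜 j)) := by
  classical
  induction n with
  | zero =>
    rw [Fin.prod_univ_zero]
    exact prob_le_one
  | succ n ih =>
    set ℬ : Set (Finset (E d)) := {L | ∃ K : Fin n → Finset (E d), (∀ j, K j ∈ 𝒜 j.succ) ∧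
      (∀ i j, i ≠ j → Disjoint (K i) (K j)) ∧ ∀ j, K j ⊆ L} with hℬ
    have h1 : P d (Ev p ℬ) ≤ ∏ j : Fin n, P d (Ev p (𝒜 j.succ)) := by
      refine le_trans (measure_mono ?_) (ih fun j => 𝒜 j.succ)
      rintro U ⟨L, ⟨K, hK, hd, hL⟩, hU⟩
      exact ⟨K, hK, hd, fun j e he => hU e (hL j he)⟩
    rw [Fin.prod_univ_succ]
    refine le_trans ?_ (mul_le_mul' le_rfl h1)
    refine le_trans (measure_mono ?_) (BK.bk_ennreal p p (𝒜 0) ℬ)
    rintro U ⟨K, hK, hd, hU⟩
    refine ⟨K 0, hK 0, Finset.univ.biUnion fun j : Fin n => K j.succ,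
      ⟨fun j => K j.succ, fun j => hK _, fun i j hij => hd _ _ fun h => hij (Fin.succ_injective _ h),
        fun j => Finset.subset_biUnion_of_mem (fun j : Fin n => K j.succ) (Finset.mem_univ j)⟩,
      ?_, hU 0, ?_⟩
    · rw [Finset.disjoint_biUnion_right]
      intro j _
      exact hd _ _ (Fin.succ_ne_zero j).symm
    · intro e he
      obtain ⟨j, -, hj⟩ := Finset.mem_biUnion.1 he
      exact hU _ e hj

/-- the same for connections -/
theorem bk_conn (p : ℝ) {n : ℕ} (a b : Fin n → V d) :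
    P d {U | ∃ K : Fin n → Finset (E d), (∀ j, K j ∈ cw univ (a j) (b j)) ∧
      (∀ i j, i ≠ j → Disjoint (K i) (K j)) ∧ ∀ j, (↑(K j) : Set (E d)) ⊆ op p U} ≤
      ∏ j, Ge p (b j - a j) := by
  have h := bk_multi p fun j => cw univ (a j) (b j)
  simp only [P_cw] at h
  exact h

end Pool.Agent.helper55.FP.L1
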