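import Pool.Agent.helper85.L1.Struct
import Pool.Agent.helper85.L1.BKn

/-!
# Lace expansion, part L1, module Bound: diagrammatic bounds of one step
-/

set_option autoImplicit false

open MeasureTheory Set
open scoped ENNReal

namespace Pool.Agent.helper55.FP.L1

variable {d : ℕ}

/-- the event of disjoint connections -/
def Bound_ev (p : ℝ) {n : ℕ} (a b : Fin n → V d) : Set (Cfg d) :=
  {U | ∃ K : Fin n → Finset (E d), (∀ j, K j ∈ cw univ (a j) (b j)) ∧
      (∀ i j, i ≠ j → Disjoint (K i) (K j)) ∧ ∀ j, (↑(K j) : Set (E d)) ⊆ op p U}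

theorem Bound_ev_le (p : ℝ) {n : ℕ} (a b : Fin n → V d) :
    P d (Bound_ev p a b) ≤ ∏ j, Ge p (b j - a j) := bk_conn p a b

/-- union bound over `z ∈ A` -/
theorem Bound_union (A : Set (V d)) (S : V d → Set (Cfg d)) (f : V d → ℝ≥0∞)
    (h : ∀ z, P d (S z) ≤ f z) : P d (⋃ z ∈ A, S z) ≤ sumOn A f := by
  have h1 : (⋃ z ∈ A, S z) = ⋃ z, {U | z ∈ A ∧ U ∈ S z} := by
    ext U; simp
  rw [h1]
  refine (measure_iUnion_le _).trans ?_
  refine ENNReal.tsum_le_tsum fun z => ?_
  by_cases hz : z ∈ A
  · rw [Set.indicator_of_mem hz]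
    refine le_trans (measure_mono ?_) (h z)
    intro U hU
    exact hU.2
  · rw [Set.indicator_of_notMem hz]
    have : {U | z ∈ A ∧ U ∈ S z} = ∅ := by
      ext U; simp [hz]
    rw [this, measure_empty]

/-- `cut_struct`, union bound over `z ∈ A` and `t`, `bk_conn` with `n = 4` -/
theorem ce_le {p : ℝ} (hfin : FinCl d p) (A : Set (V d)) (v x : V d) :
    ce p A v x ≤ sumOn A (fun z => ∑' t, Ge p (t - v) * Ge p (z - t) * Ge p (x - z) * Ge p (x - t)) := by
  have hsub : ({U | Cut (op p U) A v x} : Set (Cfg d)) ≤ᵐ[P d]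
      (⋃ z ∈ A, ⋃ t, Bound_ev p ![v, t, z, t] ![t, z, x, x] : Set (Cfg d)) := by
    filter_upwards [hfin] with U hU
    intro hc
    obtain ⟨z, hz, t, K, hK, hdis, h0, h1, h2, h3⟩ := cut_struct (hU v) hc
    refine mem_iUnion₂.2 ⟨z, hz, mem_iUnion.2 ⟨t, K, ?_, hdis, hK⟩⟩
    intro j
    fin_cases j
    · exact h0
    · exact h1
    · exact h2
    · exact h3
  refine (measure_mono_ae hsub).trans (Bound_union A _ _ fun z => ?_)
  refine (measure_iUnion_le _).trans (ENNReal.tsum_le_tsum fun t => ?_)
  refine (Bound_ev_le p _ _).trans (le_of_eq ?_)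
  rw [Fin.prod_univ_four]
  simp

/-- all pairs of six sets -/
theorem Bound_six {K : Fin 6 → Finset (E d)}
    (h01 : Disjoint (K 0) (K 1)) (h02 : Disjoint (K 0) (K 2)) (h03 : Disjoint (K 0) (K 3))
    (h04 : Disjoint (K 0) (K 4)) (h05 : Disjoint (K 0) (K 5)) (h12 : Disjoint (K 1) (K 2))
    (h13 : Disjoint (K 1) (K 3)) (h14 : Disjoint (K 1) (K 4)) (h15 : Disjoint (K 1) (K 5))
    (h23 : Disjoint (K 2) (K 3)) (h24 : Disjoint (K 2) (K 4)) (h25 : Disjoint (K 2) (K 5))
    (h34 : Disjoint (K 3) (K 4)) (h35 : Disjoint (K 3) (K 5)) (h45 : Disjoint (K 4) (K 5)) :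
    ∀ i j, i ≠ j → Disjoint (K i) (K j) := by
  have key : ∀ i j : Fin 6, i < j → Disjoint (K i) (K j) := by
    intro i j hij
    fin_cases i <;> fin_cases j <;> first | exact absurd hij (by decide) | assumption
  intro i j hij
  rcases lt_or_gt_of_ne hij with h | h
  · exact key i j h
  · exact (key j i h).symm

theorem Bound_prod6 (p : ℝ) (a b : Fin 6 → V d) :
    P d (Bound_ev p a b) ≤ Ge p (b 0 - a 0) * Ge p (b 1 - a 1) * Ge p (b 2 - a 2) *
      Ge p (b 3 - a 3) * Ge p (b 4 - a 4) * Ge p (b 5 - a 5) := by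
  refine (Bound_ev_le p a b).trans (le_of_eq ?_)
  rw [Fin.prod_univ_six]

theorem Bound_lines (p : ℝ) (v t z u s z' : V d) :
    P d (Bound_ev p ![v, t, s, z, t, s] ![t, s, z, u, u, z'] ∪
      Bound_ev p ![v, t, z, s, t, s] ![t, z, s, u, u, z'] ∪
      Bound_ev p ![v, t, z, t, s, s] ![t, z, u, s, u, z'] ∪
      Bound_ev p ![v, s, t, z, t, s] ![s, t, z, u, u, z']) ≤
      lines4 p v t z u s * Ge p (z' - s) := by
  refine (measure_union_le _ _).trans ?_
  refine (add_le_add_left ((measure_union_le _ _).trans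
    (add_le_add_left (measure_union_le _ _) _)) _).trans ?_
  have h1 := Bound_prod6 p ![v, t, s, z, t, s] ![t, s, z, u, u, z']
  have h2 := Bound_prod6 p ![v, t, z, s, t, s] ![t, z, s, u, u, z']
  have h3 := Bound_prod6 p ![v, t, z, t, s, s] ![t, z, u, s, u, z']
  have h4 := Bound_prod6 p ![v, s, t, z, t, s] ![s, t, z, u, u, z']
  refine (add_le_add (add_le_add (add_le_add h1 h2) h3) h4).trans (le_of_eq ?_)
  simp only [lines4, Matrix.cons_val]
  ring

/-- `cut_struct`, then `attach_dj` (`n = 4`, `M` = the union of the `K j` and of a witness of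
`v ↔ z'`), union bound over `z ∈ A`, `t`, `s` and the line that contains `s`, `bk_conn` with `n = 6` -/
theorem ce_conn_le {p : ℝ} (hfin : FinCl d p) (A : Set (V d)) (v u z' : V d) :
    P d {U | Cut (op p U) A v u ∧ Conn (op p U) univ v z'} ≤
      sumOn A (fun z => ∑' t, ∑' s, lines4 p v t z u s * Ge p (z' - s)) := by
  have hsub : ({U | Cut (op p U) A v u ∧ Conn (op p U) univ v z'} : Set (Cfg d)) ≤ᵐ[P d]
      (⋃ z ∈ A, ⋃ t, ⋃ s, (Bound_ev p ![v, t, s, z, t, s] ![t, s, z, u, u, z'] ∪
      Bound_ev p ![v, t, z, s, t, s] ![t, z, s, u, u, z'] ∪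
      Bound_ev p ![v, t, z, t, s, s] ![t, z, u, s, u, z'] ∪
      Bound_ev p ![v, s, t, z, t, s] ![s, t, z, u, u, z']) : Set (Cfg d)) := by
    filter_upwards [hfin] with U hU
    rintro ⟨hc, hcon⟩
    obtain ⟨z, hz, t, K, hK, hdis, h0, h1, h2, h3⟩ := cut_struct (hU v) hc
    obtain ⟨L, hLc, hL⟩ := conn_iff_wit.1 hcon
    have hcw : ∀ j, K j ∈ cw univ ((![v, t, z, t] : Fin 4 → V d) j)
        ((![t, z, u, u] : Fin 4 → V d) j) := by
      intro j
      fin_cases j
      · exact h0
      · exact h1
      · exact h2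
      · exact h3
    set M : Finset (E d) := Finset.univ.biUnion K ∪ L with hM
    have hKM : ∀ j, K j ⊆ M := fun j =>
      (Finset.subset_biUnion_of_mem K (Finset.mem_univ j)).trans Finset.subset_union_left
    have hMop : (↑M : Set (E d)) ⊆ op p U := by
      intro e he
      rw [hM, Finset.coe_union, Finset.coe_biUnion] at he
      rcases he with he | he
      · obtain ⟨j, -, hj⟩ := mem_iUnion₂.1 he
        exact hK j hj
      · exact hL he
    have hMc : M ∈ cw univ ((![v, t, z, t] : Fin 4 → V d) 0) z' :=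
      cw_mono hLc (by rw [hM]; exact Finset.subset_union_right)
    obtain ⟨K', hK', i, s, -, L', hL'M, hL'd, hL'c, Ka, hKa, Kb, hKb, hab, hai, hbi⟩ :=
      attach_dj hcw hdis hKM 0 hMc
    have hdis' : ∀ i j, i ≠ j → Disjoint (K' i) (K' j) := fun i j hij =>
      (hdis i j hij).mono (hK' i).1 (hK' j).1
    have hop' : ∀ j, (↑(K' j) : Set (E d)) ⊆ op p U := fun j e he =>
      hK j ((hK' j).1 he)
    have hLop : (↑L' : Set (E d)) ⊆ op p U := fun e he => hMop (hL'M he)
    have hKaop : (↑Ka : Set (E d)) ⊆ op p U := fun e he => hop' i (hai he)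
    have hKbop : (↑Kb : Set (E d)) ⊆ op p U := fun e he => hop' i (hbi he)
    have hK0 := (hK' 0).2
    have hK1 := (hK' 1).2
    have hK2 := (hK' 2).2
    have hK3 := (hK' 3).2
    have d01 := hdis' 0 1 (by decide)
    have d02 := hdis' 0 2 (by decide)
    have d03 := hdis' 0 3 (by decide)
    have d12 := hdis' 1 2 (by decide)
    have d13 := hdis' 1 3 (by decide)
    have d23 := hdis' 2 3 (by decide)
    have l0 := hL'd 0
    have l1 := hL'd 1
    have l2 := hL'd 2
    have l3 := hL'd 3
    refine mem_iUnion₂.2 ⟨z, hz, mem_iUnion.2 ⟨t, mem_iUnion.2 ⟨s, ?_⟩⟩⟩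
    have o0 := hop' 0
    have o1 := hop' 1
    have o2 := hop' 2
    have o3 := hop' 3
    fin_cases i
    · refine Or.inr ⟨![Ka, Kb, K' 1, K' 2, K' 3, L'], ?_, ?_, ?_⟩
      · intro j
        fin_cases j
        · exact hKa
        · exact hKb
        · exact hK1
        · exact hK2
        · exact hK3
        · exact hL'c
      · exact Bound_six hab (d01.mono_left hai) (d02.mono_left hai) (d03.mono_left hai)
          (l0.symm.mono_left hai) (d01.mono_left hbi) (d02.mono_left hbi) (d03.mono_left hbi)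
          (l0.symm.mono_left hbi) d12 d13 l1.symm d23 l2.symm l3.symm
      · intro j
        fin_cases j
        · exact hKaop
        · exact hKbop
        · exact o1
        · exact o2
        · exact o3
        · exact hLop
    · refine Or.inl (Or.inl (Or.inl ⟨![K' 0, Ka, Kb, K' 2, K' 3, L'], ?_, ?_, ?_⟩))
      · intro j
        fin_cases j
        · exact hK0
        · exact hKa
        · exact hKb
        · exact hK2
        · exact hK3
        · exact hL'c
      · exact Bound_six (d01.mono_right hai) (d01.mono_right hbi) d02 d03 l0.symm hab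
          (d12.mono_left hai) (d13.mono_left hai) (l1.symm.mono_left hai) (d12.mono_left hbi)
          (d13.mono_left hbi) (l1.symm.mono_left hbi) d23 l2.symm l3.symm
      · intro j
        fin_cases j
        · exact o0
        · exact hKaop
        · exact hKbop
        · exact o2
        · exact o3
        · exact hLop
    · refine Or.inl (Or.inl (Or.inr ⟨![K' 0, K' 1, Ka, Kb, K' 3, L'], ?_, ?_, ?_⟩))
      · intro j
        fin_cases j
        · exact hK0
        · exact hK1
        · exact hKa
        · exact hKb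
        · exact hK3
        · exact hL'c
      · exact Bound_six d01 (d02.mono_right hai) (d02.mono_right hbi) d03 l0.symm
          (d12.mono_right hai) (d12.mono_right hbi) d13 l1.symm hab (d23.mono_left hai)
          (l2.symm.mono_left hai) (d23.mono_left hbi) (l2.symm.mono_left hbi) l3.symm
      · intro j
        fin_cases j
        · exact o0
        · exact o1
        · exact hKaop
        · exact hKbop
        · exact o3
        · exact hLop
    · refine Or.inl (Or.inr ⟨![K' 0, K' 1, K' 2, Ka, Kb, L'], ?_, ?_, ?_⟩)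
      · intro j
        fin_cases j
        · exact hK0
        · exact hK1
        · exact hK2
        · exact hKa
        · exact hKb
        · exact hL'c
      · exact Bound_six d01 d02 (d03.mono_right hai) (d03.mono_right hbi) l0.symm d12
          (d13.mono_right hai) (d13.mono_right hbi) l1.symm (d23.mono_right hai)
          (d23.mono_right hbi) l2.symm hab (l3.symm.mono_left hai) (l3.symm.mono_left hbi)
      · intro j
        fin_cases j
        · exact o0
        · exact o1
        · exact o2
        · exact hKaop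
        · exact hKbop
        · exact hLop
  refine (measure_mono_ae hsub).trans (Bound_union A _ _ fun z => ?_)
  refine (measure_iUnion_le _).trans (ENNReal.tsum_le_tsum fun t => ?_)
  refine (measure_iUnion_le _).trans (ENNReal.tsum_le_tsum fun s => ?_)
  exact Bound_lines p v t z u s z'

end Pool.Agent.helper55.FP.L1
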