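import Pool.Agent.helper85.L1.Erase

/-!
# Lace expansion, part L1, module Dangle: closing the pivotal edge
-/

set_option autoImplicit false

open MeasureTheory Set
open scoped ENNReal

namespace Pool.Agent.helper55.FP.L1

variable {d : ℕ}

private theorem edge {O : Set (E d)} {W : Set (V d)} {e : E d} {a b : V d} (he : e ∈ O)
    (hj : Joins e a b) (ha : a ∈ W) (hb : b ∈ W) : Conn O W a b :=
  (Conn.refl ha).snoc ⟨ha, hb, e, he, hj⟩

/-- connections from `b` off the cluster of `v` -/
theorem Dangle.off {O : Set (E d)} {v b x : V d} (hb : b ∉ Cl O univ v)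
    (h : Conn O univ b x) : Conn O (Cl O univ v)ᶜ b x := by
  obtain ⟨_, hr⟩ := h
  induction hr with
  | refl => exact Conn.refl hb
  | tail hab hbc ih =>
    refine ih.snoc ⟨ih.right, fun hc => ih.right ?_, hbc.2.2⟩
    obtain ⟨_, _, e, he, hj⟩ := hbc
    exact Conn.trans hc (edge he hj.symm (mem_univ _) (mem_univ _))

theorem Dangle.thr {O : Set (E d)} {A : Set (V d)} {v a b : V d} {e : E d} (hj : Joins e a b)
    (h : ¬ Conn (O \ {e}) univ v b) : Thr O A v a ↔ Thr (O \ {e}) A v a := by
  have key : ∀ W : Set (V d), Conn O W v a ↔ Conn (O \ {e}) W v a := by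
    intro W
    refine ⟨fun hc => ?_, fun hc => hc.mono diff_subset subset_rfl⟩
    rcases conn_erase hj hc with h1 | h1 | h1
    · exact h1
    · exact h1.1
    · exact (h (h1.1.mono subset_rfl (subset_univ _))).elim
  unfold Thr
  rw [key, key]

theorem Dangle.piv {O : Set (E d)} {v a b : V d} {e : E d} (hj : Joins e a b)
    (h : ¬ Conn (O \ {e}) univ v b) {e' : E d} {a' b' : V d} :
    Piv O e' a' b' v a ↔ Piv (O \ {e}) e' a' b' v a := by
  have sub1 : (O \ {e'}) \ {e} ⊆ O \ {e} := fun y hy => ⟨hy.1.1, hy.2⟩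
  have sub2 : (O \ {e'}) \ {e} ⊆ (O \ {e}) \ {e'} := fun y hy => ⟨⟨hy.1.1, hy.2⟩, hy.1.2⟩
  have sub3 : (O \ {e}) \ {e'} ⊆ O \ {e'} := fun y hy => ⟨hy.1.1, hy.2⟩
  constructor
  · intro hp
    have hne : e' ≠ e := by
      rintro rfl
      have hor : a' = a ∨ a' = b := by
        rcases hj with ⟨h1, h2⟩ | ⟨h1, h2⟩ <;> rcases hp.joins with ⟨h3, h4⟩ | ⟨h3, h4⟩
        · exact Or.inl (h3.trans h1.symm)
        · exact Or.inr (h4.trans h2.symm)
        · exact Or.inr (h3.trans h1.symm)
        · exact Or.inl (h4.trans h2.symm)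
      rcases hor with h1 | h1
      · subst h1
        exact hp.cut hp.left
      · subst h1
        exact h hp.left
    have hl : Conn ((O \ {e}) \ {e'}) univ v a' := by
      rcases conn_erase hj hp.left with h1 | h1 | h1
      · exact h1.mono sub2 subset_rfl
      · exact (hp.cut (h1.1.mono diff_subset subset_rfl)).elim
      · exact (h (h1.1.mono sub1 subset_rfl)).elim
    refine ⟨⟨hp.mem, hne⟩, hp.joins, hl, ?_, fun hc => hp.cut (hc.mono sub3 subset_rfl)⟩
    rcases conn_erase hj hp.right with h1 | h1 | h1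
    · exact h1.mono sub2 subset_rfl
    · exact h1.1.mono sub2 subset_rfl
    · refine (h (((hl.mono diff_subset subset_rfl).trans
        (edge ⟨hp.mem, hne⟩ hp.joins (mem_univ _) (mem_univ _))).trans
          (h1.1.mono sub1 subset_rfl))).elim
  · intro hp
    refine ⟨hp.mem.1, hp.joins, hp.left.mono sub3 subset_rfl, hp.right.mono sub3 subset_rfl,
      fun hc => ?_⟩
    rcases conn_erase hj hc with h1 | h1 | h1
    · exact hp.cut (h1.mono sub2 subset_rfl)
    · exact hp.cut (h1.1.mono sub2 subset_rfl)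
    · exact h (h1.1.mono sub1 subset_rfl)

theorem Dangle.thr' {O : Set (E d)} {A : Set (V d)} {v a b a' : V d} {e : E d} (hj : Joins e a b)
    (h : ¬ Conn (O \ {e}) univ v b) (hl : Conn (O \ {e}) univ v a') :
    Thr O A v a' ↔ Thr (O \ {e}) A v a' := by
  constructor
  · intro ht
    exact ⟨hl, fun hc => ht.2 (hc.mono diff_subset subset_rfl)⟩
  · intro ht
    refine ⟨ht.1.mono diff_subset subset_rfl, fun hc => ?_⟩
    rcases conn_erase hj hc with h1 | h1 | h1
    · exact ht.2 h1
    · exact h (hl.trans (h1.2.mono subset_rfl (subset_univ _)).symm)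
    · exact h (h1.1.mono subset_rfl (subset_univ _))

/-- if the end of `c` is not connected to `v` without `c.1`, then the event `Cut` at the beginning of
`c` does not depend on `c.1` -/
theorem cut_erase {O : Set (E d)} {A : Set (V d)} {v : V d} {c : DE d}
    (h : tgt c ∉ Cl (O \ {c.1}) univ v) :
    Cut O A v (src c) ↔ Cut (O \ {c.1}) A v (src c) := by
  have hj := joins_src_tgt c
  have h' : ¬ Conn (O \ {c.1}) univ v (tgt c) := h
  unfold Cut
  refine and_congr (Dangle.thr hj h') (forall_congr' fun e' => forall_congr' fun a' =>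
    forall_congr' fun b' => ?_)
  rw [Dangle.piv hj h']
  refine imp_congr_right fun hp => not_congr (Dangle.thr' hj h' ?_)
  exact hp.left.mono diff_subset subset_rfl

theorem cut_piv_iff {O : Set (E d)} {A : Set (V d)} {v x : V d} {c : DE d} :
    (Cut O A v (src c) ∧ Piv O c.1 (src c) (tgt c) v x) ↔
      (c.1 ∈ O ∧ Cut (O \ {c.1}) A v (src c) ∧
        Conn O (Cl (O \ {c.1}) univ v)ᶜ (tgt c) x) := by
  constructor
  · rintro ⟨hc, hp⟩
    have hb : tgt c ∉ Cl (O \ {c.1}) univ v := fun hb => hp.cut (Conn.trans hb hp.right)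
    exact ⟨hp.mem, (cut_erase hb).1 hc, (Dangle.off hb hp.right).mono diff_subset subset_rfl⟩
  · rintro ⟨he, hc, hx⟩
    have hb : tgt c ∉ Cl (O \ {c.1}) univ v := hx.left
    have ha : Conn (O \ {c.1}) univ v (src c) := hc.1.1
    refine ⟨(cut_erase hb).2 hc, he, joins_src_tgt c, ha, ?_, hx.right⟩
    rcases conn_erase (joins_src_tgt c) hx with h1 | h1 | h1
    · exact h1.mono subset_rfl (subset_univ _)
    · exact (h1.1.right ha).elim
    · exact (h1.2.left ha).elim

end Pool.Agent.helper55.FP.L1
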