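import Pool.Agent.helper55.FP.LDefs
import Pool.Agent.helper55.FP.Conn

/-!
# Lace expansion, part L1 (probability): definitions

`Thr O A v x` : `v` and `x` are connected, but not off `A`.
`Piv O e a b v x` : the open edge `e`, crossed from `a` to `b`, is pivotal for `v → x`.
`Cut O A v x` : the event `E'(v,x;A)` of Hara and Slade.
Everything probabilistic is `[0,∞]`-valued.
-/

set_option autoImplicit false

open MeasureTheory Set
open scoped ENNReal

namespace Pool.Agent.helper55.FP.L1

variable {d : ℕ}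

/-! ## Combinatorics -/

/-- `v` and `x` are connected, and every open path from `v` to `x` meets `A` -/
def Thr (O : Set (E d)) (A : Set (V d)) (v x : V d) : Prop :=
  Conn O univ v x ∧ ¬ Conn O Aᶜ v x

/-- the open edge `e`, from `a` to `b`, is pivotal for the connection from `v` to `x` -/
structure Piv (O : Set (E d)) (e : E d) (a b v x : V d) : Prop where
  mem : e ∈ O
  joins : Joins e a b
  left : Conn (O \ {e}) univ v a
  right : Conn (O \ {e}) univ b x
  cut : ¬ Conn (O \ {e}) univ v x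

/-- the event `E'(v,x;A)`: `v` and `x` are connected through `A`, but `v` is not connected through
`A` to the beginning of any pivotal edge -/
def Cut (O : Set (E d)) (A : Set (V d)) (v x : V d) : Prop :=
  Thr O A v x ∧ ∀ e a b, Piv O e a b v x → ¬ Thr O A v a

/-- directed edges -/
abbrev DE (d : ℕ) := E d × Bool

/-- beginning of a directed edge -/
def src (c : DE d) : V d := if c.2 then c.1.1 else tip c.1

/-- end of a directed edge -/
def tgt (c : DE d) : V d := if c.2 then tip c.1 else c.1.1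

/-! ## Functions with values in `[0,∞]` -/

/-- the two-point function -/
noncomputable def Ge (p : ℝ) (x : V d) : ℝ≥0∞ := P d {U | Conn (op p U) univ 0 x}

open Classical in
/-- `p` times the indicator of the neighbours of the origin -/
noncomputable def Je (p : ℝ) (x : V d) : ℝ≥0∞ := if Adj 0 x then ENNReal.ofReal p else 0

/-- convolution -/
noncomputable def cE (f g : V d → ℝ≥0∞) (x : V d) : ℝ≥0∞ := ∑' y, f y * g (x - y)

open Classical in
/-- unit mass at the origin -/
noncomputable def diracE : V d → ℝ≥0∞ := fun x => if x = 0 then 1 else 0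

/-- convolution powers -/
noncomputable def cpowE (f : V d → ℝ≥0∞) : ℕ → V d → ℝ≥0∞
  | 0 => diracE
  | (m + 1) => cE f (cpowE f m)

/-- `ℓ¹` norm of a vertex, as a natural number -/
def l1n (x : V d) : ℕ := ∑ i, (x i).natAbs

/-- the weight `1 + |x|₁²` -/
noncomputable def We (x : V d) : ℝ≥0∞ := 1 + (l1n x : ℝ≥0∞) ^ 2

/-- majorant of the weighted two-point function: `3 τ * τ * τ` -/
noncomputable def ge (p : ℝ) (x : V d) : ℝ≥0∞ := 3 * cpowE (Ge p) 3 x

/-- even functions -/
def EvenE (f : V d → ℝ≥0∞) : Prop := ∀ x, f (-x) = f x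

/-- sum of a function over a set of vertices -/
noncomputable def sumOn (A : Set (V d)) (f : V d → ℝ≥0∞) : ℝ≥0∞ := ∑' z, A.indicator f z

/-! ## The expansion -/

/-- probability that `v` is connected to `x` through `A` -/
noncomputable def Le (p : ℝ) (A : Set (V d)) (v x : V d) : ℝ≥0∞ := P d {U | Thr (op p U) A v x}

/-- probability of `E'(v,x;A)` -/
noncomputable def ce (p : ℝ) (A : Set (V d)) (v x : V d) : ℝ≥0∞ := P d {U | Cut (op p U) A v x}

/-- `P(E'(v,u;A), C̃(v) = D)` where `u = src c` and `C̃(v)` is the cluster of `v` after closing the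
edge `c` -/
noncomputable def wt (p : ℝ) (A : Set (V d)) (v : V d) (c : DE d) (D : Set (V d)) : ℝ≥0∞ :=
  P d {U | Cut (op p U) A v (src c) ∧ Cl (op p U \ {c.1}) univ v = D}

/-- one step of the expansion:
`(Top F)(A; v, x) = p ∑_c E[1{E'(v, src c; A)} F(C̃^c(v); tgt c, x)]` -/
noncomputable def Top (p : ℝ) (F : Set (V d) → V d → V d → ℝ≥0∞) (A : Set (V d)) (v x : V d) :
    ℝ≥0∞ :=
  ∑' c : DE d, ENNReal.ofReal p * ∑' D : Finset (V d), wt p A v c ↑D * F ↑D (tgt c) x

/-- the kernel `p J * τ` -/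
noncomputable def Ke (p : ℝ) : V d → ℝ≥0∞ := cE (Je p) (Ge p)

/-- the expansion coefficients `π_n(x)` -/
noncomputable def PN (p : ℝ) (n : ℕ) (x : V d) : ℝ≥0∞ := (Top p)^[n] (ce p) {0} 0 x

/-- the remainders -/
noncomputable def LN (p : ℝ) (n : ℕ) (x : V d) : ℝ≥0∞ := (Top p)^[n] (Le p) {0} 0 x

/-- the bound that is propagated along the expansion: the weighted sum over `x` of `F(A; v, x)` is
at most `∑_{z ∈ A} (ge * H)(z - v)` with `∑ H ≤ h` -/
def BW (p : ℝ) (F : Set (V d) → V d → V d → ℝ≥0∞) (h : ℝ≥0∞) : Prop :=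
  ∃ H : V d → ℝ≥0∞, ∑' y, H y ≤ h ∧
    ∀ A v, ∑' x, We (x - v) * F A v x ≤ sumOn A (fun z => cE (ge p) H (z - v))

/-- the four lines of `E'(v,u;A)` (`v-t`, `t-z`, `z-u`, `t-u`, `z ∈ A`), one of them passing through
`s` -/
noncomputable def lines4 (p : ℝ) (v t z u s : V d) : ℝ≥0∞ :=
  Ge p (t - v) * (Ge p (s - t) * Ge p (z - s)) * Ge p (u - z) * Ge p (u - t) +
  Ge p (t - v) * Ge p (z - t) * (Ge p (s - z) * Ge p (u - s)) * Ge p (u - t) +
  Ge p (t - v) * Ge p (z - t) * Ge p (u - z) * (Ge p (s - t) * Ge p (u - s)) +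
  (Ge p (s - v) * Ge p (t - s)) * Ge p (z - t) * Ge p (u - z) * Ge p (u - t)

/-- almost surely all clusters are finite -/
def FinCl (d : ℕ) (p : ℝ) : Prop :=
  ∀ᵐ U ∂(P d), ∀ v : V d, (Cl (op p U) univ v).Finite

/-- exponential decay at `p` -/
def ExpDec (d : ℕ) (p : ℝ) : Prop :=
  ∃ C c : ℝ, 0 < c ∧ ∀ x : V d, tau p x ≤ C * Real.exp (-c * ‖x‖)

end Pool.Agent.helper55.FP.L1
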