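import Pool.Agent.helper85.L1.CutProb
import Pool.Agent.helper85.L1.BKn
import Pool.Agent.helper55.FP.Paths

/-!
# Lace expansion, part L1, module FirstEdge: first edge
-/

set_option autoImplicit false

open MeasureTheory Set
open scoped ENNReal

namespace Pool.Agent.helper55.FP.L1

variable {d : ℕ}

/-- one neighbour: the edge `e` is open, and `v` is connected to `x` without it -/
theorem firstEdge_one {p : ℝ} (hp : 0 ≤ p) (hp1 : p ≤ 1) (e : E d) (v x : V d) :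
    P d {U : Cfg d | ∃ K ∈ {M : Finset (E d) | e ∈ M}, ∃ L ∈ cw univ v x, Disjoint K L ∧
      (∀ e ∈ K, U e ≤ p) ∧ (∀ e ∈ L, U e ≤ p)} ≤ ENNReal.ofReal p * Ge p (x - v) := by
  refine (BK.bk_ennreal p p _ _).trans ?_
  rw [P_cw]
  gcongr
  rw [← P_open hp hp1 e]
  apply measure_mono
  rintro U ⟨K, hK, hU⟩
  exact hU e hK

theorem Ge_le' {p : ℝ} (hp : 0 ≤ p) (hp1 : p ≤ 1) {x : V d} (hx : x ≠ 0) : Ge p x ≤ Ke p x := by
  classical
  have h1 : {U : Cfg d | Conn (op p U) univ 0 x} ⊆ ⋃ v : V d,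
      {U : Cfg d | ∃ e : E d, Joins e 0 v ∧ ∃ K ∈ {M : Finset (E d) | e ∈ M}, ∃ L ∈ cw univ v x,
        Disjoint K L ∧ (∀ e ∈ K, U e ≤ p) ∧ (∀ e ∈ L, U e ≤ p)} := by
    intro U hU
    rw [mem_ofPred_eq, conn_op_iff] at hU
    obtain ⟨K, hK, hKU⟩ := hU
    obtain ⟨u, hu, v, -, e, hj, M, hM, L, hL, -, -, hLK⟩ :=
      exit_dj (S := {(0 : V d)}) hK rfl (by simpa using hx)
    rw [mem_singleton_iff] at hu
    subst hu
    obtain ⟨K1, hK1, L1, hL1, hd, h2, h3⟩ := hL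
    rw [mem_iUnion]
    exact ⟨v, e, hj, K1, hK1, L1, hL1, hd, fun f hf => hKU f (hLK (h2 hf)),
      fun f hf => hKU f (hLK (h3 hf))⟩
  calc Ge p x ≤ P d (⋃ v : V d,
      {U : Cfg d | ∃ e : E d, Joins e 0 v ∧ ∃ K ∈ {M : Finset (E d) | e ∈ M}, ∃ L ∈ cw univ v x,
        Disjoint K L ∧ (∀ e ∈ K, U e ≤ p) ∧ (∀ e ∈ L, U e ≤ p)}) := measure_mono h1
    _ ≤ ∑' v : V d, P d {U : Cfg d | ∃ e : E d, Joins e 0 v ∧ ∃ K ∈ {M : Finset (E d) | e ∈ M},
        ∃ L ∈ cw univ v x,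
        Disjoint K L ∧ (∀ e ∈ K, U e ≤ p) ∧ (∀ e ∈ L, U e ≤ p)} := measure_iUnion_le _
    _ ≤ ∑' v : V d, Je p v * Ge p (x - v) := by
        refine ENNReal.tsum_le_tsum fun v => ?_
        by_cases hv : Adj 0 v
        · obtain ⟨e, he⟩ := hv
          have h2 : Je p v = ENNReal.ofReal p := if_pos ⟨e, he⟩
          rw [h2]
          refine (measure_mono ?_).trans (firstEdge_one hp hp1 e v x)
          rintro U ⟨e', he', h⟩
          rwa [he.unique he']
        · have h2 : {U : Cfg d | ∃ e : E d, Joins e 0 v ∧ ∃ K ∈ {M : Finset (E d) | e ∈ M},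
              ∃ L ∈ cw univ v x,
              Disjoint K L ∧ (∀ e ∈ K, U e ≤ p) ∧ (∀ e ∈ L, U e ≤ p)} = ∅ := by
            ext U
            simp only [mem_ofPred_eq, mem_empty_iff_false, iff_false]
            rintro ⟨e, he, -⟩
            exact hv ⟨e, he⟩
          rw [h2, measure_empty]
          exact zero_le
    _ = Ke p x := rfl

/-- `τ ≤ δ₀ + pJ * τ`: for `x ≠ 0` let `e` be the first edge of a simple open path (`exit_dj` with `S = {0}`),
BK (`{e open} ∘ {b ↔ x}`), union over the neighbours `b` of `0` -/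
theorem Ge_le {p : ℝ} (hp : 0 ≤ p) (hp1 : p ≤ 1) (x : V d) : Ge p x ≤ diracE x + Ke p x := by
  by_cases hx : x = 0
  · have h1 : diracE x = 1 := by
      unfold diracE
      rw [if_pos hx]
    rw [h1]
    exact (Ge_le_one p x).trans le_self_add
  · exact (Ge_le' hp hp1 hx).trans le_add_self

end Pool.Agent.helper55.FP.L1
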