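import Pool.Agent.helper85.L1.Erase
import Pool.Agent.helper55.FP.Paths

/-!
# Lace expansion, part L1, module Menger: Menger's theorem for two edge-disjoint paths
-/

set_option autoImplicit false

open MeasureTheory Set
open scoped ENNReal

namespace Pool.Agent.helper55.FP.L1

variable {d : ℕ}

/-- two edge-disjoint open connections from `t` to `z` -/
def Menger.Two (O : Set (E d)) (t z : V d) : Prop :=
  ∃ K₁ K₂ : Finset (E d), (↑K₁ : Set (E d)) ⊆ O ∧ (↑K₂ : Set (E d)) ⊆ O ∧ Disjoint K₁ K₂ ∧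
      K₁ ∈ cw univ t z ∧ K₂ ∈ cw univ t z

theorem Menger.not_mem_inn {K : Finset (E d)} {l : List (V d)} {f : E d} {z w : V d}
    (hf : Joins f z w) (hw : z ∉ l ∨ w ∉ l) : f ∉ inn K l := by
  intro h
  rw [mem_inn] at h
  obtain ⟨-, h1, h2⟩ := h
  rcases hf with ⟨h3, h4⟩ | ⟨h3, h4⟩
  · rcases hw with hw | hw
    · exact hw (h3 ▸ h1)
    · exact hw (h4 ▸ h2)
  · rcases hw with hw | hw
    · exact hw (h4 ▸ h2)
    · exact hw (h3 ▸ h1)

open Classical in
theorem Menger.snoc_cw {K : Finset (E d)} {f : E d} {t z w : V d} (hf : Joins f z w)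
    (hK : K ∈ cw univ t z) : insert f K ∈ cw univ t w := by
  refine Conn.snoc (Conn.mono (O := (↑K : Set (E d))) ?_ subset_rfl hK)
    ⟨mem_univ _, mem_univ _, f, by simp, hf⟩
  intro e he
  simp only [Finset.coe_insert]
  exact Or.inr he

/-- one half of the step: the first path is met -/
theorem Menger.step_aux {O : Set (E d)} {t z w : V d} {f : E d} (hfO : f ∈ O) (hf : Joins f z w)
    {K₁ K₂ : Finset (E d)} {l₁ l₂ : List (V d)} (hK₁ : (↑K₁ : Set (E d)) ⊆ O)
    (hK₂ : (↑K₂ : Set (E d)) ⊆ O) (hd : Disjoint K₁ K₂)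
    (h₁ : SP K₁ univ l₁) (h₂ : SP K₂ univ l₂) (a₁ : l₁.head? = some t) (a₂ : l₂.head? = some t)
    (b₂ : l₂.getLast? = some z) (hw₁ : w ∉ l₁)
    {M : Finset (E d)} (hM : (↑M : Set (E d)) ⊆ O \ {f}) {m1 m2 : List (V d)} {r : V d}
    (hm : SP M univ (m1 ++ r :: m2)) (g1 : (m1 ++ r :: m2).head? = some w) (hr : r ∈ l₁)
    (hfirst : ∀ y ∈ m1, ¬ (y ∈ l₁ ∨ y ∈ l₂)) : Menger.Two O t w := by
  classical
  obtain ⟨l, l', rfl⟩ := List.append_of_mem hr
  refine ⟨inn K₁ (l ++ [r]) ∪ inn M (m1 ++ [r]), insert f (inn K₂ l₂), ?_, ?_, ?_, ?_, ?_⟩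
  · intro e he
    rw [Finset.mem_coe, Finset.mem_union] at he
    rcases he with he | he
    · exact hK₁ (inn_subset _ _ he)
    · exact (hM (inn_subset _ _ he)).1
  · intro e he
    rw [Finset.mem_coe, Finset.mem_insert] at he
    rcases he with rfl | he
    · exact hfO
    · exact hK₂ (inn_subset _ _ he)
  · rw [Finset.disjoint_union_left]
    constructor
    · rw [Finset.disjoint_insert_right]
      constructor
      · apply Menger.not_mem_inn hf
        right
        intro h
        apply hw₁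
        rcases List.mem_append.1 h with h3 | h3
        · exact List.mem_append_left _ h3
        · rw [List.mem_singleton.1 h3]
          exact List.mem_append_right _ List.mem_cons_self
      · exact Finset.disjoint_of_subset_left (inn_subset _ _)
          (Finset.disjoint_of_subset_right (inn_subset _ _) hd)
    · rw [Finset.disjoint_insert_right]
      constructor
      · intro h
        exact (hM (inn_subset _ _ h)).2 rfl
      · apply inn_disjoint r
        intro v hv hv'
        rcases List.mem_append.1 hv with h3 | h3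
        · exact absurd (Or.inr hv') (hfirst v h3)
        · exact List.mem_singleton.1 h3
  · have h3 : inn K₁ (l ++ [r]) ∈ cw univ t r :=
      h₁.left.mem_cw h₁.left.mem (head_append a₁) (by simp)
    have h4 : inn M (m1 ++ [r]) ∈ cw univ r w :=
      cw_symm (hm.left.mem_cw hm.left.mem (head_append g1) (by simp))
    exact Conn.trans (cw_mono h3 Finset.subset_union_left) (cw_mono h4 Finset.subset_union_right)
  · exact Menger.snoc_cw hf (h₂.mem_cw h₂.mem a₂ b₂)

/-- `w` is on the first path: cut it there -/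
theorem Menger.cut_aux {O : Set (E d)} {t z w : V d} {f : E d} (hfO : f ∈ O) (hf : Joins f z w)
    {K₁ K₂ : Finset (E d)} {l₁ : List (V d)} (hK₁ : (↑K₁ : Set (E d)) ⊆ O)
    (hK₂ : (↑K₂ : Set (E d)) ⊆ O) (hd : Disjoint K₁ K₂)
    (h₁ : SP K₁ univ l₁) (a₁ : l₁.head? = some t) (b₁ : l₁.getLast? = some z)
    (h₂ : K₂ ∈ cw univ t z) (hw : w ∈ l₁) : Menger.Two O t w := by
  classical
  obtain ⟨l, l', rfl⟩ := List.append_of_mem hw
  have hz : z ∉ l ++ [w] := by
    intro h
    have h3 : z ∈ w :: l' := by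
      have := last_append b₁
      exact mem_of_last this
    exact hf.ne (split_common h₁.nodup h h3)
  refine ⟨inn K₁ (l ++ [w]), insert f K₂, ?_, ?_, ?_, ?_, ?_⟩
  · intro e he
    exact hK₁ (inn_subset _ _ he)
  · intro e he
    rw [Finset.mem_coe, Finset.mem_insert] at he
    rcases he with rfl | he
    · exact hfO
    · exact hK₂ he
  · rw [Finset.disjoint_insert_right]
    exact ⟨Menger.not_mem_inn hf (Or.inl hz), Finset.disjoint_of_subset_left (inn_subset _ _) hd⟩
  · exact h₁.left.mem_cw h₁.left.mem (head_append a₁) (by simp)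
  · exact Menger.snoc_cw hf h₂


theorem Menger.step {O : Set (E d)} {t z w : V d} {f : E d} (hfO : f ∈ O) (hf : Joins f z w)
    (h : Menger.Two O t z) (hne : Conn (O \ {f}) univ t w) : Menger.Two O t w := by
  classical
  obtain ⟨K₁, K₂, hK₁, hK₂, hd, c₁, c₂⟩ := h
  obtain ⟨l₁, h₁, a₁, b₁⟩ := exists_SP c₁
  obtain ⟨l₂, h₂, a₂, b₂⟩ := exists_SP c₂
  by_cases hw₁ : w ∈ l₁
  · exact Menger.cut_aux hfO hf hK₁ hK₂ hd h₁ a₁ b₁ c₂ hw₁
  by_cases hw₂ : w ∈ l₂
  · exact Menger.cut_aux hfO hf hK₂ hK₁ hd.symm h₂ a₂ b₂ c₁ hw₂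
  obtain ⟨M, hM, hMO⟩ := conn_iff_wit.1 hne
  obtain ⟨m, hm, g1, g2⟩ := exists_SP (cw_symm hM)
  obtain ⟨m1, r, m2, rfl, hr, hfirst⟩ := exists_first (fun x => x ∈ l₁ ∨ x ∈ l₂) m
    ⟨t, mem_of_last g2, Or.inl (mem_of_head a₁)⟩
  rcases hr with hr | hr
  · exact Menger.step_aux hfO hf hK₁ hK₂ hd h₁ h₂ a₁ a₂ b₂ hw₁ hMO hm g1 hr hfirst
  · exact Menger.step_aux hfO hf hK₂ hK₁ hd.symm h₂ h₁ a₂ a₁ b₁ hw₂ hMO hm g1 hr
      (fun y hy h => hfirst y hy h.symm)

/-- along a simple path to `y`, no edge separates `t` from a vertex of the path -/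
theorem Menger.nosep {O : Set (E d)} {t y z : V d} {K : Finset (E d)} {l1 l2 : List (V d)}
    (hKO : (↑K : Set (E d)) ⊆ O) (hl : SP K univ (l1 ++ z :: l2))
    (h1 : (l1 ++ z :: l2).head? = some t) (h2 : (l1 ++ z :: l2).getLast? = some y)
    (hne : ∀ e, Conn (O \ {e}) univ t y) (e : E d) : Conn (O \ {e}) univ t z := by
  have c1 : inn K (l1 ++ [z]) ∈ cw univ t z :=
    hl.left.mem_cw hl.left.mem (head_append h1) (by simp)
  have c2 : inn K (z :: l2) ∈ cw univ z y :=
    hl.right.mem_cw hl.right.mem (by simp) (last_append h2)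
  by_cases he : e ∈ inn K (l1 ++ [z])
  · have he2 : e ∉ inn K (z :: l2) := by
      intro h
      have hdj : Disjoint (inn K (l1 ++ [z])) (inn K (z :: l2)) :=
        inn_disjoint z (fun v hv hv' => split_common hl.nodup hv hv')
      exact (Finset.disjoint_left.1 hdj) he h
    have h3 : Conn (O \ {e}) univ z y := by
      refine Conn.mono (O := (↑(inn K (z :: l2)) : Set (E d))) ?_ subset_rfl c2
      intro g hg
      refine ⟨hKO (inn_subset _ _ hg), ?_⟩
      rintro rfl
      exact he2 hg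
    exact (hne e).trans h3.symm
  · refine Conn.mono (O := (↑(inn K (l1 ++ [z])) : Set (E d))) ?_ subset_rfl c1
    intro g hg
    refine ⟨hKO (inn_subset _ _ hg), ?_⟩
    rintro rfl
    exact he hg

/-- if no edge separates `t` from `y` there are two edge-disjoint open connections.
Proof: induction along a simple path `t = p₀, …, p_l = y`; no edge separates `t` from `p_j` (if `e`
does, `e` lies on the path before `p_j`, so `p_j → y` avoids `e`, and `t → y` avoiding `e` exists).
Step: `K₁, K₂` disjoint simple paths `t → p_j`, `f = (p_j, p_{j+1})`.  If `f ∈ K₂` remove it from `K₂` and add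
it to `K₁`.  Otherwise let `S` be the vertices of `K₁ ∪ K₂`; if `p_{j+1} ∈ S`, say on `K₁`, cut `K₁` there and add `f`
to `K₂`; if not, a connection `t → p_{j+1}` avoiding `f` leaves `S` for the last time at `r`, say on `K₁`
(`exit_dj` from the other side: all its edges have an endpoint outside `S`): `K₁` up to `r` plus this
connection, and `K₂` plus `f`. -/
theorem menger2 {O : Set (E d)} {t y : V d} (h : Conn O univ t y)
    (hne : ∀ e, Conn (O \ {e}) univ t y) :
    ∃ K₁ K₂ : Finset (E d), (↑K₁ : Set (E d)) ⊆ O ∧ (↑K₂ : Set (E d)) ⊆ O ∧ Disjoint K₁ K₂ ∧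
      K₁ ∈ cw univ t y ∧ K₂ ∈ cw univ t y := by
  obtain ⟨K, hK, hKO⟩ := conn_iff_wit.1 h
  obtain ⟨l, hl, h1, h2⟩ := exists_SP hK
  have key : ∀ (l1 : List (V d)) (z : V d) (l2 : List (V d)), l = l1 ++ z :: l2 →
      Menger.Two O t z := by
    intro l1
    induction l1 using List.reverseRecOn with
    | nil =>
      intro z l2 hl0
      rw [hl0] at h1
      simp only [List.nil_append, List.head?_cons, Option.some.injEq] at h1
      subst h1
      exact ⟨∅, ∅, by simp, by simp, by simp, Conn.refl (mem_univ _), Conn.refl (mem_univ _)⟩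
    | append_singleton l1 u ih =>
      intro z l2 hl0
      have hl1 : l = l1 ++ u :: (z :: l2) := by rw [hl0]; simp
      have h3 := ih u (z :: l2) hl1
      have hl2 : SP K univ (l1 ++ u :: (z :: l2)) := hl1 ▸ hl
      have hstep : Step (↑K) univ u z := by
        have h3 := hl2.right.chain
        rw [List.isChain_cons_cons] at h3
        exact h3.1
      obtain ⟨-, -, f, hfK, hf⟩ := hstep
      refine Menger.step (hKO hfK) hf h3 ?_
      exact Menger.nosep hKO (hl0 ▸ hl) (hl0 ▸ h1) (hl0 ▸ h2) hne f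
  obtain ⟨l1, l2, h3⟩ := List.append_of_mem (mem_of_last h2)
  exact key l1 y l2 h3

end Pool.Agent.helper55.FP.L1
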