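import Pool.Agent.helper85.L1.Erase

/-!
# Lace expansion, part L1, module Pivot: pivotal edges and the decomposition of `Thr`
-/

set_option autoImplicit false

open MeasureTheory Set
open scoped ENNReal

namespace Pool.Agent.helper55.FP.L1

variable {d : ℕ}

theorem Pivot.edge {O : Set (E d)} {W : Set (V d)} {e : E d} {a b : V d} (he : e ∈ O)
    (hj : Joins e a b) (ha : a ∈ W) (hb : b ∈ W) : Conn O W a b :=
  (Conn.refl ha).snoc ⟨ha, hb, e, he, hj⟩

theorem Piv.not_tgt {O : Set (E d)} {e : E d} {a b v x : V d} (h : Piv O e a b v x) :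
    ¬ Conn (O \ {e}) univ v b := fun hb => h.cut (hb.trans h.right)

theorem Piv.conn {O : Set (E d)} {e : E d} {a b v x : V d} (h : Piv O e a b v x) :
    Conn O univ v x :=
  ((h.left.mono diff_subset subset_rfl).trans
    (Pivot.edge h.mem h.joins (mem_univ _) (mem_univ _))).trans
      (h.right.mono diff_subset subset_rfl)

/-- a pivotal edge for the beginning of a pivotal edge is pivotal -/
theorem Piv.trans {O : Set (E d)} {e e' : E d} {a b a' b' v x : V d} (h : Piv O e a b v x)
    (h' : Piv O e' a' b' v a) : Piv O e' a' b' v x := by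
  have hne : e ≠ e' := by
    rintro rfl
    exact h'.cut h.left
  have sub1 : (O \ {e'}) \ {e} ⊆ O \ {e} := fun y hy => ⟨hy.1.1, hy.2⟩
  have sub2 : (O \ {e'}) \ {e} ⊆ O \ {e'} := diff_subset
  have sub3 : (O \ {e}) \ {e'} ⊆ O \ {e} := diff_subset
  have sub4 : (O \ {e}) \ {e'} ⊆ O \ {e'} := fun y hy => ⟨hy.1.1, hy.2⟩
  have key : ∀ y, Conn (O \ {e'}) univ v y → Conn (O \ {e}) univ v y := by
    intro y hy
    rcases conn_erase h.joins hy with h1 | h1 | h1
    · exact h1.mono sub1 subset_rfl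
    · exact (h'.cut (h1.1.mono sub2 subset_rfl)).elim
    · exact (h.not_tgt (h1.1.mono sub1 subset_rfl)).elim
  refine ⟨h'.mem, h'.joins, h'.left, ?_, fun hc => h.cut (key _ hc)⟩
  have hb'b : Conn (O \ {e'}) univ b' b :=
    h'.right.trans (Pivot.edge ⟨h.mem, hne⟩ h.joins (mem_univ _) (mem_univ _))
  rcases conn_erase h'.joins h.right with h1 | h1 | h1
  · exact hb'b.trans (h1.mono sub4 subset_rfl)
  · exact h1.2.mono sub4 subset_rfl
  · exact (h.cut ((key _ h'.left).trans (h1.2.mono sub3 subset_rfl))).elim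

theorem Piv.cl_ssubset {O : Set (E d)} {e e' : E d} {a b a' b' v x : V d} (h : Piv O e a b v x)
    (h' : Piv O e' a' b' v a) : Cl (O \ {e'}) univ v ⊂ Cl (O \ {e}) univ v := by
  have sub1 : (O \ {e'}) \ {e} ⊆ O \ {e} := fun y hy => ⟨hy.1.1, hy.2⟩
  have sub2 : (O \ {e'}) \ {e} ⊆ O \ {e'} := diff_subset
  refine ⟨fun y hy => ?_, fun hs => h'.cut (hs h.left)⟩
  rcases conn_erase h.joins hy with h1 | h1 | h1
  · exact h1.mono sub1 subset_rfl
  · exact (h'.cut (h1.1.mono sub2 subset_rfl)).elim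
  · exact (h.not_tgt (h1.1.mono sub1 subset_rfl)).elim

/-- if `v` is connected to `x` through `A` and `Cut` fails then there is a first pivotal edge `c` with
`Thr O A v (src c)`, and then `Cut O A v (src c)`.  Proof: among the pivotal edges `(e,a,b)` of `v → x`
with `Thr O A v a` take one with `Cl (O \ {e}) univ v` of minimal cardinality; if `(e',a',b')` is
pivotal for `v → a` with `Thr O A v a'` then it is pivotal for `v → x` and
`Cl (O \ {e'}) univ v ⊂ Cl (O \ {e}) univ v` (strictly: `a` is not in the former). -/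
theorem cut_decomp {O : Set (E d)} {A : Set (V d)} {v x : V d} (hfin : (Cl O univ v).Finite)
    (h : Thr O A v x) (hc : ¬ Cut O A v x) :
    ∃ c : DE d, Cut O A v (src c) ∧ Piv O c.1 (src c) (tgt c) v x := by
  have hfin' : ∀ e : E d, (Cl (O \ {e}) univ v).Finite := fun e =>
    hfin.subset (fun y hy => Conn.mono diff_subset subset_rfl hy)
  have hex : ∃ n : ℕ, ∃ e a b, Piv O e a b v x ∧ Thr O A v a ∧
      (Cl (O \ {e}) univ v).ncard = n := by
    by_contra hno
    refine hc ⟨h, fun e a b hp ht => hno ⟨_, e, a, b, hp, ht, rfl⟩⟩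
  classical
  obtain ⟨e, a, b, hp, ht, hn⟩ := Nat.find_spec hex
  have hcut : Cut O A v a := by
    refine ⟨ht, fun e' a' b' hp' ht' => ?_⟩
    have hlt := Set.ncard_lt_ncard (hp.cl_ssubset hp') (hfin' e)
    rw [hn] at hlt
    exact Nat.find_min hex hlt ⟨e', a', b', hp.trans hp', ht', rfl⟩
  obtain ⟨c, hc1, hc2, hc3⟩ := exists_de hp.joins
  refine ⟨c, ?_, ?_⟩
  · rw [hc2]
    exact hcut
  · rw [hc1, hc2, hc3]
    exact hp

theorem cut_piv_thr {O : Set (E d)} {A : Set (V d)} {e : E d} {a b v x : V d} (h : Cut O A v a)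
    (hp : Piv O e a b v x) : Thr O A v x ∧ ¬ Cut O A v x := by
  refine ⟨⟨hp.conn, fun hc => ?_⟩, fun hc => hc.2 e a b hp h.1⟩
  rcases conn_erase hp.joins hc with h1 | h1 | h1
  · exact hp.cut (h1.mono subset_rfl (subset_univ _))
  · exact h.1.2 (h1.1.mono diff_subset subset_rfl)
  · exact hp.not_tgt (h1.1.mono subset_rfl (subset_univ _))

/-- two pivotal edges of `v → x` are ordered: they are equal, or one of them is pivotal for the
connection from `v` to the beginning of the other one (`conn_erase` several times) -/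
theorem piv_order {O : Set (E d)} {e e' : E d} {a b a' b' v x : V d} (h : Piv O e a b v x)
    (h' : Piv O e' a' b' v x) : (e = e' ∧ a = a' ∧ b = b') ∨ Piv O e a b v a' ∨
      Piv O e' a' b' v a := by
  by_cases hee : e = e'
  · subst hee
    have hj := h.joins
    have hj' := h'.joins
    have hor : (a = a' ∧ b = b') ∨ (a' = b) := by
      rcases hj with ⟨h1, h2⟩ | ⟨h1, h2⟩ <;> rcases hj' with ⟨h3, h4⟩ | ⟨h3, h4⟩
      · exact Or.inl ⟨h1.trans h3.symm, h2.trans h4.symm⟩
      · exact Or.inr (h4.trans h2.symm)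
      · exact Or.inr (h3.trans h1.symm)
      · exact Or.inl ⟨h2.trans h4.symm, h1.trans h3.symm⟩
    rcases hor with h1 | h1
    · exact Or.inl ⟨rfl, h1⟩
    · subst h1
      exact (h.not_tgt h'.left).elim
  · by_cases h1 : Conn (O \ {e}) univ v a'
    · by_cases h2 : Conn (O \ {e'}) univ v a
      · exfalso
        have h3 : Conn (O \ {e}) univ v b' :=
          h1.trans (Pivot.edge ⟨h'.mem, Ne.symm hee⟩ h'.joins (mem_univ _) (mem_univ _))
        have sub1 : (O \ {e'}) \ {e} ⊆ O \ {e} := fun y hy => ⟨hy.1.1, hy.2⟩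
        have sub2 : (O \ {e'}) \ {e} ⊆ O \ {e'} := diff_subset
        rcases conn_erase h.joins h'.right with h4 | h4 | h4
        · exact h.cut (h3.trans (h4.mono sub1 subset_rfl))
        · exact h'.cut ((h2.trans (Pivot.edge ⟨h.mem, hee⟩ h.joins (mem_univ _) (mem_univ _))).trans
            (h4.2.mono sub2 subset_rfl))
        · exact h.not_tgt (h3.trans (h4.1.mono sub1 subset_rfl))
      · right; right
        have sub1 : (O \ {e}) \ {e'} ⊆ O \ {e'} := fun y hy => ⟨hy.1.1, hy.2⟩
        refine ⟨h'.mem, h'.joins, h'.left, ?_, h2⟩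
        rcases conn_erase h'.joins h.left with h4 | h4 | h4
        · exact (h2 (h4.mono sub1 subset_rfl)).elim
        · exact h4.2.mono sub1 subset_rfl
        · exact (h'.not_tgt (h4.1.mono sub1 subset_rfl)).elim
    · right; left
      have sub1 : (O \ {e'}) \ {e} ⊆ O \ {e} := fun y hy => ⟨hy.1.1, hy.2⟩
      refine ⟨h.mem, h.joins, h.left, ?_, h1⟩
      rcases conn_erase h.joins h'.left with h4 | h4 | h4
      · exact (h1 (h4.mono sub1 subset_rfl)).elim
      · exact h4.2.mono sub1 subset_rfl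
      · exact (h.not_tgt (h4.1.mono sub1 subset_rfl)).elim

theorem cut_piv_unique {O : Set (E d)} {A : Set (V d)} {v x : V d} {c c' : DE d}
    (h : Cut O A v (src c)) (hp : Piv O c.1 (src c) (tgt c) v x)
    (h' : Cut O A v (src c')) (hp' : Piv O c'.1 (src c') (tgt c') v x) : c = c' := by
  rcases piv_order hp hp' with h1 | h1 | h1
  · exact de_ext h1.1 h1.2.1
  · exact (h'.2 _ _ _ h1 h.1).elim
  · exact (h.2 _ _ _ h1 h'.1).elim

end Pool.Agent.helper55.FP.L1
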