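import Pool.Agent.helper85.L1.Pivot
import Pool.Agent.helper85.L1.Menger

/-!
# Lace expansion, part L1, module Struct: structure of `E'(v,y;A)`
-/

set_option autoImplicit false

open MeasureTheory Set
open scoped ENNReal

namespace Pool.Agent.helper55.FP.L1

variable {d : ℕ}

/-- shrinking a witness to the cluster of its first vertex -/
theorem struct_shrink {K : Finset (E d)} {s y : V d} (h : K ∈ cw univ s y) :
    ∃ K' ⊆ K, K' ∈ cw univ s y ∧ ∀ f ∈ K', f.1 ∈ Cl (↑K : Set (E d)) univ s := by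
  classical
  refine ⟨K.filter (fun f => f.1 ∈ Cl (↑K : Set (E d)) univ s), Finset.filter_subset _ _, ?_,
    fun f hf => (Finset.mem_filter.1 hf).2⟩
  have h1 : Conn (↑K : Set (E d)) univ s y := h
  refine ⟨mem_univ _, ?_⟩
  have h2 : Relation.ReflTransGen (Step (↑K : Set (E d)) univ) s y := h1.2
  induction h2 with
  | refl => exact Relation.ReflTransGen.refl
  | @tail x x' hx hxx' ih =>
    have hxc : Conn (↑K : Set (E d)) univ s x := ⟨mem_univ _, hx⟩
    refine Relation.ReflTransGen.tail (ih hxc hxc) ?_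
    have hxc' : Conn (↑K : Set (E d)) univ s x' := Conn.snoc hxc hxx'
    obtain ⟨-, -, f, hf, hj⟩ := hxx'
    refine ⟨mem_univ _, mem_univ _, f, ?_, hj⟩
    rw [Finset.mem_coe, Finset.mem_filter]
    refine ⟨hf, ?_⟩
    rcases hj with ⟨h3, h4⟩ | ⟨h3, h4⟩
    · rw [← h3]; exact hxc
    · rw [← h3]; exact hxc'

/-- splitting one of two disjoint connections at a point of `A` -/
theorem struct_aux {O : Set (E d)} {A : Set (V d)} {v t y : V d} {K0 K2 K3 : Finset (E d)}
    (h0 : (↑K0 : Set (E d)) ⊆ O) (h2 : (↑K2 : Set (E d)) ⊆ O) (h3 : (↑K3 : Set (E d)) ⊆ O)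
    (d02 : Disjoint K0 K2) (d03 : Disjoint K0 K3) (d23 : Disjoint K2 K3)
    (c0 : K0 ∈ cw univ v t) (c2 : K2 ∈ cw univ t y) (c3 : K3 ∈ cw univ t y)
    (hA : ¬ Conn (↑K2 : Set (E d)) Aᶜ t y) :
    ∃ z ∈ A, ∃ t : V d, ∃ K : Fin 4 → Finset (E d),
      (∀ j, (↑(K j) : Set (E d)) ⊆ O) ∧ (∀ i j, i ≠ j → Disjoint (K i) (K j)) ∧
      K 0 ∈ cw univ v t ∧ K 1 ∈ cw univ t z ∧ K 2 ∈ cw univ z y ∧ K 3 ∈ cw univ t y := by
  obtain ⟨l, hl, hh, hla⟩ := exists_SP c2
  obtain ⟨z, hz, hzA⟩ : ∃ z ∈ l, z ∈ A := by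
    by_contra hcon
    push Not at hcon
    apply hA
    have h4 : inn K2 l ∈ cw Aᶜ t y := hl.mem_cw (fun x hx => hcon x hx) hh hla
    exact Conn.mono (by exact_mod_cast inn_subset K2 l) subset_rfl h4
  obtain ⟨l1, l2, rfl⟩ := List.append_of_mem hz
  have e1 : inn K2 (l1 ++ [z]) ⊆ K2 := inn_subset _ _
  have e2 : inn K2 (z :: l2) ⊆ K2 := inn_subset _ _
  have e12 : Disjoint (inn K2 (l1 ++ [z])) (inn K2 (z :: l2)) := by
    apply inn_disjoint z
    intro x hx hx'
    exact split_common hl.nodup hx hx'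
  have f1 : inn K2 (l1 ++ [z]) ∈ cw univ t z :=
    hl.left.mem_cw (fun _ _ => mem_univ _) (head_append hh) (by simp)
  have f2 : inn K2 (z :: l2) ∈ cw univ z y :=
    hl.right.mem_cw (fun _ _ => mem_univ _) (by simp) (last_append hla)
  have d01 : Disjoint K0 (inn K2 (l1 ++ [z])) := Finset.disjoint_of_subset_right e1 d02
  have d02' : Disjoint K0 (inn K2 (z :: l2)) := Finset.disjoint_of_subset_right e2 d02
  have d13 : Disjoint (inn K2 (l1 ++ [z])) K3 := Finset.disjoint_of_subset_left e1 d23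
  have d23' : Disjoint (inn K2 (z :: l2)) K3 := Finset.disjoint_of_subset_left e2 d23
  refine ⟨z, hzA, t, ![K0, inn K2 (l1 ++ [z]), inn K2 (z :: l2), K3], ?_, ?_, c0, f1, f2, c3⟩
  · intro j
    fin_cases j
    · exact h0
    · exact (Finset.coe_subset.2 e1).trans h2
    · exact (Finset.coe_subset.2 e2).trans h2
    · exact h3
  · intro i j hij
    fin_cases i <;> fin_cases j
    · exact absurd rfl hij
    · exact d01
    · exact d02'
    · exact d03
    · exact d01.symm
    · exact absurd rfl hij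
    · exact e12
    · exact d13
    · exact d02'.symm
    · exact e12.symm
    · exact absurd rfl hij
    · exact d23'
    · exact d03.symm
    · exact d13.symm
    · exact d23'.symm
    · exact absurd rfl hij

/-- an edge which separates `v` from `y` is pivotal -/
theorem struct_piv {O : Set (E d)} {f : E d} {v y : V d} (h : Conn O univ v y)
    (hf : ¬ Conn (O \ {f}) univ v y) : ∃ a b, Piv O f a b v y := by
  have hfO : f ∈ O := by
    by_contra h1
    rw [Set.sdiff_singleton_eq_self h1] at hf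
    exact hf h
  have hj : Joins f f.1 (tip f) := Or.inl ⟨rfl, rfl⟩
  rcases conn_erase hj h with h1 | ⟨h1, h2⟩ | ⟨h1, h2⟩
  · exact absurd h1 hf
  · exact ⟨f.1, tip f, hfO, hj, h1, h2, hf⟩
  · exact ⟨tip f, f.1, hfO, hj.symm, h1, h2, hf⟩

/-- Let `(e,a,t)` be the last pivotal edge of `v → y` (the one with the largest `Cl (O \ {e}) univ v`), or `t = v` if
there is none.  No edge separates `t` from `y`: two disjoint connections `K₂', K₃` (`menger2`), which stay
off `Cl (O \ {e}) univ v`.  By `Cut`, `v` is connected to `a` off `A`, so `K₂'` must meet `A` (otherwise `v` is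
connected to `y` off `A`): `z ∈ A` on `K₂'` splits it.  `K₀` = a connection `v → a` in
`O \ {e}` together with `e`. -/
theorem cut_struct {O : Set (E d)} {A : Set (V d)} {v y : V d} (hfin : (Cl O univ v).Finite)
    (h : Cut O A v y) : ∃ z ∈ A, ∃ t : V d, ∃ K : Fin 4 → Finset (E d),
      (∀ j, (↑(K j) : Set (E d)) ⊆ O) ∧ (∀ i j, i ≠ j → Disjoint (K i) (K j)) ∧
      K 0 ∈ cw univ v t ∧ K 1 ∈ cw univ t z ∧ K 2 ∈ cw univ z y ∧ K 3 ∈ cw univ t y := by
  classical
  obtain ⟨⟨hvy, hA⟩, hcut⟩ := h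
  by_cases hp : ∃ e a b, Piv O e a b v y
  · -- the last pivotal edge
    have hclfin : ∀ e : E d, (Cl (O \ {e}) univ v).Finite := fun e =>
      hfin.subset fun x hx => Conn.mono Set.sdiff_subset subset_rfl hx
    obtain ⟨e, a, b, hpiv, hmax⟩ : ∃ e a b, Piv O e a b v y ∧ ∀ e' a' b', Piv O e' a' b' v y →
        (Cl (O \ {e'}) univ v).ncard ≤ (Cl (O \ {e}) univ v).ncard := by
      have hbdd : ∀ k ∈ {k : ℕ | ∃ e a b, Piv O e a b v y ∧ (Cl (O \ {e}) univ v).ncard = k},
          k ≤ (Cl O univ v).ncard := by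
        rintro k ⟨e, a, b, -, rfl⟩
        exact Set.ncard_le_ncard (fun x hx => Conn.mono Set.sdiff_subset subset_rfl hx) hfin
      obtain ⟨e0, a0, b0, h0⟩ := hp
      have hne : {k : ℕ | ∃ e a b, Piv O e a b v y ∧ (Cl (O \ {e}) univ v).ncard = k}.Nonempty :=
        ⟨_, e0, a0, b0, h0, rfl⟩
      have hmem := Nat.sSup_mem hne ⟨_, fun k hk => hbdd k hk⟩
      obtain ⟨e, a, b, h1, h2⟩ := hmem
      refine ⟨e, a, b, h1, fun e' a' b' h' => ?_⟩
      rw [h2]
      exact le_csSup ⟨_, fun k hk => hbdd k hk⟩ ⟨e', a', b', h', rfl⟩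
    have hby := hpiv.right
    have hva := hpiv.left
    have hnvy := hpiv.cut
    have hab := hpiv.joins
    have heO := hpiv.mem
    have hsub : ∀ f : E d, (O \ {e}) \ {f} ⊆ O \ {e} := fun f => Set.sdiff_subset
    have hsub' : ∀ f : E d, (O \ {e}) \ {f} ⊆ O \ {f} := fun f =>
      Set.sdiff_subset_sdiff_left Set.sdiff_subset
    -- no edge separates `b` from `y`
    have hnosep : ∀ f, Conn ((O \ {e}) \ {f}) univ b y := by
      intro f
      by_contra hf
      obtain ⟨a', b', hp'⟩ := struct_piv hby hf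
      have hfe : f ≠ e := fun h1 => hp'.mem.2 h1
      have hfO : f ∈ O := hp'.mem.1
      have hba' := hp'.left
      have hb'y := hp'.right
      -- `v → a` without `e`, `f`
      have key : ∀ x, Conn (O \ {e}) univ v x → Conn ((O \ {e}) \ {f}) univ v x := by
        intro x hx
        rcases conn_erase hp'.joins hx with h1 | ⟨h1, -⟩ | ⟨h1, -⟩
        · exact h1
        · exfalso
          apply hnvy
          have h3 : Conn (O \ {e}) univ v b := (h1.mono (hsub f) subset_rfl).trans
            (hba'.mono (hsub f) subset_rfl).symm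
          exact h3.trans hby
        · exfalso
          apply hnvy
          exact (h1.mono (hsub f) subset_rfl).trans (hb'y.mono (hsub f) subset_rfl)
      have hva' := key a hva
      have heOf : e ∈ O \ {f} := ⟨heO, fun h1 => hfe h1.symm⟩
      have hvb : Conn (O \ {f}) univ v b :=
        (hva'.mono (hsub' f) subset_rfl).snoc ⟨mem_univ _, mem_univ _, e, heOf, hab⟩
      have hpf : Piv O f a' b' v y := by
        refine ⟨hfO, hp'.joins, hvb.trans (hba'.mono (hsub' f) subset_rfl),
          hb'y.mono (hsub' f) subset_rfl, ?_⟩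
        intro h1
        have hcomm : (O \ {f}) \ {e} = (O \ {e}) \ {f} := by
          rw [Set.sdiff_sdiff, Set.sdiff_sdiff, Set.union_comm]
        rcases conn_erase hab h1 with h2 | ⟨-, h2⟩ | ⟨-, h2⟩
        · rw [hcomm] at h2
          exact hnvy (h2.mono (hsub f) subset_rfl)
        · rw [hcomm] at h2
          exact hf h2
        · rw [hcomm] at h2
          exact hnvy (hva.trans (h2.mono (hsub f) subset_rfl))
      have h1 := hmax f a' b' hpf
      have h2 : Cl (O \ {e}) univ v ⊂ Cl (O \ {f}) univ v := by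
        refine ⟨fun x hx => (key x hx).mono (hsub' f) subset_rfl, fun hcon => ?_⟩
        have h3 : Conn (O \ {e}) univ v b := hcon hvb
        exact hnvy (h3.trans hby)
      have h3 := Set.ncard_lt_ncard h2 (hclfin f)
      omega
    obtain ⟨K2, K3, s2, s3, d23, c2, c3⟩ := menger2 hby hnosep
    obtain ⟨K2', t2, c2', i2⟩ := struct_shrink c2
    obtain ⟨K3', t3, c3', i3⟩ := struct_shrink c3
    obtain ⟨K0, c0, s0⟩ := conn_iff_wit.1 hva
    obtain ⟨K0', t0, c0', i0⟩ := struct_shrink c0
    have hsep : ∀ x, Conn (O \ {e}) univ v x → Conn (O \ {e}) univ b x → False := by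
      intro x h1 h2
      exact hnvy ((h1.trans h2.symm).trans hby)
    have d0 : ∀ K' K : Finset (E d), K' ⊆ K → (↑K : Set (E d)) ⊆ O \ {e} →
        (∀ f ∈ K', f.1 ∈ Cl (↑K : Set (E d)) univ b) → Disjoint (insert e K0') K' := by
      intro K' K hK hKO hi
      rw [Finset.disjoint_left]
      intro f hf hf'
      rcases Finset.mem_insert.1 hf with rfl | h1
      · exact (hKO (hK hf')).2 rfl
      · refine hsep f.1 ?_ ?_
        · exact Conn.mono s0 subset_rfl (i0 f h1)
        · exact Conn.mono hKO subset_rfl (hi f hf')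
    have hO2 : (↑K2' : Set (E d)) ⊆ O := ((Finset.coe_subset.2 t2).trans s2).trans Set.sdiff_subset
    refine struct_aux (K0 := insert e K0') (K2 := K2') (K3 := K3') (t := b) ?_ hO2
      (((Finset.coe_subset.2 t3).trans s3).trans Set.sdiff_subset)
      (d0 K2' K2 t2 s2 i2) (d0 K3' K3 t3 s3 i3) (d23.mono t2 t3) ?_ c2' c3' ?_
    · intro f hf
      rcases Finset.mem_insert.1 (Finset.mem_coe.1 hf) with rfl | h1
      · exact heO
      · exact (s0 (t0 h1)).1
    · have h1 : Conn (↑(insert e K0') : Set (E d)) univ v a :=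
        Conn.mono (by exact_mod_cast Finset.subset_insert e K0') subset_rfl c0'
      exact h1.snoc ⟨mem_univ _, mem_univ _, e, by simp, hab⟩
    · intro h1
      -- `v → a` off `A`
      have h2 : Conn O Aᶜ v a := by
        by_contra h3
        exact hcut e a b hpiv ⟨hva.mono Set.sdiff_subset subset_rfl, h3⟩
      apply hA
      have h3 : Conn O Aᶜ v b := h2.snoc ⟨h2.right, h1.left, e, heO, hab⟩
      exact h3.trans (h1.mono hO2 subset_rfl)
  · -- no pivotal edge
    have hnosep : ∀ f, Conn (O \ {f}) univ v y := by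
      intro f
      by_contra hf
      obtain ⟨a, b, h1⟩ := struct_piv hvy hf
      exact hp ⟨f, a, b, h1⟩
    obtain ⟨K2, K3, s2, s3, d23, c2, c3⟩ := menger2 hvy hnosep
    refine struct_aux (K0 := ∅) (K2 := K2) (K3 := K3) (t := v) (by simp) s2 s3
      (Finset.disjoint_empty_left _) (Finset.disjoint_empty_left _) d23 ?_ c2 c3 ?_
    · exact Conn.refl (mem_univ _)
    · intro h1
      exact hA (h1.mono s2 subset_rfl)

end Pool.Agent.helper55.FP.L1
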